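import Mathlib

/-!
# Torsion-free rank of (soluble) groups

`r0 G` is the sum of the `ℤ`-ranks of the factors of the derived series.
-/

set_option autoImplicit false

namespace Pool.TFR

open Cardinal

/-- The torsion-free rank: the sum of the ranks of the factors of the derived series. -/
noncomputable def r0 (G : Type) [Group G] : Cardinal :=
  Cardinal.sum (fun n : ℕ => Module.rank ℤ (Additive (Abelianization ↥(derivedSeries G n))))

/-- The rank of the abelianization. -/
noncomputable def rab (G : Type) [Group G] : Cardinal :=
  Module.rank ℤ (Additive (Abelianization G))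

/-- The rank of a commutative group. -/
noncomputable def ra (G : Type) [CommGroup G] : Cardinal :=
  Module.rank ℤ (Additive G)

theorem ra_congr {A B : Type} [CommGroup A] [CommGroup B] (e : A ≃* B) : ra A = ra B :=
  LinearEquiv.rank_eq (MulEquiv.toAdditive e).toIntLinearEquiv

theorem rab_congr {A B : Type} [Group A] [Group B] (e : A ≃* B) : rab A = rab B :=
  ra_congr (e.abelianizationCongr)

theorem rab_eq_ra (A : Type) [CommGroup A] : rab A = ra A :=
  (ra_congr (Abelianization.equivOfComm (H := A))).symm

theorem ra_le_of_injective {A B : Type} [CommGroup A] [CommGroup B] (f : A →* B)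
    (hf : Function.Injective f) : ra A ≤ ra B :=
  LinearMap.rank_le_of_injective (MonoidHom.toAdditive f).toIntLinearMap hf

/-- rank–nullity for commutative groups -/
theorem ra_add {A B : Type} [CommGroup A] [CommGroup B] (f : A →* B)
    (hf : Function.Surjective f) : ra A = ra f.ker + ra B := by
  have h := LinearMap.rank_range_add_rank_ker (MonoidHom.toAdditive f).toIntLinearMap
  have h1 : Module.rank ℤ (LinearMap.range (MonoidHom.toAdditive f).toIntLinearMap) = ra B := by
    have : LinearMap.range (MonoidHom.toAdditive f).toIntLinearMap = ⊤ :=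
      LinearMap.range_eq_top.2 hf
    rw [this, rank_top]
    rfl
  have h2 : Module.rank ℤ (LinearMap.ker (MonoidHom.toAdditive f).toIntLinearMap) = ra f.ker := by
    refine LinearEquiv.rank_eq (AddEquiv.toIntLinearEquiv ?_)
    exact
      { toFun := fun x => Additive.ofMul ⟨Additive.toMul x.1, x.2⟩
        invFun := fun x => ⟨Additive.ofMul (Additive.toMul x).1, (Additive.toMul x).2⟩
        left_inv := fun x => rfl
        right_inv := fun x => rfl
        map_add' := fun x y => rfl }
  rw [h1, h2] at h
  rw [add_comm]
  exact h.symm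

theorem ra_le_of_surjective {A B : Type} [CommGroup A] [CommGroup B] (f : A →* B)
    (hf : Function.Surjective f) : ra B ≤ ra A := by
  rw [ra_add f hf]
  exact self_le_add_left _ _

/-- If every element of `B` has a positive power in the range of the injective map `f`,
the ranks agree. -/
theorem ra_eq_of_powers {A B : Type} [CommGroup A] [CommGroup B] (f : A →* B)
    (hf : Function.Injective f) (h : ∀ b : B, ∃ n : ℕ, 0 < n ∧ b ^ n ∈ f.range) :
    ra A = ra B := by
  have h1 := ra_add (QuotientGroup.mk' f.range) (QuotientGroup.mk'_surjective _)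
  have h2 : ra (B ⧸ f.range) = 0 := by
    unfold ra
    rw [rank_eq_zero_iff]
    intro x
    obtain ⟨b, hb⟩ := QuotientGroup.mk'_surjective f.range (Additive.toMul x)
    obtain ⟨n, hn, hb'⟩ := h b
    refine ⟨n, by exact_mod_cast hn.ne', ?_⟩
    have : (Additive.toMul x) ^ n = 1 := by
      rw [← hb, ← map_pow]
      exact (QuotientGroup.eq_one_iff _).2 hb'
    rw [natCast_zsmul]
    exact this
  rw [h2, add_zero, QuotientGroup.ker_mk'] at h1
  rw [h1]
  exact ra_congr (MonoidHom.ofInjective hf)

theorem r0_congr {A B : Type} [Group A] [Group B] (e : A ≃* B) : r0 A = r0 B := by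
  unfold r0
  congr 1
  funext n
  have h : (derivedSeries A n).map (e : A →* B) = derivedSeries B n :=
    map_derivedSeries_eq (f := (e : A →* B)) e.surjective n
  have e1 : ↥(derivedSeries A n) ≃* ↥((derivedSeries A n).map (e : A →* B)) :=
    Subgroup.equivMapOfInjective _ _ e.injective
  have e2 : ↥((derivedSeries A n).map (e : A →* B)) ≃* ↥(derivedSeries B n) :=
    MulEquiv.subgroupCongr h
  exact rab_congr (e1.trans e2)

theorem map_derivedSeries_commutator (G : Type) [Group G] (n : ℕ) :
    (derivedSeries ↥(commutator G) n).map (commutator G).subtype = derivedSeries G (n + 1) := by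
  induction n with
  | zero =>
    rw [derivedSeries_zero, ← MonoidHom.range_eq_map, Subgroup.range_subtype]
    rfl
  | succ n ih =>
    rw [derivedSeries_succ, Subgroup.map_commutator, ih, derivedSeries_succ G (n + 1)]

theorem r0_eq_rab_add (G : Type) [Group G] : r0 G = rab G + r0 ↥(commutator G) := by
  unfold r0
  rw [Cardinal.sum_nat_eq_add_sum_succ]
  congr 1
  · exact rab_congr Subgroup.topEquiv
  · congr 1
    funext n
    have e1 : ↥(derivedSeries ↥(commutator G) n) ≃*
        ↥((derivedSeries ↥(commutator G) n).map (commutator G).subtype) :=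
      Subgroup.equivMapOfInjective _ _ (commutator G).subtype_injective
    exact (rab_congr (e1.trans (MulEquiv.subgroupCongr (map_derivedSeries_commutator G n)))).symm

theorem rab_of_subsingleton (G : Type) [Group G] [Subsingleton G] : rab G = 0 := by
  unfold rab
  rw [rank_eq_zero_iff]
  intro x
  refine ⟨1, one_ne_zero, ?_⟩
  obtain ⟨g, hg⟩ := QuotientGroup.mk_surjective (Additive.toMul x)
  have : Additive.toMul x = 1 := by
    refine hg.symm.trans ?_
    rw [Subsingleton.elim g 1]; rfl
  rw [one_smul]
  exact this

theorem r0_of_subsingleton (G : Type) [Group G] [Subsingleton G] : r0 G = 0 := by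
  unfold r0
  rw [← Cardinal.sum_const' (ι := ℕ) 0 |>.trans (by simp : (Cardinal.mk ℕ) * 0 = 0)]
  congr 1
  funext n
  exact rab_of_subsingleton _

theorem derivedSeries_commutator_eq_bot {G : Type} [Group G] {n : ℕ}
    (h : derivedSeries G (n + 1) = ⊥) : derivedSeries ↥(commutator G) n = ⊥ := by
  have := map_derivedSeries_commutator G n
  rw [h] at this
  exact (Subgroup.map_eq_bot_iff_of_injective _ (commutator G).subtype_injective).1 this

theorem subsingleton_of_derivedSeries_zero {G : Type} [Group G]
    (h : derivedSeries G 0 = ⊥) : Subsingleton G := by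
  rw [derivedSeries_zero] at h
  exact Subgroup.subsingleton_iff.1 (subsingleton_of_bot_eq_top h.symm)

theorem r0_comm (A : Type) [CommGroup A] : r0 A = ra A := by
  rw [r0_eq_rab_add, rab_eq_ra]
  have : Subsingleton ↥(commutator A) := by
    have h : commutator A = ⊥ := by
      rw [commutator_eq_bot_iff_center_eq_top]
      exact CommGroup.center_eq_top
    rw [h]
    infer_instance
  rw [r0_of_subsingleton, add_zero]

/-- Additivity for a commutative quotient. -/
theorem r0_add_comm (n : ℕ) : ∀ (G : Type) [Group G], derivedSeries G n = ⊥ →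
    ∀ (H : Type) [CommGroup H] (f : G →* H), Function.Surjective f →
      r0 G = r0 f.ker + ra H := by
  induction n with
  | zero =>
    intro G _ h H _ f hf
    have := subsingleton_of_derivedSeries_zero h
    have : Subsingleton H := hf.subsingleton
    rw [r0_of_subsingleton, r0_of_subsingleton, ← r0_comm, r0_of_subsingleton, add_zero]
  | succ n ih =>
    intro G _ h H _ f hf
    have hG' : derivedSeries ↥(commutator G) n = ⊥ := derivedSeries_commutator_eq_bot h
    have hle : commutator G ≤ f.ker := Abelianization.commutator_subset_ker f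
    -- the map from `G'` to the abelianization of the kernel
    let α : ↥(commutator G) →* Abelianization ↥f.ker :=
      Abelianization.of.comp (Subgroup.inclusion hle)
    -- the map from the abelianization of the kernel to that of `G`
    let β : Abelianization ↥f.ker →* Abelianization G := Abelianization.map f.ker.subtype
    let γ : Abelianization G →* H := Abelianization.lift f
    have hγ : Function.Surjective γ := by
      intro y
      obtain ⟨x, rfl⟩ := hf y
      exact ⟨Abelianization.of x, by simp [γ]⟩
    have e1 : rab G = ra γ.ker + ra H := ra_add γ hγ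
    have e2 : rab ↥f.ker = ra β.ker + ra β.range := by
      have := ra_add β.rangeRestrict β.rangeRestrict_surjective
      rw [MonoidHom.ker_rangeRestrict] at this
      exact this
    have e3 : β.range = γ.ker := by
      ext y
      constructor
      · rintro ⟨x, rfl⟩
        obtain ⟨k, rfl⟩ := QuotientGroup.mk_surjective x
        have : γ (β (Abelianization.of k)) = 1 := by
          simp only [β, γ, Abelianization.map_of, Abelianization.lift_apply_of]
          exact k.2
        exact this
      · intro hy
        obtain ⟨g, rfl⟩ := QuotientGroup.mk_surjective y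
        have hg : f g = 1 := by
          have : γ (Abelianization.of g) = 1 := hy
          simpa [γ] using this
        exact ⟨Abelianization.of ⟨g, hg⟩, by simp [β]; rfl⟩
    have e4 : α.range = β.ker := by
      ext y
      constructor
      · rintro ⟨x, rfl⟩
        have : β (α x) = 1 := by
          simp only [α, β, MonoidHom.comp_apply, Abelianization.map_of]
          exact (QuotientGroup.eq_one_iff _).2 x.2
        exact this
      · intro hy
        obtain ⟨k, rfl⟩ := QuotientGroup.mk_surjective y
        have hk : (k : G) ∈ commutator G := by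
          have : β (Abelianization.of k) = 1 := hy
          rw [Abelianization.map_of] at this
          exact (QuotientGroup.eq_one_iff _).1 this
        exact ⟨⟨k, hk⟩, rfl⟩
    have e5 : r0 ↥(commutator G) = r0 α.ker + ra α.range := by
      have := ih ↥(commutator G) hG' α.range α.rangeRestrict α.rangeRestrict_surjective
      rwa [MonoidHom.ker_rangeRestrict] at this
    have e6 : r0 α.ker = r0 ↥(commutator ↥f.ker) := by
      refine r0_congr ?_
      refine MulEquiv.ofBijective
        (MonoidHom.codRestrict ((Subgroup.inclusion hle).comp α.ker.subtype)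
          (commutator ↥f.ker) ?_) ⟨?_, ?_⟩
      · intro x
        have : α x.1 = 1 := x.2
        exact (QuotientGroup.eq_one_iff _).1 this
      · intro x y hxy
        have h1 : Subgroup.inclusion hle x.1 = Subgroup.inclusion hle y.1 :=
          congrArg Subtype.val hxy
        exact Subtype.ext (Subgroup.inclusion_injective hle h1)
      · intro y
        have hy : ((y : ↥f.ker) : G) ∈ commutator G := by
          have h2 : (commutator ↥f.ker).map f.ker.subtype ≤ commutator G := by
            rw [commutator_def, Subgroup.map_commutator, commutator_def]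
            exact Subgroup.commutator_mono le_top le_top
          exact h2 ⟨y.1, y.2, rfl⟩
        refine ⟨⟨⟨y.1.1, hy⟩, ?_⟩, ?_⟩
        · exact (QuotientGroup.eq_one_iff _).2 y.2
        · rfl
    rw [r0_eq_rab_add G, e1, e5, e6, e4, r0_eq_rab_add ↥f.ker, e2, e3]
    ring

/-- Additivity of the torsion-free rank. -/
theorem r0_add_surj (n : ℕ) : ∀ (H : Type) [Group H], derivedSeries H n = ⊥ →
    ∀ (G : Type) [Group G] [Group.IsSolvable G] (f : G →* H), Function.Surjective f →
      r0 G = r0 f.ker + r0 H := by
  induction n with
  | zero =>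
    intro H _ h G _ _ f hf
    have := subsingleton_of_derivedSeries_zero h
    rw [r0_of_subsingleton H, add_zero]
    have : f.ker = ⊤ := by
      ext x; simp [MonoidHom.mem_ker, Subsingleton.elim (f x) 1]
    rw [this]
    exact r0_congr Subgroup.topEquiv.symm
  | succ n ih =>
    intro H _ h G _ _ f hf
    have hH' : derivedSeries ↥(commutator H) n = ⊥ := derivedSeries_commutator_eq_bot h
    let g : G →* Abelianization H := Abelianization.of.comp f
    have hg : Function.Surjective g :=
      (QuotientGroup.mk_surjective (s := commutator H)).comp hf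
    obtain ⟨m, hm⟩ := (Group.isSolvable_def G).1 inferInstance
    have e1 : r0 G = r0 g.ker + rab H := r0_add_comm m G hm _ g hg
    have hmem : ∀ x : g.ker, f x.1 ∈ commutator H := by
      intro x
      have : g x.1 = 1 := x.2
      exact (QuotientGroup.eq_one_iff _).1 this
    let f' : g.ker →* ↥(commutator H) := MonoidHom.codRestrict (f.comp g.ker.subtype) _ hmem
    have hf' : Function.Surjective f' := by
      intro y
      obtain ⟨x, hx⟩ := hf y.1
      have hx' : g x = 1 := by
        refine (QuotientGroup.eq_one_iff _).2 ?_
        rw [hx]; exact y.2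
      exact ⟨⟨x, hx'⟩, Subtype.ext hx⟩
    have e2 : r0 g.ker = r0 f'.ker + r0 ↥(commutator H) := ih _ hH' _ f' hf'
    have e3 : r0 f'.ker = r0 f.ker := by
      refine r0_congr ?_
      refine MulEquiv.ofBijective
        (MonoidHom.codRestrict (g.ker.subtype.comp f'.ker.subtype) f.ker ?_) ⟨?_, ?_⟩
      · intro x
        have : f' x.1 = 1 := x.2
        exact congrArg Subtype.val this
      · intro x y hxy
        have h1 : (x.1.1 : G) = y.1.1 := congrArg (fun t : f.ker => (t : G)) hxy
        exact Subtype.ext (Subtype.ext h1)
      · intro y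
        have hy : f y.1 = 1 := y.2
        have hy' : g y.1 = 1 := by
          simp only [g, MonoidHom.comp_apply, hy, map_one]
        refine ⟨⟨⟨y.1, hy'⟩, ?_⟩, rfl⟩
        exact Subtype.ext hy
    rw [e1, e2, e3, r0_eq_rab_add H]
    ring

theorem r0_add {G H : Type} [Group G] [Group H] [Group.IsSolvable G] (f : G →* H)
    (hf : Function.Surjective f) : r0 G = r0 f.ker + r0 H := by
  have : Group.IsSolvable H := Group.isSolvable_of_surjective hf
  obtain ⟨m, hm⟩ := (Group.isSolvable_def H).1 inferInstance
  exact r0_add_surj m H hm G f hf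

theorem r0_add_range {G H : Type} [Group G] [Group H] [Group.IsSolvable G] (f : G →* H) :
    r0 G = r0 f.ker + r0 f.range := by
  have := r0_add f.rangeRestrict f.rangeRestrict_surjective
  rwa [MonoidHom.ker_rangeRestrict] at this

theorem r0_add_quotient {G : Type} [Group G] [Group.IsSolvable G] (N : Subgroup G) [N.Normal] :
    r0 G = r0 N + r0 (G ⧸ N) := by
  have := r0_add (QuotientGroup.mk' N) (QuotientGroup.mk'_surjective N)
  rwa [QuotientGroup.ker_mk'] at this

theorem r0_subgroup_aux (n : ℕ) : ∀ (G : Type) [Group G], derivedSeries G n = ⊥ →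
    ∀ H : Subgroup G, r0 H ≤ r0 G ∧
      ((∀ g : G, ∃ k : ℕ, 0 < k ∧ g ^ k ∈ H) → r0 H = r0 G) := by
  induction n with
  | zero =>
    intro G _ h H
    have := subsingleton_of_derivedSeries_zero h
    rw [r0_of_subsingleton, r0_of_subsingleton]
    exact ⟨le_rfl, fun _ => rfl⟩
  | succ n ih =>
    intro G _ h H
    have : Group.IsSolvable G := (Group.isSolvable_def G).2 ⟨_, h⟩
    have hG' : derivedSeries ↥(commutator G) n = ⊥ := derivedSeries_commutator_eq_bot h
    let φ : H →* Abelianization G := Abelianization.of.comp H.subtype
    have e1 : r0 H = r0 φ.ker + r0 φ.range := r0_add_range φ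
    have e2 : r0 φ.ker = r0 ↥(H.subgroupOf (commutator G)) := by
      refine r0_congr ?_
      refine
        { toFun := fun x => ⟨⟨x.1.1, (QuotientGroup.eq_one_iff _).1 x.2⟩, x.1.2⟩
          invFun := fun x => ⟨⟨x.1.1, x.2⟩, (QuotientGroup.eq_one_iff _).2 x.1.2⟩
          left_inv := fun x => rfl
          right_inv := fun x => rfl
          map_mul' := fun x y => rfl }
    obtain ⟨i1, i2⟩ := ih ↥(commutator G) hG' (H.subgroupOf (commutator G))
    constructor
    · rw [e1, e2, r0_eq_rab_add G, add_comm]
      refine add_le_add ?_ i1
      rw [r0_comm]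
      exact ra_le_of_injective φ.range.subtype Subtype.val_injective
    · intro hp
      rw [e1, e2, r0_eq_rab_add G, add_comm]
      rw [i2 (fun g => ?_)]
      · congr 1
        rw [r0_comm]
        refine ra_eq_of_powers φ.range.subtype Subtype.val_injective (fun b => ?_)
        obtain ⟨g, rfl⟩ := QuotientGroup.mk_surjective b
        obtain ⟨k, hk, hgk⟩ := hp g
        refine ⟨k, hk, ?_⟩
        rw [Subgroup.range_subtype]
        exact ⟨⟨g ^ k, hgk⟩, rfl⟩
      · obtain ⟨k, hk, hgk⟩ := hp g.1
        exact ⟨k, hk, by simpa [Subgroup.mem_subgroupOf] using hgk⟩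

theorem r0_subgroup_le {G : Type} [Group G] [Group.IsSolvable G] (H : Subgroup G) : r0 H ≤ r0 G := by
  obtain ⟨m, hm⟩ := (Group.isSolvable_def G).1 inferInstance
  exact (r0_subgroup_aux m G hm H).1

/-- If every element of `G` has a positive power in `H`, then `H` has the same rank as `G`. -/
theorem r0_eq_of_powers {G : Type} [Group G] [Group.IsSolvable G] (H : Subgroup G)
    (h : ∀ g : G, ∃ k : ℕ, 0 < k ∧ g ^ k ∈ H) : r0 H = r0 G := by
  obtain ⟨m, hm⟩ := (Group.isSolvable_def G).1 inferInstance
  exact (r0_subgroup_aux m G hm H).2 h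

theorem r0_mono {G : Type} [Group G] [Group.IsSolvable G] {H K : Subgroup G} (h : H ≤ K) :
    r0 H ≤ r0 K := by
  have h1 : r0 H = r0 ↥(H.subgroupOf K) := r0_congr (Subgroup.subgroupOfEquivOfLe h).symm
  rw [h1]
  exact r0_subgroup_le _

theorem r0_eq_of_powers' {G : Type} [Group G] [Group.IsSolvable G] {H K : Subgroup G} (h : H ≤ K)
    (hp : ∀ g ∈ K, ∃ k : ℕ, 0 < k ∧ g ^ k ∈ H) : r0 H = r0 K := by
  have h1 : r0 H = r0 ↥(H.subgroupOf K) := r0_congr (Subgroup.subgroupOfEquivOfLe h).symm
  rw [h1]
  refine r0_eq_of_powers _ (fun g => ?_)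
  obtain ⟨k, hk, hgk⟩ := hp g.1 g.2
  exact ⟨k, hk, by simpa [Subgroup.mem_subgroupOf] using hgk⟩

theorem r0_le_of_injective {G H : Type} [Group G] [Group H] [Group.IsSolvable H] (f : G →* H)
    (hf : Function.Injective f) : r0 G ≤ r0 H := by
  rw [r0_congr (MonoidHom.ofInjective hf)]
  exact r0_subgroup_le _

theorem r0_le_of_surjective {G H : Type} [Group G] [Group H] [Group.IsSolvable G] (f : G →* H)
    (hf : Function.Surjective f) : r0 H ≤ r0 G := by
  rw [r0_add f hf]
  exact self_le_add_left _ _

theorem r0_of_finite (G : Type) [Group G] [Group.IsSolvable G] [Finite G] : r0 G = 0 := by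
  have h := r0_eq_of_powers (⊥ : Subgroup G) (fun g => ⟨Nat.card G, Nat.card_pos, by
    rw [Subgroup.mem_bot]; exact pow_card_eq_one'⟩)
  rw [← h, r0_of_subsingleton]

end Pool.TFR
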