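import Mathlib
import Pool.Agent.TFR.Rank

/-!
# The rank trick: a group of finite rank cannot act by infinitely many independent units
-/

set_option autoImplicit false

namespace Pool.TFR

open Cardinal Polynomial

/-- In a commutative group of finite rank every sequence satisfies a relation. -/
theorem exists_relation {Γ : Type} [CommGroup Γ] (h : ra Γ < ℵ₀) (γ : ℕ → Γ) :
    ∃ a b : ℕ →₀ ℕ, a ≠ b ∧ Disjoint a.support b.support ∧
      a.prod (fun i n => γ i ^ n) = b.prod (fun i n => γ i ^ n) := by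
  have hdep : ¬ LinearIndependent ℤ (fun i => Additive.ofMul (γ i)) := by
    intro hli
    have h1 := hli.cardinal_lift_le_rank
    have h2 : Module.rank ℤ (Additive Γ) < ℵ₀ := h
    simp only [Cardinal.mk_nat] at h1
    rw [Cardinal.lift_aleph0, Cardinal.lift_id] at h1
    exact absurd (lt_of_le_of_lt h1 h2) (lt_irrefl _)
  rw [linearIndependent_iff] at hdep
  push Not at hdep
  obtain ⟨l, hl, hl0⟩ := hdep
  refine ⟨l.mapRange Int.toNat rfl, (-l).mapRange Int.toNat rfl, ?_, ?_, ?_⟩
  · intro hab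
    apply hl0
    ext i
    have := DFunLike.congr_fun hab i
    simp only [Finsupp.mapRange_apply, Finsupp.coe_neg, Pi.neg_apply] at this
    simp only [Finsupp.coe_zero, Pi.zero_apply]
    omega
  · rw [Finset.disjoint_left]
    intro i hi hi'
    simp only [Finsupp.mem_support_iff, Finsupp.mapRange_apply, Finsupp.coe_neg,
      Pi.neg_apply] at hi hi'
    omega
  · have key : ∀ m : ℕ →₀ ℤ, (m.mapRange Int.toNat rfl).prod (fun i n => γ i ^ n) =
        m.prod (fun i n => γ i ^ (n.toNat)) := by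
      intro m
      rw [Finsupp.prod_mapRange_index]
      intro i; simp
    rw [key, key]
    have hs : (-l).support = l.support := Finsupp.support_neg l
    rw [Finsupp.prod, Finsupp.prod, hs, ← div_eq_one, ← Finset.prod_div_distrib]
    have h3 : l.prod (fun i n => γ i ^ n) = 1 := by
      have := hl
      rw [Finsupp.linearCombination_apply] at this
      exact this
    rw [← h3, Finsupp.prod]
    refine Finset.prod_congr rfl (fun i _ => ?_)
    simp only [Finsupp.coe_neg, Pi.neg_apply]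
    rw [div_eq_iff_eq_mul, ← zpow_natCast, ← zpow_natCast, ← zpow_add]
    congr 1
    omega

theorem trick_rel {Γ M R : Type} [CommGroup Γ] [AddCommGroup M] [CommRing R]
    (h : ra Γ < ℵ₀) (ψ : R →+* Module.End ℤ M) (φ : Γ →* Module.End ℤ M)
    (hc : ∀ γ r, φ γ * ψ r = ψ r * φ γ) (w : M) (γ : ℕ → Γ) (g0 : R) (g : ℕ → R)
    (hg : ∀ i, φ (γ i) (ψ g0 w) = ψ (g i) w) :
    ∃ a b : ℕ →₀ ℕ, a ≠ b ∧ Disjoint a.support b.support ∧
      ψ (g0 ^ (b.sum fun _ n => n) * a.prod (fun i n => g i ^ n)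
        - g0 ^ (a.sum fun _ n => n) * b.prod (fun i n => g i ^ n)) w = 0 := by
  obtain ⟨a, b, hab, hd, hrel⟩ := exists_relation h γ
  refine ⟨a, b, hab, hd, ?_⟩
  let S : Submonoid (Γ × R × R) :=
    { carrier := {x | φ x.1 (ψ x.2.1 w) = ψ x.2.2 w}
      one_mem' := by simp
      mul_mem' := by
        rintro ⟨γ₁, s₁, t₁⟩ ⟨γ₂, s₂, t₂⟩ h₁ h₂
        simp only [Set.mem_ofPred_eq, Prod.mk_mul_mk] at h₁ h₂ ⊢
        rw [map_mul, map_mul, map_mul, Module.End.mul_apply, Module.End.mul_apply]
        have e1 : φ γ₂ (ψ s₁ (ψ s₂ w)) = ψ s₁ (φ γ₂ (ψ s₂ w)) := by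
          have := congrArg (fun f : Module.End ℤ M => f (ψ s₂ w)) (hc γ₂ s₁)
          simpa using this
        rw [e1, h₂]
        have e2 : ψ s₁ (ψ t₂ w) = ψ t₂ (ψ s₁ w) := by
          rw [← Module.End.mul_apply, ← Module.End.mul_apply, ← map_mul, ← map_mul, mul_comm]
        rw [e2]
        have e3 : φ γ₁ (ψ t₂ (ψ s₁ w)) = ψ t₂ (φ γ₁ (ψ s₁ w)) := by
          have := congrArg (fun f : Module.End ℤ M => f (ψ s₁ w)) (hc γ₁ t₂)
          simpa using this
        rw [e3, h₁, ← Module.End.mul_apply, ← map_mul, Module.End.mul_apply,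
          ← Module.End.mul_apply, ← map_mul, mul_comm] }
  have key : ∀ c : ℕ →₀ ℕ, φ (c.prod (fun i n => γ i ^ n)) (ψ (g0 ^ (c.sum fun _ n => n)) w) =
      ψ (c.prod (fun i n => g i ^ n)) w := by
    intro c
    have hmem : (c.prod fun i n => ((γ i, g0, g i) : Γ × R × R) ^ n) ∈ S := by
      refine Submonoid.prod_mem S (fun i _ => ?_)
      exact Submonoid.pow_mem S (hg i) _
    have e : (c.prod fun i n => ((γ i, g0, g i) : Γ × R × R) ^ n) =
        (c.prod (fun i n => γ i ^ n), g0 ^ (c.sum fun _ n => n), c.prod (fun i n => g i ^ n)) := by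
      unfold Finsupp.prod Finsupp.sum
      rw [← Finset.prod_pow_eq_pow_sum]
      refine Prod.ext ?_ (Prod.ext ?_ ?_)
      · simp [Prod.fst_prod]
      · simp [Prod.fst_prod, Prod.snd_prod]
      · simp [Prod.snd_prod]
    rw [e] at hmem
    exact hmem
  have ka := key a
  have kb := key b
  rw [map_sub, LinearMap.sub_apply, sub_eq_zero, map_mul, map_mul, Module.End.mul_apply,
    Module.End.mul_apply, ← ka, ← kb, hrel]
  have e4 : ∀ (r s : R) (δ : Γ), ψ r (φ δ (ψ s w)) = φ δ (ψ (r * s) w) := by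
    intro r s δ
    rw [map_mul, Module.End.mul_apply]
    have := congrArg (fun f : Module.End ℤ M => f (ψ s w)) (hc δ r)
    simpa using this.symm
  rw [e4, e4, mul_comm]

/-- Pairwise coprime non-units are multiplicatively independent, in a strong form. -/
theorem coprime_ne {k : Type} [CommRing k] (g0 : k) (g : ℕ → k)
    (h0 : ∀ i, IsCoprime (g i) g0) (hc : ∀ i j, i ≠ j → IsCoprime (g i) (g j))
    (hu : ∀ i, ¬ IsUnit (g i)) (a b : ℕ →₀ ℕ) (hab : a ≠ b)
    (hd : Disjoint a.support b.support) :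
    g0 ^ (b.sum fun _ n => n) * a.prod (fun i n => g i ^ n)
        - g0 ^ (a.sum fun _ n => n) * b.prod (fun i n => g i ^ n) ≠ 0 := by
  intro heq
  rw [sub_eq_zero] at heq
  -- symmetric core statement
  have core : ∀ a b : ℕ →₀ ℕ, Disjoint a.support b.support →
      g0 ^ (b.sum fun _ n => n) * a.prod (fun i n => g i ^ n)
        = g0 ^ (a.sum fun _ n => n) * b.prod (fun i n => g i ^ n) → a = 0 := by
    intro a b hd heq
    by_contra ha
    obtain ⟨i, hi⟩ := Finsupp.support_nonempty_iff.2 ha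
    have hib : i ∉ b.support := Finset.disjoint_left.1 hd hi
    have hdvd : g i ∣ g0 ^ (a.sum fun _ n => n) * b.prod (fun i n => g i ^ n) := by
      rw [← heq]
      refine Dvd.dvd.mul_left ?_ _
      refine dvd_trans ?_ (Finset.dvd_prod_of_mem _ hi)
      exact dvd_pow_self _ (Finsupp.mem_support_iff.1 hi)
    have hcop : IsCoprime (g i) (g0 ^ (a.sum fun _ n => n) * b.prod (fun i n => g i ^ n)) := by
      refine IsCoprime.mul_right ((h0 i).pow_right) ?_
      refine IsCoprime.prod_right (fun j hj => ?_)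
      exact (hc i j (fun hij => hib (hij ▸ hj))).pow_right
    exact hu i (hcop.isUnit_of_dvd' dvd_rfl hdvd)
  have h1 := core a b hd heq
  have h2 := core b a hd.symm heq.symm
  exact hab (h1.trans h2.symm)

/-- the product `P n = ∏_{j<n} (1 + t P j)` -/
def seqP {R : Type} [CommRing R] (t : R) : ℕ → R
  | 0 => 1
  | n + 1 => seqP t n * (1 + t * seqP t n)

theorem seqP_dvd {R : Type} [CommRing R] (t : R) {m n : ℕ} (h : m < n) :
    1 + t * seqP t m ∣ seqP t n := by
  induction n with
  | zero => omega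
  | succ n ih =>
    rw [seqP]
    rcases Nat.lt_succ_iff_lt_or_eq.1 h with h | rfl
    · exact Dvd.dvd.mul_right (ih h) _
    · exact dvd_mul_left _ _

theorem seq_coprime {R : Type} [CommRing R] (t : R) {m n : ℕ} (h : m ≠ n) :
    IsCoprime (1 + t * seqP t m) (1 + t * seqP t n) := by
  have core : ∀ {m n : ℕ}, m < n → IsCoprime (1 + t * seqP t m) (1 + t * seqP t n) := by
    intro m n h
    obtain ⟨c, hc⟩ := seqP_dvd t h
    refine ⟨-(t * c), 1, ?_⟩
    rw [hc]; ring
  rcases lt_or_gt_of_ne h with h | h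
  · exact core h
  · exact (core h).symm

theorem seqP_monic (n : ℕ) : (seqP (X - 1 : ℤ[X]) n).Monic ∧
    (1 + (X - 1) * seqP (X - 1 : ℤ[X]) n).Monic ∧
    0 < (1 + (X - 1) * seqP (X - 1 : ℤ[X]) n).natDegree := by
  have step : ∀ P : ℤ[X], P.Monic → (1 + (X - 1) * P).Monic ∧
      0 < (1 + (X - 1) * P).natDegree := by
    intro P hP
    have h1 : ((X - 1 : ℤ[X]) * P).Monic := (monic_X_sub_C (1 : ℤ)).mul hP
    have h2 : ((X - 1 : ℤ[X]) * P).natDegree = 1 + P.natDegree := by
      have := (monic_X_sub_C (1 : ℤ)).natDegree_mul hP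
      rw [natDegree_X_sub_C] at this
      exact this
    have h3 : (1 : ℤ[X]).degree < ((X - 1 : ℤ[X]) * P).degree := by
      rw [degree_one, degree_eq_natDegree h1.ne_zero, h2]
      exact_mod_cast (by omega : 0 < 1 + P.natDegree)
    constructor
    · rw [add_comm]
      exact h1.add_of_left h3
    · rw [natDegree_add_eq_right_of_degree_lt h3, h2]
      omega
  induction n with
  | zero => exact ⟨monic_one, step _ monic_one⟩
  | succ n ih =>
    have : (seqP (X - 1 : ℤ[X]) (n + 1)).Monic := ih.1.mul ih.2.1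
    exact ⟨this, step _ this⟩

end Pool.TFR
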