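import Mathlib
import Pool.Agent.TFR.Trick

/-!
# Surjective derivations and the key identity
-/

set_option autoImplicit false

namespace Pool.TFR

open Cardinal Polynomial

/-- A derivation `π : Q → M` for a linear action `ρ` of `Q` on `M`. -/
structure Der (Q M : Type) [Group Q] [AddCommGroup M] where
  ρ : Q →* Module.End ℤ M
  π : Q → M
  map_mul : ∀ a b, π (a * b) = π a + ρ a (π b)

namespace Der

variable {Q M : Type} [Group Q] [AddCommGroup M] (D : Der Q M)

theorem map_one : D.π 1 = 0 := by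
  have h := D.map_mul 1 1
  rw [mul_one, _root_.map_one] at h
  simpa using h

theorem ρ_inv_apply (a : Q) (m : M) : D.ρ a⁻¹ (D.ρ a m) = m := by
  rw [← Module.End.mul_apply, ← _root_.map_mul, inv_mul_cancel, _root_.map_one]
  rfl

theorem ρ_apply_inv (a : Q) (m : M) : D.ρ a (D.ρ a⁻¹ m) = m := by
  rw [← Module.End.mul_apply, ← _root_.map_mul, mul_inv_cancel, _root_.map_one]
  rfl

theorem map_inv (a : Q) : D.π a⁻¹ = - D.ρ a⁻¹ (D.π a) := by
  have h := D.map_mul a⁻¹ a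
  rw [inv_mul_cancel, D.map_one] at h
  exact eq_neg_of_add_eq_zero_left h.symm

/-- the derivation with respect to another base point -/
def shift (m : M) : Der Q M where
  ρ := D.ρ
  π := fun q => D.π q + (D.ρ q m - m)
  map_mul := by
    intro a b
    rw [D.map_mul, _root_.map_mul, Module.End.mul_apply, map_add, map_sub]
    abel

theorem shift_surj (hs : Function.Surjective D.π) (m : M) :
    Function.Surjective (D.shift m).π := by
  intro y
  obtain ⟨q₁, h₁⟩ := hs m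
  obtain ⟨q₂, h₂⟩ := hs (m + y)
  refine ⟨q₂ * q₁⁻¹, ?_⟩
  change D.π (q₂ * q₁⁻¹) + (D.ρ (q₂ * q₁⁻¹) m - m) = y
  rw [D.map_mul, D.map_inv, h₁, h₂, _root_.map_mul, Module.End.mul_apply, map_neg]
  abel

/-- the subgroup of elements of a given finite index subgroup act through an abelian group,
and commutators have trivial value -/
def AbOn (Q1 : Subgroup Q) : Prop :=
  ∀ x ∈ ⁅Q1, Q1⁆, D.ρ x = 1 ∧ D.π x = 0

theorem AbOn.shift {D : Der Q M} {Q1 : Subgroup Q} (h : D.AbOn Q1) (m : M) :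
    (D.shift m).AbOn Q1 := by
  intro x hx
  obtain ⟨h1, h2⟩ := h x hx
  refine ⟨h1, ?_⟩
  change D.π x + (D.ρ x m - m) = 0
  rw [h1, h2]; simp

theorem AbOn.comm {D : Der Q M} {Q1 : Subgroup Q} (h : D.AbOn Q1) {a z : Q} (ha : a ∈ Q1)
    (hz : z ∈ Q1) : D.ρ a * D.ρ z = D.ρ z * D.ρ a ∧ D.π (a * z) = D.π (z * a) := by
  have hx : a⁻¹ * z⁻¹ * a * z ∈ ⁅Q1, Q1⁆ := by
    have := Subgroup.commutator_mem_commutator (Q1.inv_mem ha) (Q1.inv_mem hz)
    simpa [commutatorElement_def] using this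
  have e : a * z = (z * a) * (a⁻¹ * z⁻¹ * a * z) := by group
  obtain ⟨h1, h2⟩ := h _ hx
  constructor
  · rw [← _root_.map_mul, e, _root_.map_mul, h1, mul_one, _root_.map_mul]
  · conv_lhs => rw [e]
    rw [D.map_mul, h2, map_zero, add_zero]

/-- The commutative group through which `Q1` acts. -/
noncomputable def AbOn.φ {D : Der Q M} {Q1 : Subgroup Q} (h : D.AbOn Q1) :
    Abelianization ↥Q1 →* Module.End ℤ M :=
  QuotientGroup.lift _ (D.ρ.comp Q1.subtype) (by
    intro x hx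
    rw [MonoidHom.mem_ker]
    refine (h x.1 ?_).1
    have h2 : (commutator ↥Q1).map Q1.subtype ≤ ⁅Q1, Q1⁆ := by
      rw [commutator_def, Subgroup.map_commutator]
      refine Subgroup.commutator_mono ?_ ?_ <;>
      · rintro _ ⟨y, -, rfl⟩; exact y.2
    exact h2 ⟨x, hx, rfl⟩)

theorem AbOn.φ_of {D : Der Q M} {Q1 : Subgroup Q} (h : D.AbOn Q1) (x : ↥Q1) :
    h.φ (Abelianization.of x) = D.ρ x.1 := rfl

theorem AbOn.φ_comm {D : Der Q M} {Q1 : Subgroup Q} (h : D.AbOn Q1) {z : Q} (hz : z ∈ Q1)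
    (x : Abelianization ↥Q1) (f : ℤ[X]) :
    h.φ x * (aeval (D.ρ z) f : Module.End ℤ M) = aeval (D.ρ z) f * h.φ x := by
  obtain ⟨y, rfl⟩ := QuotientGroup.mk_surjective x
  have hc : Commute (D.ρ y.1) (D.ρ z) := (h.comm y.2 hz).1
  change D.ρ y.1 * _ = _ * D.ρ y.1
  refine Polynomial.induction_on' f (fun p q hp hq => ?_) (fun n a => ?_)
  · rw [map_add, mul_add, add_mul, hp, hq]
  · rw [aeval_monomial]
    have h1 : Commute (D.ρ y.1) ((algebraMap ℤ (Module.End ℤ M)) a) :=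
      (Algebra.commutes a (D.ρ y.1)).symm
    exact (h1.mul_right (hc.pow_right n)).eq

theorem ra_Q1_lt {Q : Type} [Group Q] [Group.IsSolvable Q] (hr : r0 Q < ℵ₀) (Q1 : Subgroup Q) :
    ra (Abelianization ↥Q1) < ℵ₀ := by
  have h1 : ra (Abelianization ↥Q1) ≤ r0 ↥Q1 := by
    rw [r0_eq_rab_add]
    exact self_le_add_right _ _
  exact lt_of_le_of_lt (h1.trans (r0_subgroup_le Q1)) hr

/-- The key identity, with the pigeonhole principle for the finite index subgroup `Q1`. -/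
theorem AbOn.key {D : Der Q M} {Q1 : Subgroup Q} [Q1.FiniteIndex] (h : D.AbOn Q1)
    (hs : Function.Surjective D.π) {z : Q} (hz : z ∈ Q1) (f : ℕ → ℤ[X]) :
    ∃ (i0 : ℕ) (ι : ℕ → ℕ) (a : ℕ → ↥Q1), Function.Injective ι ∧ (∀ i, ι i ≠ i0) ∧
      ∀ i, D.ρ (a i).1 (aeval (D.ρ z) (1 + (X - 1) * f i0) (D.π z)) =
        aeval (D.ρ z) (1 + (X - 1) * f (ι i)) (D.π z) := by
  classical
  choose q hq using fun i => hs (aeval (D.ρ z) (f i) (D.π z))
  -- right cosets: `q i * (q j)⁻¹ ∈ Q1`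
  have hfin : Finite (Q ⧸ Q1) := Subgroup.finite_quotient_of_finiteIndex
  obtain ⟨y, hy⟩ := Finite.exists_infinite_fiber (fun i : ℕ => (((q i)⁻¹ : Q) : Q ⧸ Q1))
  let e := (Set.infinite_coe_iff.1 hy).natEmbedding
  have he : ∀ i, (((q (e i).1)⁻¹ : Q) : Q ⧸ Q1) = y := fun i => (e i).2
  have hmem : ∀ i, q (e (i + 1)).1 * (q (e 0).1)⁻¹ ∈ Q1 := by
    intro i
    have := (he (i + 1)).trans (he 0).symm
    rw [QuotientGroup.eq] at this
    simpa using this
  refine ⟨(e 0).1, fun i => (e (i + 1)).1, fun i => ⟨_, hmem i⟩, ?_, ?_, ?_⟩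
  · intro i j hij
    have := e.injective (Subtype.ext hij)
    omega
  · intro i hi
    have := e.injective (Subtype.ext hi)
    omega
  · intro i
    set A : Q := q (e (i + 1)).1 * (q (e 0).1)⁻¹ with hA
    obtain ⟨c1, c2⟩ := h.comm (hmem i) hz
    have hAq : A * q (e 0).1 = q (e (i + 1)).1 := by rw [hA]; group
    have e1 : D.π A + D.ρ A (D.π (q (e 0).1)) = D.π (q (e (i + 1)).1) := by
      rw [← D.map_mul, hAq]
    have e2 : D.π A + D.ρ A (D.π z) = D.π z + D.ρ z (D.π A) := by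
      rw [← D.map_mul, ← D.map_mul]; exact c2
    have e3 : ∀ g : ℤ[X], ∀ m, D.ρ A (aeval (D.ρ z) g m) = aeval (D.ρ z) g (D.ρ A m) := by
      intro g m
      have := h.φ_comm hz (Abelianization.of ⟨A, hmem i⟩) g
      have := congrArg (fun F : Module.End ℤ M => F m) this
      simpa [h.φ_of] using this
    have e4 : D.ρ A (D.π z) = D.π z + (D.ρ z (D.π A) - D.π A) := by
      have : D.ρ A (D.π z) = D.π z + D.ρ z (D.π A) - D.π A := by rw [← e2]; abel
      rw [this]; abel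
    have e5 : D.π A = D.π (q (e (i + 1)).1) - D.ρ A (D.π (q (e 0).1)) := by
      rw [← e1]; abel
    have e6 : ∀ (g : ℤ[X]) (m : M), aeval (D.ρ z) (1 + (X - 1) * g) m =
        m + (D.ρ z (aeval (D.ρ z) g m) - aeval (D.ρ z) g m) := by
      intro g m
      simp [Module.End.mul_apply, LinearMap.sub_apply]
    change D.ρ A _ = _
    rw [e6, e6, map_add, map_sub, ← hq (e 0).1, ← hq (e (i + 1)).1, e4, e5]
    have e7 : D.ρ A (D.ρ z (D.π (q (e 0).1))) = D.ρ z (D.ρ A (D.π (q (e 0).1))) := by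
      rw [← Module.End.mul_apply, c1, Module.End.mul_apply]
    rw [map_sub, e7]
    abel

end Der

end Pool.TFR
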