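import Mathlib
import Pool.Agent.TFR.Der

/-!
# The torsion case: every element of `Q1` with torsion value has a power in the kernel
-/

set_option autoImplicit false

namespace Pool.TFR

open Cardinal Polynomial

/-- `F_p`-case: a nonzero polynomial modulo `p` killing `w` gives a period. -/
theorem period_prime {M : Type} [AddCommGroup M] (T : Module.End ℤ M)
    (hT : Function.Injective T) (p : ℕ) [Fact p.Prime] (G : ℤ[X])
    (hG : G.map (Int.castRingHom (ZMod p)) ≠ 0) (w : M) (hp : (p : ℤ) • w = 0)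
    (hw : aeval T G w = 0) : ∃ d : ℕ, 0 < d ∧ (T ^ d) w = w := by
  set G' := G.map (Int.castRingHom (ZMod p)) with hG'
  have hfin : Module.Finite (ZMod p) (AdjoinRoot G') := (AdjoinRoot.powerBasis hG).finite
  have hfin' : Finite (AdjoinRoot G') := Module.finite_of_finite (ZMod p)
  obtain ⟨k, l, hkl, heq⟩ := Finite.exists_ne_map_eq_of_infinite
    (fun k : ℕ => (AdjoinRoot.mk G' (X ^ k)))
  wlog hlt : k < l generalizing k l
  · exact this l k hkl.symm heq.symm (lt_of_le_of_ne (not_lt.1 hlt) hkl.symm)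
  have hdvd : G' ∣ X ^ l - X ^ k := by
    rw [← AdjoinRoot.mk_eq_zero, map_sub, sub_eq_zero]
    exact heq.symm
  obtain ⟨c, hc⟩ := hdvd
  obtain ⟨c', hc'⟩ := Polynomial.map_surjective (Int.castRingHom (ZMod p))
    (ZMod.intCast_surjective) c
  have hz : (X ^ l - X ^ k - G * c' : ℤ[X]).map (Int.castRingHom (ZMod p)) = 0 := by
    rw [Polynomial.map_sub, Polynomial.map_mul, hc', ← hG', ← hc]
    simp
  have hpd : (C (p : ℤ)) ∣ (X ^ l - X ^ k - G * c' : ℤ[X]) := by
    rw [Polynomial.C_dvd_iff_dvd_coeff]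
    intro i
    have := congrArg (fun P => Polynomial.coeff P i) hz
    simp only [Polynomial.coeff_map, Polynomial.coeff_zero] at this
    exact (ZMod.intCast_zmod_eq_zero_iff_dvd _ p).1 this
  obtain ⟨c'', hc''⟩ := hpd
  have hfinal : aeval T (X ^ l - X ^ k : ℤ[X]) w = 0 := by
    have e : (X ^ l - X ^ k : ℤ[X]) = c' * G + c'' * C (p : ℤ) := by
      have := hc''
      linear_combination this
    rw [e, map_add, map_mul, map_mul, LinearMap.add_apply, Module.End.mul_apply,
      Module.End.mul_apply, hw, map_zero, aeval_C]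
    rw [Module.algebraMap_end_apply, hp, map_zero, add_zero]
  rw [map_sub, map_pow, map_pow, aeval_X, LinearMap.sub_apply, sub_eq_zero] at hfinal
  refine ⟨l - k, by omega, ?_⟩
  have hinj : Function.Injective ((T ^ k : Module.End ℤ M)) := by
    rw [Module.End.coe_pow]; exact hT.iterate k
  apply hinj
  rw [← Module.End.mul_apply, ← pow_add]
  rw [show k + (l - k) = l by omega]
  exact hfinal

theorem pow_mul_apply_of_fix {M : Type} [AddCommGroup M] (T : Module.End ℤ M) (d m : ℕ) (w : M)
    (h : (T ^ d) w = w) : (T ^ (d * m)) w = w := by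
  induction m with
  | zero => simp
  | succ m ih =>
    rw [Nat.mul_succ, pow_add, Module.End.mul_apply, h, ih]

theorem sum_period {M : Type} [AddCommGroup M] (U : Module.End ℤ M) (d : ℕ) (w : M)
    (h : (U ^ d) w = w) (p : ℕ) :
    ∑ j ∈ Finset.range (d * p), (U ^ j) w = p • ∑ j ∈ Finset.range d, (U ^ j) w := by
  induction p with
  | zero => simp
  | succ p ih =>
    rw [Nat.mul_succ, Finset.sum_range_add, ih, succ_nsmul]
    congr 1
    refine Finset.sum_congr rfl (fun j _ => ?_)
    rw [add_comm, pow_add, Module.End.mul_apply, pow_mul_apply_of_fix U d p w h]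

theorem pow_apply_eq_add {M : Type} [AddCommGroup M] (U : Module.End ℤ M) (w v : M)
    (h : U w = w + v) (m : ℕ) : (U ^ m) w = w + ∑ j ∈ Finset.range m, (U ^ j) v := by
  induction m with
  | zero => simp
  | succ m ih =>
    rw [pow_succ, Module.End.mul_apply, h, map_add, ih, Finset.sum_range_succ]
    abel

theorem period {M : Type} [AddCommGroup M] (T : Module.End ℤ M)
    (hT : Function.Injective T) (G : ℤ[X])
    (hG : ∀ p : ℕ, p.Prime → G.map (Int.castRingHom (ZMod p)) ≠ 0) (n : ℕ) :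
    0 < n → ∀ w : M, (n : ℤ) • w = 0 → aeval T G w = 0 → ∃ d : ℕ, 0 < d ∧ (T ^ d) w = w := by
  induction n using Nat.recOnMul with
  | zero => intro h; omega
  | one =>
    intro _ w hw _
    refine ⟨1, one_pos, ?_⟩
    have : w = 0 := by simpa using hw
    rw [this, map_zero]
  | prime p hp =>
    intro _ w hw hGw
    have := Fact.mk hp
    exact period_prime T hT p G (hG p hp) w hw hGw
  | mul a b ha hb =>
    intro hab w hw hGw
    have ha0 : 0 < a := Nat.pos_of_mul_pos_right hab
    have hb0 : 0 < b := Nat.pos_of_mul_pos_left hab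
    -- `a • w` is killed by `b`
    have h1 : (b : ℤ) • ((a : ℤ) • w) = 0 := by
      rw [smul_smul]; rw [mul_comm]; exact_mod_cast hw
    have h2 : aeval T G ((a : ℤ) • w) = 0 := by rw [map_smul, hGw, smul_zero]
    obtain ⟨d1, hd1, e1⟩ := hb hb0 _ h1 h2
    set v := (T ^ d1) w - w with hv
    have h3 : (a : ℤ) • v = 0 := by
      rw [hv, smul_sub, ← map_smul, e1, sub_self]
    have h4 : aeval T G v = 0 := by
      rw [hv, map_sub, hGw, sub_zero]
      have : (aeval T G) ((T ^ d1) w) = (T ^ d1) (aeval T G w) := by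
        rw [← Module.End.mul_apply, ← Module.End.mul_apply]
        congr 1
        have hc : Commute (aeval T G : Module.End ℤ M) (T ^ d1) := by
          have : (T ^ d1 : Module.End ℤ M) = aeval T (X ^ d1 : ℤ[X]) := by simp
          rw [this]
          exact (Commute.all G (X ^ d1)).map (aeval T)
        exact hc
      rw [this, hGw, map_zero]
    obtain ⟨d2, hd2, e2⟩ := ha ha0 v h3 h4
    set U := T ^ d1 with hU
    have hUw : U w = w + v := by rw [hv]; abel
    have hUv : (U ^ d2) v = v := by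
      rw [hU, ← pow_mul, mul_comm]
      exact pow_mul_apply_of_fix T d2 d1 v e2
    refine ⟨d1 * (d2 * a), by positivity, ?_⟩
    rw [pow_mul, ← hU, pow_apply_eq_add U w v hUw, sum_period U d2 v hUv a]
    have : (a : ℕ) • ∑ j ∈ Finset.range d2, (U ^ j) v = 0 := by
      rw [Finset.smul_sum]
      refine Finset.sum_eq_zero (fun j _ => ?_)
      have : (a : ℕ) • (U ^ j) v = (U ^ j) ((a : ℤ) • v) := by
        rw [map_smul, natCast_zsmul]
      rw [this, h3, map_zero]
    rw [this, add_zero]

namespace Der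

variable {Q M : Type} [Group Q] [AddCommGroup M]

theorem π_pow (D : Der Q M) (z : Q) (k : ℕ) :
    D.π (z ^ k) = ∑ j ∈ Finset.range k, ((D.ρ z) ^ j) (D.π z) := by
  induction k with
  | zero => simp [D.map_one]
  | succ k ih =>
    rw [pow_succ, D.map_mul, ih, Finset.sum_range_succ, _root_.map_pow]

theorem ρ_injective (D : Der Q M) (z : Q) : Function.Injective (D.ρ z) := by
  intro a b h
  rw [← D.ρ_inv_apply z a, h, D.ρ_inv_apply]

/-- Every element of `Q1` whose value is a torsion element has a power with value `0`. -/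
theorem AbOn.torsion [Group.IsSolvable Q] (hr : r0 Q < ℵ₀) {D : Der Q M} {Q1 : Subgroup Q}
    [Q1.FiniteIndex] (h : D.AbOn Q1) (hs : Function.Surjective D.π) {z : Q} (hz : z ∈ Q1)
    {n : ℕ} (hn : 0 < n) (hnz : (n : ℤ) • D.π z = 0) : ∃ k : ℕ, 0 < k ∧ D.π (z ^ k) = 0 := by
  obtain ⟨i0, ι, a, hι, hι0, hkey⟩ := h.key hs hz (fun i => seqP (X - 1 : ℤ[X]) i)
  obtain ⟨A, B, hAB, hd, hrel⟩ := trick_rel (ra_Q1_lt hr Q1)
    ((aeval (D.ρ z) : ℤ[X] →ₐ[ℤ] Module.End ℤ M) : ℤ[X] →+* Module.End ℤ M) h.φ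
    (fun γ r => h.φ_comm hz γ r) (D.π z) (fun i => Abelianization.of (a i))
    (1 + (X - 1) * seqP (X - 1 : ℤ[X]) i0) (fun i => 1 + (X - 1) * seqP (X - 1 : ℤ[X]) (ι i))
    (fun i => hkey i)
  have hper := period (D.ρ z) (D.ρ_injective z) _ (fun p hp => ?_) n hn (D.π z) hnz hrel
  · obtain ⟨d, hd0, hdz⟩ := hper
    refine ⟨d * n, by positivity, ?_⟩
    rw [D.π_pow, sum_period (D.ρ z) d (D.π z) hdz n, Finset.smul_sum]
    refine Finset.sum_eq_zero (fun j _ => ?_)
    have : (n : ℕ) • (D.ρ z ^ j) (D.π z) = (D.ρ z ^ j) ((n : ℤ) • D.π z) := by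
      rw [map_smul, natCast_zsmul]
    rw [this, hnz, map_zero]
  · have := Fact.mk hp
    let F := Polynomial.mapRingHom (Int.castRingHom (ZMod p))
    have hF : ∀ P : ℤ[X], P.map (Int.castRingHom (ZMod p)) = F P := fun P => rfl
    rw [hF, map_sub, _root_.map_mul, _root_.map_mul, map_pow, map_pow]
    have hprod : ∀ c : ℕ →₀ ℕ, F (c.prod fun i n => (1 + (X - 1) * seqP (X - 1 : ℤ[X]) (ι i)) ^ n) =
        c.prod fun i n => (F (1 + (X - 1) * seqP (X - 1 : ℤ[X]) (ι i))) ^ n := by
      intro c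
      rw [map_finsuppProd]
      simp only [map_pow]
    rw [hprod, hprod]
    refine coprime_ne _ _ (fun i => ?_) (fun i j hij => ?_) (fun i => ?_) A B hAB hd
    · exact (seq_coprime _ (hι0 i)).map F
    · exact (seq_coprime _ (fun e => hij (hι e))).map F
    · obtain ⟨-, hm, hdeg⟩ := seqP_monic (ι i)
      refine Polynomial.not_isUnit_of_natDegree_pos _ ?_
      rw [← hF, hm.natDegree_map]
      exact hdeg

end Der

end Pool.TFR
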