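import Mathlib
import Pool.Agent.TFR.Tors

/-!
# The torsion-free part: `Q1` acts unipotently modulo torsion
-/

set_option autoImplicit false

namespace Pool.TFR

open Cardinal Polynomial

theorem exists_poly {M : Type} [AddCommGroup M] (hM : Module.rank ℤ M < ℵ₀)
    (T : Module.End ℤ M) (w : M) : ∃ g : ℤ[X], g ≠ 0 ∧ aeval T g w = 0 := by
  by_contra hcon
  push Not at hcon
  let L : ℤ[X] →ₗ[ℤ] M :=
    { toFun := fun g => aeval T g w
      map_add' := fun a b => by simp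
      map_smul' := fun a b => by simp }
  have hL : Function.Injective L := by
    rw [injective_iff_map_eq_zero]
    intro g hg
    by_contra hg0
    exact hcon g hg0 hg
  have h1 := LinearMap.rank_le_of_injective L hL
  have h2 : Module.rank ℤ ℤ[X] = ℵ₀ := by
    have := (Polynomial.basisMonomials ℤ).mk_eq_rank
    simpa using this.symm
  rw [h2] at h1
  exact absurd (lt_of_le_of_lt h1 hM) (lt_irrefl _)

theorem seqP_pos (t : ℤ) (ht : 1 ≤ t) (n : ℕ) : 1 ≤ seqP t n := by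
  induction n with
  | zero => exact le_rfl
  | succ n ih =>
    rw [seqP]
    nlinarith [mul_le_mul ht ih (by norm_num) (by linarith)]

namespace Der

variable {Q M : Type} [Group Q] [AddCommGroup M]

theorem AbOn.unip0 [Group.IsSolvable Q] (hr : r0 Q < ℵ₀) (hM : Module.rank ℤ M < ℵ₀)
    {D : Der Q M} {Q1 : Subgroup Q}
    [Q1.FiniteIndex] (h : D.AbOn Q1) (hs : Function.Surjective D.π) {z : Q} (hz : z ∈ Q1) :
    ∃ k n : ℕ, 0 < n ∧ (n : ℤ) • (((D.ρ z - 1) ^ k : Module.End ℤ M) (D.π z)) = 0 := by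
  obtain ⟨g, hg0, hgw⟩ := exists_poly hM (D.ρ z) (D.π z)
  obtain ⟨H, hgH, hdvd⟩ := exists_eq_pow_rootMultiplicity_mul_and_not_dvd g hg0 1
  set k := rootMultiplicity 1 g with hk
  set n := H.eval 1 with hn
  have hn0 : n ≠ 0 := fun h0 => hdvd (dvd_iff_isRoot.2 h0)
  obtain ⟨H1, hH1⟩ := X_sub_C_dvd_sub_C_eval (p := H) (a := 1)
  have hH : H = C n + (X - C 1) * H1 := by
    rw [← hH1]; ring
  set w1 := ((D.ρ z - 1) ^ k : Module.End ℤ M) (D.π z) with hw1
  have hpow : ((D.ρ z - 1) ^ k : Module.End ℤ M) = aeval (D.ρ z) ((X - 1 : ℤ[X]) ^ k) := by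
    simp
  have hHw : aeval (D.ρ z) H w1 = 0 := by
    rw [hw1, hpow, ← Module.End.mul_apply, ← _root_.map_mul]
    have : H * (X - 1) ^ k = g := by
      rw [hgH]
      simp [mul_comm]
    rw [this]; exact hgw
  by_contra hcon
  push Not at hcon
  have hnt : ∀ m : ℤ, m ≠ 0 → m • w1 ≠ 0 := by
    intro m hm h0
    refine hcon k m.natAbs (Int.natAbs_pos.2 hm) ?_
    rcases Int.natAbs_eq m with h1 | h1
    · rw [← h1]; exact h0
    · have : ((m.natAbs : ℕ) : ℤ) = -m := by omega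
      rw [this, neg_smul, h0, neg_zero]
  set t : ℤ := n * n with ht
  have ht1 : 1 ≤ t := by
    have : 0 < n * n := mul_self_pos.2 hn0
    omega
  let f : ℕ → ℤ[X] := fun i => - (C (n * seqP t i) * H1)
  obtain ⟨i0, ι, a, hι, hι0, hkey⟩ := h.key hs hz f
  have hval : ∀ i, aeval (D.ρ z) (1 + (X - 1) * f i) w1 = (1 + t * seqP t i) • w1 := by
    intro i
    have e : (1 + (X - 1) * f i : ℤ[X]) = C (1 + t * seqP t i) - C (n * seqP t i) * H := by
      simp only [f]
      rw [hH, ht]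
      simp only [C_mul, C_add, C_1]
      ring
    rw [e, map_sub, _root_.map_mul, LinearMap.sub_apply, Module.End.mul_apply, hHw, map_zero,
      sub_zero, aeval_C, Module.algebraMap_end_apply]
  have hkey1 : ∀ i, D.ρ (a i).1 ((1 + t * seqP t i0) • w1) = (1 + t * seqP t (ι i)) • w1 := by
    intro i
    rw [← hval i0, ← hval (ι i)]
    have e1 : ∀ P : ℤ[X], aeval (D.ρ z) P w1 =
        aeval (D.ρ z) ((X - 1 : ℤ[X]) ^ k) (aeval (D.ρ z) P (D.π z)) := by
      intro P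
      rw [hw1, hpow, ← Module.End.mul_apply, ← Module.End.mul_apply, ← _root_.map_mul,
        ← _root_.map_mul, mul_comm]
    rw [e1, e1, ← hkey i]
    have := h.φ_comm hz (Abelianization.of (a i)) ((X - 1 : ℤ[X]) ^ k)
    exact congrArg
      (fun F : Module.End ℤ M => F (aeval (D.ρ z) (1 + (X - 1) * f i0) (D.π z))) this
  obtain ⟨A, B, hAB, hd, hrel⟩ := trick_rel (ra_Q1_lt hr Q1)
    (algebraMap ℤ (Module.End ℤ M)) h.φ
    (fun γ r => (Algebra.commutes r (h.φ γ)).symm) w1 (fun i => Abelianization.of (a i))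
    (1 + t * seqP t i0) (fun i => 1 + t * seqP t (ι i))
    (fun i => by
      rw [Module.algebraMap_end_apply, Module.algebraMap_end_apply]
      exact hkey1 i)
  rw [Module.algebraMap_end_apply] at hrel
  refine hnt _ ?_ hrel
  refine coprime_ne _ _ (fun i => ?_) (fun i j hij => ?_) (fun i => ?_) A B hAB hd
  · exact seq_coprime _ (hι0 i)
  · exact seq_coprime _ (fun e => hij (hι e))
  · rw [Int.isUnit_iff]
    have h1 := seqP_pos t ht1 (ι i)
    have h2 : 1 ≤ t * seqP t (ι i) := by nlinarith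
    omega

/-- Every `z ∈ Q1` acts locally unipotently modulo torsion. -/
theorem AbOn.unip [Group.IsSolvable Q] (hr : r0 Q < ℵ₀) (hM : Module.rank ℤ M < ℵ₀)
    {D : Der Q M} {Q1 : Subgroup Q}
    [Q1.FiniteIndex] (h : D.AbOn Q1) (hs : Function.Surjective D.π) {z : Q} (hz : z ∈ Q1)
    (m : M) : ∃ k n : ℕ, 0 < n ∧ (n : ℤ) • (((D.ρ z - 1) ^ k : Module.End ℤ M) m) = 0 := by
  obtain ⟨k0, n0, hn0, e0⟩ := h.unip0 hr hM hs hz
  obtain ⟨k1, n1, hn1, e1⟩ := (h.shift m).unip0 hr hM (D.shift_surj hs m) hz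
  have hπ : (D.shift m).π z = D.π z + (D.ρ z - 1) m := rfl
  have hρ : (D.shift m).ρ = D.ρ := rfl
  rw [hπ, hρ] at e1
  refine ⟨k0 + k1 + 1, n0 * n1, by positivity, ?_⟩
  have e2 : ((D.ρ z - 1) ^ (k0 + k1 + 1) : Module.End ℤ M) m =
      ((D.ρ z - 1) ^ k0 : Module.End ℤ M) (((D.ρ z - 1) ^ k1 : Module.End ℤ M)
        (D.π z + (D.ρ z - 1) m)) -
      ((D.ρ z - 1) ^ k1 : Module.End ℤ M) (((D.ρ z - 1) ^ k0 : Module.End ℤ M) (D.π z)) := by
    rw [← Module.End.mul_apply, ← Module.End.mul_apply, ← pow_add, ← pow_add, map_add,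
      add_comm k1 k0, add_sub_cancel_left, ← Module.End.mul_apply, ← pow_succ]
  rw [e2, smul_sub]
  have e3 : ((n0 * n1 : ℕ) : ℤ) • ((D.ρ z - 1) ^ k0 : Module.End ℤ M)
      (((D.ρ z - 1) ^ k1 : Module.End ℤ M) (D.π z + (D.ρ z - 1) m)) = 0 := by
    rw [Nat.cast_mul, mul_smul, ← map_smul, e1, map_zero, smul_zero]
  have e4 : ((n0 * n1 : ℕ) : ℤ) • ((D.ρ z - 1) ^ k1 : Module.End ℤ M)
      (((D.ρ z - 1) ^ k0 : Module.End ℤ M) (D.π z)) = 0 := by
    rw [Nat.cast_mul, mul_comm, mul_smul, ← map_smul, e0, map_zero, smul_zero]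
  rw [e3, e4, sub_zero]

end Der

end Pool.TFR
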