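import Mathlib
import Pool.Agent.TFR.Unip

/-!
# The rank formula for surjective derivations
-/

set_option autoImplicit false

namespace Pool.TFR

open Cardinal

theorem rank_submoduleOf {M : Type} [AddCommGroup M] {W' W : Submodule ℤ M} (h : W' ≤ W) :
    Module.rank ℤ (↥W ⧸ W'.submoduleOf W) + Module.rank ℤ W' = Module.rank ℤ W := by
  rw [← rank_quotient_add_rank_of_isDomain (W'.submoduleOf W)]
  congr 1
  exact (LinearEquiv.rank_eq (Submodule.submoduleOfEquivOfLe h)).symm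

/-- submodules of the same finite rank: torsion quotient -/
theorem exists_smul_mem_of_rank_eq {M : Type} [AddCommGroup M] (hM : Module.rank ℤ M < ℵ₀)
    {W' W : Submodule ℤ M} (h : W' ≤ W) (hr : Module.rank ℤ W ≤ Module.rank ℤ W') {m : M}
    (hm : m ∈ W) : ∃ n : ℤ, n ≠ 0 ∧ n • m ∈ W' := by
  have h1 := rank_submoduleOf h
  have h2 : Module.rank ℤ W' < ℵ₀ := lt_of_le_of_lt (Submodule.rank_le W') hM
  have h3 : Module.rank ℤ (↥W ⧸ W'.submoduleOf W) = 0 := by
    have h4 : Module.rank ℤ W = Module.rank ℤ W' :=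
      le_antisymm hr (by rw [← h1]; exact self_le_add_left _ _)
    rw [h4] at h1
    have h5 : Module.rank ℤ (↥W ⧸ W'.submoduleOf W) + Module.rank ℤ W' =
        0 + Module.rank ℤ W' := by rw [h1, zero_add]
    exact Cardinal.eq_of_add_eq_add_right h5 h2
  rw [rank_eq_zero_iff] at h3
  obtain ⟨n, hn, hn'⟩ := h3 (Submodule.Quotient.mk ⟨m, hm⟩)
  refine ⟨n, hn, ?_⟩
  rw [← Submodule.Quotient.mk_smul, Submodule.Quotient.mk_eq_zero] at hn'
  exact hn'

namespace Der

variable {Q M : Type} [Group Q] [AddCommGroup M] (D : Der Q M)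

/-- invariant submodules -/
def Inv (W : Submodule ℤ M) : Prop := ∀ q, ∀ m ∈ W, D.ρ q m ∈ W

/-- the stabilizer of the block `e + W` -/
def stab {W : Submodule ℤ M} (hW : D.Inv W) : Subgroup Q where
  carrier := {q | D.π q ∈ W}
  mul_mem' := by
    intro a b ha hb
    change D.π (a * b) ∈ W
    rw [D.map_mul]
    exact W.add_mem ha (hW _ _ hb)
  one_mem' := by
    change D.π 1 ∈ W
    rw [D.map_one]; exact W.zero_mem
  inv_mem' := by
    intro a ha
    change D.π a⁻¹ ∈ W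
    rw [D.map_inv]
    exact W.neg_mem (hW _ _ ha)

theorem mem_stab {W : Submodule ℤ M} (hW : D.Inv W) {q : Q} : q ∈ D.stab hW ↔ D.π q ∈ W :=
  Iff.rfl

theorem inv_bot : D.Inv ⊥ := by
  intro q m hm
  rw [Submodule.mem_bot] at hm ⊢
  rw [hm, map_zero]

theorem inv_top : D.Inv ⊤ := fun _ _ _ => Submodule.mem_top

theorem stab_congr {W W' : Submodule ℤ M} (hW : D.Inv W) (hW' : D.Inv W') (h : W = W') :
    D.stab hW = D.stab hW' := by
  subst h; rfl

theorem stab_mono {W W' : Submodule ℤ M} (hW : D.Inv W) (hW' : D.Inv W') (h : W' ≤ W) :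
    D.stab hW' ≤ D.stab hW := fun _ hq => h hq

theorem r0_inf_eq [Group.IsSolvable Q] (Q1 P : Subgroup Q) [Q1.FiniteIndex] :
    r0 ↥(Q1 ⊓ P) = r0 P := by
  refine r0_eq_of_powers' inf_le_right (fun g hg => ?_)
  obtain ⟨n, hn, -, hgn⟩ := Subgroup.exists_pow_mem_of_index_ne_zero
    (Subgroup.FiniteIndex.index_ne_zero (H := Q1)) g
  exact ⟨n, hn, hgn, P.pow_mem hg n⟩

/-- The case of trivial action of `Q1` on `W / W'`. -/
theorem triv [Group.IsSolvable Q] (hs : Function.Surjective D.π) (Q1 : Subgroup Q)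
    [Q1.FiniteIndex] {W' W : Submodule ℤ M} (hW' : D.Inv W') (hW : D.Inv W) (hle : W' ≤ W)
    (htriv : ∀ z ∈ Q1, ∀ m ∈ W, D.ρ z m - m ∈ W') :
    r0 (D.stab hW) + Module.rank ℤ W' = r0 (D.stab hW') + Module.rank ℤ W := by
  rw [← r0_inf_eq Q1 (D.stab hW), ← r0_inf_eq Q1 (D.stab hW')]
  let θ : ↥(Q1 ⊓ D.stab hW) →* Multiplicative (↥W ⧸ W'.submoduleOf W) :=
    { toFun := fun q => Multiplicative.ofAdd (Submodule.Quotient.mk ⟨D.π q.1, q.2.2⟩)
      map_one' := by
        rw [← ofAdd_zero]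
        congr 1
        rw [Submodule.Quotient.mk_eq_zero]
        change D.π 1 ∈ W'
        rw [D.map_one]; exact W'.zero_mem
      map_mul' := by
        intro a b
        rw [← ofAdd_add]
        congr 1
        rw [← Submodule.Quotient.mk_add, Submodule.Quotient.eq]
        change D.π (a.1 * b.1) - (D.π a.1 + D.π b.1) ∈ W'
        rw [D.map_mul, add_sub_add_left_eq_sub]
        exact htriv a.1 a.2.1 _ b.2.2 }
  have e1 := r0_add_range θ
  have e2 : r0 θ.ker = r0 ↥(Q1 ⊓ D.stab hW') := by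
    refine r0_congr ?_
    have hk : ∀ x : ↥(Q1 ⊓ D.stab hW), x ∈ θ.ker ↔ D.π x.1 ∈ W' := by
      intro x
      rw [MonoidHom.mem_ker]
      change Multiplicative.ofAdd _ = Multiplicative.ofAdd 0 ↔ _
      rw [Equiv.apply_eq_iff_eq, Submodule.Quotient.mk_eq_zero]
      rfl
    exact
      { toFun := fun x => ⟨x.1.1, x.1.2.1, (hk x.1).1 x.2⟩
        invFun := fun x => ⟨⟨x.1, x.2.1, D.stab_mono hW hW' hle x.2.2⟩, (hk _).2 x.2.2⟩
        left_inv := fun x => rfl
        right_inv := fun x => rfl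
        map_mul' := fun x y => rfl }
  have e3 : r0 θ.range = Module.rank ℤ (↥W ⧸ W'.submoduleOf W) := by
    rw [r0_comm]
    refine (ra_eq_of_powers θ.range.subtype Subtype.val_injective (fun b => ?_)).trans rfl
    obtain ⟨⟨v, hv⟩, hvb⟩ := Submodule.Quotient.mk_surjective _ (Multiplicative.toAdd b)
    choose q hq using fun j : ℕ => hs ((j : ℤ) • v)
    have hfin : Finite (Q ⧸ Q1) := Subgroup.finite_quotient_of_finiteIndex
    obtain ⟨j, l, hjl, heq⟩ := Finite.exists_ne_map_eq_of_infinite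
      (fun i : ℕ => (((q i)⁻¹ : Q) : Q ⧸ Q1))
    wlog hlt : j < l generalizing j l
    · exact this l j hjl.symm heq.symm (lt_of_le_of_ne (not_lt.1 hlt) hjl.symm)
    have hmem : q l * (q j)⁻¹ ∈ Q1 := by
      have := QuotientGroup.eq.1 heq.symm
      simpa using this
    set A : Q := q l * (q j)⁻¹ with hA
    have hπA : D.π A = ((l : ℤ) - (j : ℤ)) • v - (D.ρ A ((j : ℤ) • v) - (j : ℤ) • v) := by
      have : D.π (A * q j) = D.π A + D.ρ A (D.π (q j)) := D.map_mul _ _
      have h2 : A * q j = q l := by rw [hA]; group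
      rw [h2, hq, hq] at this
      have : D.π A = (l : ℤ) • v - D.ρ A ((j : ℤ) • v) := by rw [this]; abel
      rw [this, sub_smul]; abel
    have hjW : D.ρ A ((j : ℤ) • v) - (j : ℤ) • v ∈ W' :=
      htriv A hmem _ (W.smul_mem _ hv)
    have hAW : D.π A ∈ W := by
      rw [hπA]; exact W.sub_mem (W.smul_mem _ hv) (hle hjW)
    refine ⟨l - j, by omega, ?_⟩
    rw [Subgroup.range_subtype]
    refine ⟨⟨A, hmem, hAW⟩, ?_⟩
    change Multiplicative.ofAdd _ = _
    have hb : b = Multiplicative.ofAdd (Submodule.Quotient.mk ⟨v, hv⟩) := by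
      rw [hvb]; rfl
    rw [hb, ← ofAdd_nsmul]
    congr 1
    rw [← natCast_zsmul, ← Submodule.Quotient.mk_smul, Submodule.Quotient.eq]
    change D.π A - ((l - j : ℕ) : ℤ) • v ∈ W'
    rw [hπA, Nat.cast_sub hlt.le]
    have : ((l : ℤ) - (j : ℤ)) • v - (D.ρ A ((j : ℤ) • v) - (j : ℤ) • v) -
        ((l : ℤ) - (j : ℤ)) • v = -(D.ρ A ((j : ℤ) • v) - (j : ℤ) • v) := by abel
    rw [this]
    exact W'.neg_mem hjW
  rw [e1, e2, e3, ← rank_submoduleOf hle]
  ring

end Der

end Pool.TFR
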