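import Mathlib
import Pool.Agent.TFR.Chain

/-!
# The rank formula for surjective derivations
-/

set_option autoImplicit false

namespace Pool.TFR

open Cardinal

namespace Der

variable {Q M : Type} [Group Q] [AddCommGroup M] (D : Der Q M)

/-- `W` is balanced -/
def Bal {W : Submodule ℤ M} (hW : D.Inv W) : Prop :=
  r0 (D.stab hW) = r0 (D.stab D.inv_bot) + Module.rank ℤ W

theorem Bal.up [Group.IsSolvable Q] (hM : Module.rank ℤ M < ℵ₀) {D : Der Q M}
    (hs : Function.Surjective D.π)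
    (Q1 : Subgroup Q) [Q1.FiniteIndex] {W' W : Submodule ℤ M} {hW' : D.Inv W'} (hW : D.Inv W)
    (hle : W' ≤ W) (htriv : ∀ z ∈ Q1, ∀ m ∈ W, D.ρ z m - m ∈ W') (hb : D.Bal hW') :
    D.Bal hW := by
  have h1 := D.triv hs Q1 hW' hW hle htriv
  unfold Bal at hb ⊢
  rw [hb] at h1
  have h2 : r0 (D.stab hW) + Module.rank ℤ W' =
      (r0 (D.stab D.inv_bot) + Module.rank ℤ W) + Module.rank ℤ W' := by
    rw [h1]; ring
  exact Cardinal.eq_of_add_eq_add_right h2 (lt_of_le_of_lt (Submodule.rank_le W') hM)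

/-- the torsion submodule as a `ℤ`-submodule -/
def tors (M : Type) [AddCommGroup M] : Submodule ℤ M where
  carrier := {m | ∃ n : ℕ, 0 < n ∧ (n : ℤ) • m = 0}
  zero_mem' := ⟨1, one_pos, by simp⟩
  add_mem' := by
    rintro a b ⟨n, hn, ha⟩ ⟨k, hk, hb⟩
    refine ⟨n * k, by positivity, ?_⟩
    rw [smul_add, Nat.cast_mul, mul_smul, mul_smul, hb, smul_zero, add_zero, smul_comm, ha,
      smul_zero]
  smul_mem' := by
    rintro c a ⟨n, hn, ha⟩
    exact ⟨n, hn, by rw [smul_comm, ha, smul_zero]⟩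

theorem inv_tors : D.Inv (tors M) := by
  rintro q m ⟨n, hn, hm⟩
  exact ⟨n, hn, by rw [← map_smul, hm, map_zero]⟩

theorem rank_tors : Module.rank ℤ (tors M) = 0 := by
  rw [rank_eq_zero_iff]
  rintro ⟨m, n, hn, hm⟩
  refine ⟨(n : ℤ), by exact_mod_cast hn.ne', ?_⟩
  exact Subtype.ext hm

theorem bal_tors [Group.IsSolvable Q] (hr : r0 Q < ℵ₀) {D : Der Q M} {Q1 : Subgroup Q}
    [Q1.FiniteIndex] (h : D.AbOn Q1) (hs : Function.Surjective D.π) : D.Bal D.inv_tors := by
  unfold Bal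
  rw [rank_tors, add_zero]
  symm
  refine r0_eq_of_powers' (D.stab_mono _ _ bot_le) (fun g hg => ?_)
  obtain ⟨j, hj, -, hgj⟩ := Subgroup.exists_pow_mem_of_index_ne_zero
    (Subgroup.FiniteIndex.index_ne_zero (H := Q1)) g
  obtain ⟨n, hn, hn'⟩ : D.π (g ^ j) ∈ tors M := (D.stab D.inv_tors).pow_mem hg j
  obtain ⟨k, hk, hk'⟩ := h.torsion hr hs hgj hn hn'
  refine ⟨j * k, Nat.mul_pos hj hk, ?_⟩
  rw [pow_mul]
  change D.π _ ∈ (⊥ : Submodule ℤ M)
  rw [hk']
  exact Submodule.zero_mem _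

/-- Existence of fixed vectors modulo a pure invariant submodule. -/
theorem exists_fixed [Group.IsSolvable Q] (hr : r0 Q < ℵ₀) (hM : Module.rank ℤ M < ℵ₀)
    {D : Der Q M} {Q1 : Subgroup Q} [Q1.FiniteIndex] (h : D.AbOn Q1)
    (hs : Function.Surjective D.π) {W : Submodule ℤ M} (hW : D.Inv W)
    (hpure : ∀ n : ℤ, n ≠ 0 → ∀ m, n • m ∈ W → m ∈ W) (hne : W ≠ ⊤) :
    ∃ m, m ∉ W ∧ ∀ z ∈ Q1, D.ρ z m - m ∈ W := by
  classical
  let P : ℕ → Prop := fun d => ∃ S : Submodule ℤ M, (∀ z ∈ Q1, ∀ s ∈ S, D.ρ z s ∈ S) ∧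
    (∃ s ∈ S, s ∉ W) ∧ Cardinal.toNat (Module.rank ℤ S) = d
  have hP : ∃ d, P d := by
    refine ⟨_, ⊤, fun _ _ _ _ => Submodule.mem_top, ?_, rfl⟩
    by_contra hcon
    push Not at hcon
    exact hne (eq_top_iff.2 (fun x _ => hcon x Submodule.mem_top))
  obtain ⟨S, hS, ⟨s, hsS, hsW⟩, hd⟩ := Nat.find_spec hP
  have hmin : ∀ S' : Submodule ℤ M, (∀ z ∈ Q1, ∀ s ∈ S', D.ρ z s ∈ S') →
      (∃ s ∈ S', s ∉ W) → Module.rank ℤ S ≤ Module.rank ℤ S' := by
    intro S' h1 h2
    have h3 := Nat.find_min' hP ⟨S', h1, h2, rfl⟩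
    rw [← hd] at h3
    have f1 : Module.rank ℤ S < ℵ₀ := lt_of_le_of_lt (Submodule.rank_le S) hM
    have f2 : Module.rank ℤ S' < ℵ₀ := lt_of_le_of_lt (Submodule.rank_le S') hM
    exact (Cardinal.toNat_le_iff_le_of_lt_aleph0 f1 f2).1 h3
  refine ⟨s, hsW, fun z hz => ?_⟩
  -- the submodule of `S` fixed by `z` modulo `W`
  let Sz : Submodule ℤ M := S ⊓ W.comap (D.ρ z - 1)
  have hSz : ∀ y ∈ Q1, ∀ s ∈ Sz, D.ρ y s ∈ Sz := by
    rintro y hy t ⟨ht1, ht2⟩
    refine ⟨hS y hy t ht1, ?_⟩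
    change (D.ρ z - 1) (D.ρ y t) ∈ W
    have e : (D.ρ z - 1) (D.ρ y t) = D.ρ y ((D.ρ z - 1) t) := by
      have := (h.comm hy hz).1
      rw [← Module.End.mul_apply, ← Module.End.mul_apply, sub_mul, mul_sub, this, one_mul,
        mul_one]
    rw [e]
    exact hW _ _ ht2
  have hSz' : ∃ t ∈ Sz, t ∉ W := by
    obtain ⟨k, n, hn, hk⟩ := h.unip hr hM hs hz s
    have hk' : ((D.ρ z - 1) ^ k : Module.End ℤ M) s ∈ W := by
      refine hpure n (by exact_mod_cast hn.ne') _ ?_
      rw [hk]; exact W.zero_mem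
    let R : ℕ → Prop := fun k => ((D.ρ z - 1) ^ k : Module.End ℤ M) s ∈ W
    have hR : ∃ k, R k := ⟨k, hk'⟩
    have hpos : Nat.find hR ≠ 0 := by
      intro h0
      have := Nat.find_spec hR
      rw [h0] at this
      exact hsW (by simpa [R] using this)
    obtain ⟨m, hm⟩ := Nat.exists_eq_succ_of_ne_zero hpos
    have hnot : ¬ R m := Nat.find_min hR (by omega)
    have hyes : R (m + 1) := by
      have := Nat.find_spec hR
      rwa [hm] at this
    refine ⟨((D.ρ z - 1) ^ m : Module.End ℤ M) s, ⟨?_, ?_⟩, hnot⟩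
    · clear hnot hyes hm
      induction m with
      | zero => simpa using hsS
      | succ m ih =>
        rw [pow_succ', Module.End.mul_apply]
        exact S.sub_mem (hS z hz _ ih) ih
    · change (D.ρ z - 1) (((D.ρ z - 1) ^ m : Module.End ℤ M) s) ∈ W
      rw [← Module.End.mul_apply, ← pow_succ']
      exact hyes
  have hrk := hmin Sz hSz hSz'
  obtain ⟨n, hn, hns⟩ := exists_smul_mem_of_rank_eq hM (W' := Sz) (W := S) inf_le_left hrk hsS
  have h2 : (D.ρ z - 1) (n • s) ∈ W := hns.2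
  rw [map_smul] at h2
  exact hpure n hn _ h2

/-- Balance for the whole module, when commutators of `Q1` act trivially with value zero. -/
theorem bal_top [Group.IsSolvable Q] (hr : r0 Q < ℵ₀) (hM : Module.rank ℤ M < ℵ₀)
    {D : Der Q M} {Q1 : Subgroup Q} [Q1.FiniteIndex] [Q1.Normal] (h : D.AbOn Q1)
    (hs : Function.Surjective D.π) : D.Bal D.inv_top := by
  classical
  let P : ℕ → Prop := fun d => ∃ (W : Submodule ℤ M) (hW : D.Inv W),
    (∀ n : ℤ, n ≠ 0 → ∀ m, n • m ∈ W → m ∈ W) ∧ D.Bal hW ∧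
      Cardinal.toNat (Module.rank ℤ M) - Cardinal.toNat (Module.rank ℤ W) = d
  have hP : ∃ d, P d := by
    refine ⟨_, tors M, D.inv_tors, ?_, bal_tors hr h hs, rfl⟩
    rintro n hn m ⟨k, hk, hkm⟩
    refine ⟨k * n.natAbs, Nat.mul_pos hk (Int.natAbs_pos.2 hn), ?_⟩
    rcases Int.natAbs_eq n with h1 | h1
    · rw [Nat.cast_mul, ← h1, mul_smul]; exact hkm
    · have : ((n.natAbs : ℕ) : ℤ) = -n := by omega
      rw [Nat.cast_mul, this, mul_smul, neg_smul, smul_neg, hkm, neg_zero]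
  obtain ⟨W, hW, hpure, hbal, hd⟩ := Nat.find_spec hP
  by_cases hne : W = ⊤
  · subst hne; exact hbal
  exfalso
  obtain ⟨m, hmW, hm⟩ := exists_fixed hr hM h hs hW hpure hne
  let W2 : Submodule ℤ M :=
    { carrier := {m | ∀ z ∈ Q1, D.ρ z m - m ∈ W}
      zero_mem' := by intro z _; rw [map_zero, sub_zero]; exact W.zero_mem
      add_mem' := by
        intro a b ha hb z hz
        rw [map_add, add_sub_add_comm]
        exact W.add_mem (ha z hz) (hb z hz)
      smul_mem' := by
        intro c a ha z hz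
        rw [map_smul, ← smul_sub]
        exact W.smul_mem _ (ha z hz) }
  have hle : W ≤ W2 := fun x hx z _ => W.sub_mem (hW _ _ hx) hx
  have hW2 : D.Inv W2 := by
    intro q x hx z hz
    have hc : q⁻¹ * z * q ∈ Q1 := by
      have := Subgroup.Normal.conj_mem (H := Q1) inferInstance z hz q⁻¹
      simpa using this
    have e : D.ρ z (D.ρ q x) - D.ρ q x = D.ρ q (D.ρ (q⁻¹ * z * q) x - x) := by
      rw [map_sub, ← Module.End.mul_apply, ← Module.End.mul_apply, ← _root_.map_mul,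
        ← _root_.map_mul]
      congr 3
      group
    rw [e]
    exact hW _ _ (hx _ hc)
  have hpure2 : ∀ n : ℤ, n ≠ 0 → ∀ m, n • m ∈ W2 → m ∈ W2 := by
    intro n hn x hx z hz
    refine hpure n hn _ ?_
    rw [smul_sub, ← map_smul]
    exact hx z hz
  have hbal2 : D.Bal hW2 := Bal.up hM hs Q1 hW2 hle (fun z hz x hx => hx z hz) hbal
  have f0 := hM
  have f1 : Module.rank ℤ W < ℵ₀ := lt_of_le_of_lt (Submodule.rank_le W) hM
  have f2 : Module.rank ℤ W2 < ℵ₀ := lt_of_le_of_lt (Submodule.rank_le W2) hM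
  have hlt : Module.rank ℤ W < Module.rank ℤ W2 := by
    by_contra hcon
    rw [not_lt] at hcon
    obtain ⟨n, hn, hnm⟩ := exists_smul_mem_of_rank_eq hM hle hcon (m := m) hm
    exact hmW (hpure n hn m hnm)
  have g1 : Cardinal.toNat (Module.rank ℤ W) < Cardinal.toNat (Module.rank ℤ W2) :=
    (Cardinal.toNat_lt_iff_lt_of_lt_aleph0 f1 f2).2 hlt
  have g2 : Cardinal.toNat (Module.rank ℤ W2) ≤ Cardinal.toNat (Module.rank ℤ M) :=
    (Cardinal.toNat_le_iff_le_of_lt_aleph0 f2 f0).2 (Submodule.rank_le W2)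
  have h3 := Nat.find_min' hP ⟨W2, hW2, hpure2, hbal2, rfl⟩
  rw [← hd] at h3
  omega

theorem formula_aux [Group.IsSolvable Q] (hr : r0 Q < ℵ₀) (hM : Module.rank ℤ M < ℵ₀)
    {D : Der Q M} {Q1 : Subgroup Q} [Q1.FiniteIndex] [Q1.Normal] (h : D.AbOn Q1)
    (hs : Function.Surjective D.π) :
    r0 Q = r0 (D.stab D.inv_bot) + Module.rank ℤ M := by
  have h1 := bal_top hr hM h hs
  unfold Bal at h1
  have h2 : D.stab D.inv_top = ⊤ := by
    ext x; simp [D.mem_stab]
  rw [h2, rank_top] at h1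
  rw [← h1]
  exact r0_congr Subgroup.topEquiv.symm

/-- The values on the kernel of the action. -/
def kerVal : Submodule ℤ M where
  carrier := {m | ∃ c, D.ρ c = 1 ∧ D.π c = m}
  zero_mem' := ⟨1, _root_.map_one _, D.map_one⟩
  add_mem' := by
    rintro _ _ ⟨c, hc, rfl⟩ ⟨d, hd, rfl⟩
    refine ⟨c * d, by rw [_root_.map_mul, hc, hd, one_mul], ?_⟩
    rw [D.map_mul, hc]; rfl
  smul_mem' := by
    have hpow : ∀ (c : Q), D.ρ c = 1 → ∀ n : ℤ, D.ρ (c ^ n) = 1 ∧ D.π (c ^ n) = n • D.π c := by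
      intro c hc n
      have hinv : D.ρ c⁻¹ = 1 := by
        have : D.ρ c⁻¹ * D.ρ c = 1 := by rw [← _root_.map_mul, inv_mul_cancel, _root_.map_one]
        rwa [hc, mul_one] at this
      induction n using Int.induction_on with
      | zero => simp [D.map_one]
      | succ i ih =>
        rw [zpow_add_one, _root_.map_mul, ih.1, hc, D.map_mul, ih.1, ih.2, add_smul, one_smul]
        exact ⟨one_mul _, rfl⟩
      | pred i ih =>
        rw [zpow_sub_one, _root_.map_mul, ih.1, hinv, D.map_mul, ih.1, ih.2, sub_smul, one_smul,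
          D.map_inv, hinv]
        refine ⟨one_mul _, ?_⟩
        simp [sub_eq_add_neg]
    rintro n _ ⟨c, hc, rfl⟩
    exact ⟨c ^ n, (hpow c hc n).1, (hpow c hc n).2⟩

theorem inv_kerVal : D.Inv D.kerVal := by
  rintro q _ ⟨c, hc, rfl⟩
  refine ⟨q * c * q⁻¹, ?_, ?_⟩
  · rw [_root_.map_mul, _root_.map_mul, hc, mul_one, ← _root_.map_mul, mul_inv_cancel,
      _root_.map_one]
  · rw [D.map_mul, D.map_mul, D.map_inv, _root_.map_mul, hc, mul_one, map_neg, D.ρ_apply_inv]
    abel

/-- the induced derivation on a quotient -/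
def quot {W : Submodule ℤ M} (hW : D.Inv W) : Der Q (M ⧸ W) where
  ρ :=
    { toFun := fun q => W.mapQ W (D.ρ q) (hW q)
      map_one' := by
        ext x
        change Submodule.Quotient.mk (D.ρ 1 x) = Submodule.Quotient.mk x
        rw [_root_.map_one]; rfl
      map_mul' := by
        intro a b
        ext x
        change Submodule.Quotient.mk (D.ρ (a * b) x) = Submodule.Quotient.mk (D.ρ a (D.ρ b x))
        rw [_root_.map_mul]; rfl }
  π := fun q => Submodule.Quotient.mk (D.π q)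
  map_mul := by
    intro a b
    change Submodule.Quotient.mk (D.π (a * b)) =
      Submodule.Quotient.mk (D.π a) + Submodule.Quotient.mk (D.ρ a (D.π b))
    rw [D.map_mul, Submodule.Quotient.mk_add]

/-- The stabilizer of `e + π(C)`, `C` the kernel of the action. -/
theorem r0_stab_kerVal [Group.IsSolvable Q] :
    r0 (D.stab D.inv_kerVal) = r0 (D.stab D.inv_bot) + Module.rank ℤ D.kerVal := by
  set W := D.kerVal with hWdef
  have hW : D.Inv W := D.inv_kerVal
  -- the kernel `C` of the action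
  let C : Subgroup Q := D.ρ.ker
  have hC : ∀ c, c ∈ C ↔ D.ρ c = 1 := fun c => MonoidHom.mem_ker
  let K : Subgroup Q := D.stab D.inv_bot
  let P : Subgroup Q := D.stab hW
  have hK : ∀ q, q ∈ K ↔ D.π q = 0 := fun q => Submodule.mem_bot ℤ
  let F : Q →* Q ⧸ C := QuotientGroup.mk' C
  have hCP : C ≤ P := fun c hc => ⟨c, (hC c).1 hc, rfl⟩
  have a1 : r0 P = r0 C + r0 ↥(P.map F) := by
    have := r0_add (F.subgroupMap P) (F.subgroupMap_surjective P)
    rw [this]
    congr 1
    refine r0_congr ?_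
    exact
      { toFun := fun x => ⟨x.1.1, by
          have : F x.1.1 = 1 := congrArg Subtype.val x.2
          exact (QuotientGroup.eq_one_iff _).1 this⟩
        invFun := fun x => ⟨⟨x.1, hCP x.2⟩, Subtype.ext ((QuotientGroup.eq_one_iff _).2 x.2)⟩
        left_inv := fun x => rfl
        right_inv := fun x => rfl
        map_mul' := fun x y => rfl }
  have a2 : r0 K = r0 ↥(C ⊓ K) + r0 ↥(K.map F) := by
    have := r0_add (F.subgroupMap K) (F.subgroupMap_surjective K)
    rw [this]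
    congr 1
    refine r0_congr ?_
    exact
      { toFun := fun x => ⟨x.1.1, by
          have : F x.1.1 = 1 := congrArg Subtype.val x.2
          exact (QuotientGroup.eq_one_iff _).1 this, x.1.2⟩
        invFun := fun x => ⟨⟨x.1, x.2.2⟩, Subtype.ext ((QuotientGroup.eq_one_iff _).2 x.2.1)⟩
        left_inv := fun x => rfl
        right_inv := fun x => rfl
        map_mul' := fun x y => rfl }
  have a3 : P.map F = K.map F := by
    ext y
    constructor
    · rintro ⟨q, ⟨c, hc, hcq⟩, rfl⟩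
      refine ⟨c⁻¹ * q, ?_, ?_⟩
      · change D.π (c⁻¹ * q) ∈ (⊥ : Submodule ℤ M)
        rw [Submodule.mem_bot, D.map_mul, D.map_inv, hcq]; abel
      · rw [_root_.map_mul]
        have : F c⁻¹ = 1 := (QuotientGroup.eq_one_iff _).2 (C.inv_mem ((hC c).2 hc))
        rw [this, one_mul]
    · rintro ⟨q, hq, rfl⟩
      refine ⟨q, ?_, rfl⟩
      change D.π q ∈ W
      rw [(hK q).1 hq]; exact W.zero_mem
  have a4 : r0 C = r0 ↥(C ⊓ K) + Module.rank ℤ W := by
    let θ : C →* Multiplicative W :=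
      { toFun := fun c => Multiplicative.ofAdd ⟨D.π c.1, c.1, (hC _).1 c.2, rfl⟩
        map_one' := by
          rw [← ofAdd_zero]
          congr 1
          exact Subtype.ext D.map_one
        map_mul' := by
          intro a b
          rw [← ofAdd_add]
          congr 1
          refine Subtype.ext ?_
          change D.π (a.1 * b.1) = D.π a.1 + D.π b.1
          rw [D.map_mul, (hC _).1 a.2]; rfl }
    have hθ : Function.Surjective θ := by
      intro y
      obtain ⟨c, hc, hcy⟩ := (Multiplicative.toAdd y).2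
      refine ⟨⟨c, (hC c).2 hc⟩, ?_⟩
      change Multiplicative.ofAdd _ = y
      rw [← ofAdd_toAdd y]
      congr 1
      exact Subtype.ext hcy
    have := r0_add θ hθ
    rw [this]
    congr 1
    · refine r0_congr ?_
      have hk : ∀ x : C, x ∈ θ.ker ↔ D.π x.1 = 0 := by
        intro x
        rw [MonoidHom.mem_ker]
        change Multiplicative.ofAdd _ = Multiplicative.ofAdd 0 ↔ _
        rw [Equiv.apply_eq_iff_eq]
        exact Subtype.ext_iff
      exact
        { toFun := fun x => ⟨x.1.1, x.1.2, (hK _).2 ((hk x.1).1 x.2)⟩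
          invFun := fun x => ⟨⟨x.1, x.2.1⟩, (hk _).2 ((hK _).1 x.2.2)⟩
          left_inv := fun x => rfl
          right_inv := fun x => rfl
          map_mul' := fun x y => rfl }
    · rw [r0_comm]; rfl
  have a5 : r0 P = r0 K + Module.rank ℤ W := by
    rw [a1, a2, a3, a4]; ring
  exact a5

/-- **The rank formula** for a surjective derivation of a soluble group of finite rank onto a
module of finite rank on which the group acts through an abelian-by-finite group. -/
theorem formula [Group.IsSolvable Q] (hr : r0 Q < ℵ₀) (hM : Module.rank ℤ M < ℵ₀)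
    (Q1 : Subgroup Q) [Q1.FiniteIndex] [Q1.Normal] (h : ∀ x ∈ ⁅Q1, Q1⁆, D.ρ x = 1)
    (hs : Function.Surjective D.π) :
    r0 Q = r0 (D.stab D.inv_bot) + Module.rank ℤ M := by
  have a5 := D.r0_stab_kerVal
  set W := D.kerVal with hWdef
  have hW : D.Inv W := D.inv_kerVal
  -- the formula for the quotient
  have hq : (D.quot hW).AbOn Q1 := by
    intro x hx
    constructor
    · change W.mapQ W (D.ρ x) (hW x) = 1
      ext y
      change Submodule.Quotient.mk (D.ρ x y) = Submodule.Quotient.mk y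
      rw [h x hx]; rfl
    · change Submodule.Quotient.mk (D.π x) = 0
      rw [Submodule.Quotient.mk_eq_zero]
      exact ⟨x, h x hx, rfl⟩
  have hqs : Function.Surjective (D.quot hW).π := by
    intro y
    obtain ⟨m, rfl⟩ := Submodule.Quotient.mk_surjective W y
    obtain ⟨q, rfl⟩ := hs m
    exact ⟨q, rfl⟩
  have hMW : Module.rank ℤ (M ⧸ W) < ℵ₀ :=
    lt_of_le_of_lt (by
      rw [← rank_quotient_add_rank_of_isDomain W]; exact self_le_add_right _ _) hM
  have e1 := formula_aux hr hMW hq hqs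
  have e2 : (D.quot hW).stab (D.quot hW).inv_bot = D.stab hW := by
    ext x
    change Submodule.Quotient.mk (D.π x) ∈ (⊥ : Submodule ℤ (M ⧸ W)) ↔ D.π x ∈ W
    rw [Submodule.mem_bot, Submodule.Quotient.mk_eq_zero]
  rw [e2] at e1
  have a6 := rank_quotient_add_rank_of_isDomain W
  rw [e1]
  change r0 (D.stab hW) + _ = _
  rw [a5, ← a6]
  ring

end Der

end Pool.TFR
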