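import Mathlib
import Pool.Agent.TFR.Der

/-!
# The line trick: elements acting by independent scalars on one line force infinite rank
-/

set_option autoImplicit false

namespace Pool.TFR

open Cardinal Polynomial

section

variable {Q M R k : Type} [Group Q] [AddCommGroup M] [CommRing R] [CommRing k] [IsDomain k]
  (κ : R →+* k) (ψ : R →+* Module.End ℤ M) (ρ : Q →* Module.End ℤ M) (P : Subgroup Q) (v : M)

/-- `q` acts on `v` as the fraction `t / s` -/
def Rel (q : Q) (s t : R) : Prop :=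
  q ∈ P ∧ ρ q (ψ s v) = ψ t v ∧ κ s ≠ 0 ∧ κ t ≠ 0

variable {κ ψ ρ P v}

theorem Rel.mul (hP : ∀ q ∈ P, ∀ r, ρ q * ψ r = ψ r * ρ q) {q q' : Q} {s t s' t' : R}
    (h : Rel κ ψ ρ P v q s t) (h' : Rel κ ψ ρ P v q' s' t') :
    Rel κ ψ ρ P v (q * q') (s * s') (t * t') := by
  obtain ⟨h1, h2, h3, h4⟩ := h
  obtain ⟨h1', h2', h3', h4'⟩ := h'
  refine ⟨P.mul_mem h1 h1', ?_, ?_, ?_⟩
  · have c1 : ∀ m, ρ q' (ψ s m) = ψ s (ρ q' m) := fun m =>
      congrArg (fun f : Module.End ℤ M => f m) (hP q' h1' s)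
    have c2 : ∀ m, ρ q (ψ t' m) = ψ t' (ρ q m) := fun m =>
      congrArg (fun f : Module.End ℤ M => f m) (hP q h1 t')
    have c3 : ∀ (a b : R) (m : M), ψ a (ψ b m) = ψ b (ψ a m) := by
      intro a b m
      rw [← Module.End.mul_apply, ← Module.End.mul_apply, ← map_mul, ← map_mul, mul_comm]
    rw [map_mul, map_mul, map_mul, Module.End.mul_apply, Module.End.mul_apply,
      Module.End.mul_apply, c1, h2', c3 s t', c2, h2, c3]
  · rw [map_mul]; exact mul_ne_zero h3 h3'
  · rw [map_mul]; exact mul_ne_zero h4 h4'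

omit [IsDomain k] in
theorem Rel.inv {q : Q} {s t : R} (h : Rel κ ψ ρ P v q s t) : Rel κ ψ ρ P v q⁻¹ t s := by
  obtain ⟨h1, h2, h3, h4⟩ := h
  refine ⟨P.inv_mem h1, ?_, h4, h3⟩
  rw [← h2, ← Module.End.mul_apply, ← map_mul, inv_mul_cancel, map_one]
  rfl

omit [IsDomain k] in
theorem Rel.unique (hP : ∀ q ∈ P, ∀ r, ρ q * ψ r = ψ r * ρ q)
    (hv : ∀ s, ψ s v = 0 → κ s = 0) {q : Q} {s t s' t' : R}
    (h : Rel κ ψ ρ P v q s t) (h' : Rel κ ψ ρ P v q s' t') : κ s' * κ t = κ s * κ t' := by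
  obtain ⟨h1, h2, -, -⟩ := h
  obtain ⟨-, h2', -, -⟩ := h'
  have c2 : ∀ (r : R) m, ρ q (ψ r m) = ψ r (ρ q m) := fun r m =>
    congrArg (fun f : Module.End ℤ M => f m) (hP q h1 r)
  have e : ψ (s' * t - s * t') v = 0 := by
    rw [map_sub, LinearMap.sub_apply, map_mul, map_mul, Module.End.mul_apply,
      Module.End.mul_apply, ← h2, ← h2', ← c2, ← c2, ← Module.End.mul_apply (ψ s'),
      ← Module.End.mul_apply (ψ s), ← map_mul, ← map_mul, mul_comm s' s, sub_self]
  have := hv _ e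
  rw [map_sub, map_mul, map_mul, sub_eq_zero] at this
  exact this

variable (κ ψ ρ P v)

/-- the subgroup acting on the line -/
def lineStab (hP : ∀ q ∈ P, ∀ r, ρ q * ψ r = ψ r * ρ q) : Subgroup Q where
  carrier := {q | ∃ s t, Rel κ ψ ρ P v q s t}
  mul_mem' := by
    rintro a b ⟨s, t, h⟩ ⟨s', t', h'⟩
    exact ⟨_, _, h.mul hP h'⟩
  one_mem' := ⟨1, 1, P.one_mem, by simp, by simp, by simp⟩
  inv_mem' := by
    rintro a ⟨s, t, h⟩
    exact ⟨_, _, h.inv⟩

end

section

variable {Q M R k : Type} [Group Q] [AddCommGroup M] [CommRing R] [CommRing k] [IsDomain k]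
  {κ : R →+* k} {ψ : R →+* Module.End ℤ M} {ρ : Q →* Module.End ℤ M} {P : Subgroup Q} {v : M}

/-- the fraction as a unit of the fraction field -/
noncomputable def frac (s t : k) (hs : s ≠ 0) (ht : t ≠ 0) : (FractionRing k)ˣ :=
  Units.mk0 (algebraMap k (FractionRing k) t / algebraMap k (FractionRing k) s)
    (div_ne_zero
      (fun h => ht ((IsFractionRing.injective k (FractionRing k)) (by rw [h, map_zero])))
      (fun h => hs ((IsFractionRing.injective k (FractionRing k)) (by rw [h, map_zero]))))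

theorem exists_lineHom (hP : ∀ q ∈ P, ∀ r, ρ q * ψ r = ψ r * ρ q)
    (hv : ∀ s, ψ s v = 0 → κ s = 0) :
    ∃ l : ↥(lineStab κ ψ ρ P v hP) →* (FractionRing k)ˣ,
      ∀ (q : ↥(lineStab κ ψ ρ P v hP)) (s t : R), Rel κ ψ ρ P v q.1 s t →
        ((l q : (FractionRing k)ˣ) : FractionRing k) =
          algebraMap k (FractionRing k) (κ t) / algebraMap k (FractionRing k) (κ s) := by
  classical
  have hne : ∀ x : k, x ≠ 0 → algebraMap k (FractionRing k) x ≠ 0 := fun x hx h =>
    hx ((IsFractionRing.injective k (FractionRing k)) (by rw [h, map_zero]))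
  choose s t hst using fun q : ↥(lineStab κ ψ ρ P v hP) => q.2
  have key : ∀ (q : ↥(lineStab κ ψ ρ P v hP)) (a b : R), Rel κ ψ ρ P v q.1 a b →
      algebraMap k (FractionRing k) (κ (t q)) / algebraMap k (FractionRing k) (κ (s q)) =
      algebraMap k (FractionRing k) (κ b) / algebraMap k (FractionRing k) (κ a) := by
    intro q a b hab
    have h := congrArg (algebraMap k (FractionRing k)) ((hst q).unique hP hv hab)
    rw [map_mul, map_mul] at h
    rw [div_eq_div_iff (hne _ (hst q).2.2.1) (hne _ hab.2.2.1)]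
    linear_combination h
  refine ⟨MonoidHom.mk' (fun q => frac (κ (s q)) (κ (t q)) (hst q).2.2.1 (hst q).2.2.2) ?_, ?_⟩
  · intro a b
    refine Units.ext ?_
    have h := key (a * b) _ _ ((hst a).mul hP (hst b))
    change algebraMap k (FractionRing k) (κ (t (a * b))) /
      algebraMap k (FractionRing k) (κ (s (a * b))) =
      (algebraMap k (FractionRing k) (κ (t a)) / algebraMap k (FractionRing k) (κ (s a))) *
      (algebraMap k (FractionRing k) (κ (t b)) / algebraMap k (FractionRing k) (κ (s b)))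
    rw [h, map_mul, map_mul, map_mul, map_mul, mul_div_mul_comm]
  · intro q a b hab
    exact key q a b hab

theorem line_trick [Group.IsSolvable Q] (hr : r0 Q < ℵ₀)
    (hP : ∀ q ∈ P, ∀ r, ρ q * ψ r = ψ r * ρ q) (hv : ∀ s, ψ s v = 0 → κ s = 0)
    (g0 : R) (g : ℕ → R) (a : ℕ → Q) (ha : ∀ i, a i ∈ P)
    (hag : ∀ i, ρ (a i) (ψ g0 v) = ψ (g i) v) (h0 : κ g0 ≠ 0) (hg : ∀ i, κ (g i) ≠ 0)
    (hc0 : ∀ i, IsCoprime (κ (g i)) (κ g0))
    (hc : ∀ i j, i ≠ j → IsCoprime (κ (g i)) (κ (g j)))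
    (hu : ∀ i, ¬ IsUnit (κ (g i))) : False := by
  obtain ⟨l, hl⟩ := exists_lineHom (κ := κ) (ψ := ψ) (ρ := ρ) (P := P) (v := v) hP hv
  have hmem : ∀ i, Rel κ ψ ρ P v (a i) g0 (g i) := fun i => ⟨ha i, hag i, h0, hg i⟩
  let b : ℕ → ↥(lineStab κ ψ ρ P v hP) := fun i => ⟨a i, g0, g i, hmem i⟩
  have hrange : ra ↥l.range < ℵ₀ := by
    rw [← r0_comm]
    refine lt_of_le_of_lt ?_ hr
    exact (r0_le_of_surjective l.rangeRestrict l.rangeRestrict_surjective).trans
      (r0_subgroup_le _)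
  obtain ⟨A, B, hAB, hd, hrel⟩ := exists_relation hrange (fun i => l.rangeRestrict (b i))
  have hne : ∀ x : k, x ≠ 0 → algebraMap k (FractionRing k) x ≠ 0 := fun x hx h =>
    hx ((IsFractionRing.injective k (FractionRing k)) (by rw [h, map_zero]))
  have hval : ∀ C : ℕ →₀ ℕ, (((C.prod (fun i n => l.rangeRestrict (b i) ^ n) : ↥l.range) :
      (FractionRing k)ˣ) : FractionRing k) =
      algebraMap k (FractionRing k) (C.prod (fun i n => κ (g i) ^ n)) /
        algebraMap k (FractionRing k) (κ g0 ^ (C.sum fun _ n => n)) := by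
    intro C
    unfold Finsupp.prod Finsupp.sum
    rw [Subgroup.val_finsetProd, Units.coe_prod, map_prod, ← Finset.prod_pow_eq_pow_sum,
      map_prod, ← Finset.prod_div_distrib]
    refine Finset.prod_congr rfl (fun i _ => ?_)
    have := hl (b i) _ _ (hmem i)
    rw [Subgroup.coe_pow, Units.val_pow_eq_pow_val, map_pow, map_pow, ← div_pow]
    congr 1
  have heq := congrArg (fun x : ↥l.range => ((x : (FractionRing k)ˣ) : FractionRing k)) hrel
  simp only [hval] at heq
  rw [div_eq_div_iff (hne _ (pow_ne_zero _ h0)) (hne _ (pow_ne_zero _ h0)), ← map_mul,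
    ← map_mul] at heq
  have heq' := IsFractionRing.injective k (FractionRing k) heq
  refine coprime_ne (κ g0) (fun i => κ (g i)) hc0 hc hu A B hAB hd ?_
  rw [sub_eq_zero, mul_comm, heq', mul_comm]

end

end Pool.TFR
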