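import Mathlib
import Pool.Agent.TFR.Line
import Pool.Agent.TFR.Formula

/-!
# The torsion case, element by element
-/

set_option autoImplicit false

namespace Pool.TFR

open Cardinal Polynomial

theorem aeval_comm_apply {M : Type} [AddCommGroup M] (T : Module.End ℤ M) (f g : ℤ[X]) (m : M) :
    aeval T f (aeval T g m) = aeval T g (aeval T f m) := by
  rw [← Module.End.mul_apply, ← Module.End.mul_apply, ← map_mul, ← map_mul, mul_comm]

theorem period' {M : Type} [AddCommGroup M] (T : Module.End ℤ M) (n : ℕ) :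
    0 < n → ∀ w : M, (n : ℤ) • w = 0 →
      (∀ p : ℕ, p.Prime → ∀ h : ℤ[X], (p : ℤ) • aeval T h w = 0 →
        ∃ d : ℕ, 0 < d ∧ (T ^ d) (aeval T h w) = aeval T h w) →
      ∃ d : ℕ, 0 < d ∧ (T ^ d) w = w := by
  induction n using Nat.recOnMul with
  | zero => intro h; omega
  | one =>
    intro _ w hw _
    refine ⟨1, one_pos, ?_⟩
    have : w = 0 := by simpa using hw
    rw [this, map_zero]
  | prime p hp =>
    intro _ w hw hG
    have := hG p hp 1 (by simpa using hw)
    simpa using this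
  | mul a b ha hb =>
    intro hab w hw hG
    have ha0 : 0 < a := Nat.pos_of_mul_pos_right hab
    have hb0 : 0 < b := Nat.pos_of_mul_pos_left hab
    have h1 : (b : ℤ) • ((a : ℤ) • w) = 0 := by
      rw [smul_smul]; rw [mul_comm]; exact_mod_cast hw
    obtain ⟨d1, hd1, e1⟩ := hb hb0 _ h1 (by
      intro p hp h hh
      have e : ∀ g : ℤ[X], aeval T g ((a : ℤ) • w) = aeval T (C (a : ℤ) * g) w := by
        intro g
        rw [_root_.map_mul, Module.End.mul_apply, aeval_C, Module.algebraMap_end_apply, map_smul]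
      rw [e] at hh ⊢
      exact hG p hp _ hh)
    set v := (T ^ d1) w - w with hv
    have hvp : v = aeval T (X ^ d1 - 1 : ℤ[X]) w := by simp [hv]
    have h3 : (a : ℤ) • v = 0 := by
      rw [hv, smul_sub, ← map_smul, e1, sub_self]
    obtain ⟨d2, hd2, e2⟩ := ha ha0 v h3 (by
      intro p hp h hh
      have e : aeval T h v = aeval T (h * (X ^ d1 - 1)) w := by
        rw [_root_.map_mul, Module.End.mul_apply, ← hvp]
      rw [e] at hh ⊢
      exact hG p hp _ hh)
    set U := T ^ d1 with hU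
    have hUw : U w = w + v := by rw [hv]; abel
    have hUv : (U ^ d2) v = v := by
      rw [hU, ← pow_mul, mul_comm]
      exact pow_mul_apply_of_fix T d2 d1 v e2
    refine ⟨d1 * (d2 * a), by positivity, ?_⟩
    rw [pow_mul, ← hU, pow_apply_eq_add U w v hUw, sum_period U d2 v hUv a]
    have : (a : ℕ) • ∑ j ∈ Finset.range d2, (U ^ j) v = 0 := by
      rw [Finset.smul_sum]
      refine Finset.sum_eq_zero (fun j _ => ?_)
      have : (a : ℕ) • (U ^ j) v = (U ^ j) ((a : ℤ) • v) := by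
        rw [map_smul, natCast_zsmul]
      rw [this, h3, map_zero]
    rw [this, add_zero]

namespace Der

variable {Q M : Type} [Group Q] [AddCommGroup M] (D : Der Q M)

theorem aeval_comm_of {z a : Q} (h : D.ρ a * D.ρ z = D.ρ z * D.ρ a) (f : ℤ[X]) :
    D.ρ a * (aeval (D.ρ z) f : Module.End ℤ M) = aeval (D.ρ z) f * D.ρ a := by
  have hc : Commute (D.ρ a) (D.ρ z) := h
  refine Polynomial.induction_on' f (fun p q hp hq => ?_) (fun n c => ?_)
  · rw [map_add, mul_add, add_mul, hp, hq]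
  · rw [aeval_monomial]
    have h1 : Commute (D.ρ a) ((algebraMap ℤ (Module.End ℤ M)) c) :=
      (Algebra.commutes c (D.ρ a)).symm
    exact (h1.mul_right (hc.pow_right n)).eq

/-- The key identity for one element `z` and a finite index subgroup `P` commuting with it. -/
theorem key_z {P : Subgroup Q} [P.FiniteIndex] {z : Q}
    (h : ∀ a ∈ P, D.ρ a * D.ρ z = D.ρ z * D.ρ a ∧ D.π (a * z) = D.π (z * a))
    (hs : Function.Surjective D.π) (f : ℕ → ℤ[X]) :
    ∃ (i0 : ℕ) (ι : ℕ → ℕ) (a : ℕ → Q), (∀ i, a i ∈ P) ∧ Function.Injective ι ∧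
      (∀ i, ι i ≠ i0) ∧
      ∀ i, D.ρ (a i) (aeval (D.ρ z) (1 + (X - 1) * f i0) (D.π z)) =
        aeval (D.ρ z) (1 + (X - 1) * f (ι i)) (D.π z) := by
  classical
  choose q hq using fun i => hs (aeval (D.ρ z) (f i) (D.π z))
  have hfin : Finite (Q ⧸ P) := Subgroup.finite_quotient_of_finiteIndex
  obtain ⟨y, hy⟩ := Finite.exists_infinite_fiber (fun i : ℕ => (((q i)⁻¹ : Q) : Q ⧸ P))
  let e := (Set.infinite_coe_iff.1 hy).natEmbedding
  have he : ∀ i, (((q (e i).1)⁻¹ : Q) : Q ⧸ P) = y := fun i => (e i).2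
  have hmem : ∀ i, q (e (i + 1)).1 * (q (e 0).1)⁻¹ ∈ P := by
    intro i
    have := (he (i + 1)).trans (he 0).symm
    rw [QuotientGroup.eq] at this
    simpa using this
  refine ⟨(e 0).1, fun i => (e (i + 1)).1, fun i => _, fun i => hmem i, ?_, ?_, ?_⟩
  · intro i j hij
    have := e.injective (Subtype.ext hij)
    omega
  · intro i hi
    have := e.injective (Subtype.ext hi)
    omega
  · intro i
    set A : Q := q (e (i + 1)).1 * (q (e 0).1)⁻¹ with hA
    obtain ⟨c1, c2⟩ := h A (hmem i)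
    have hAq : A * q (e 0).1 = q (e (i + 1)).1 := by rw [hA]; group
    have e1 : D.π A + D.ρ A (D.π (q (e 0).1)) = D.π (q (e (i + 1)).1) := by
      rw [← D.map_mul, hAq]
    have e2 : D.π A + D.ρ A (D.π z) = D.π z + D.ρ z (D.π A) := by
      rw [← D.map_mul, ← D.map_mul]; exact c2
    have e4 : D.ρ A (D.π z) = D.π z + (D.ρ z (D.π A) - D.π A) := by
      have : D.ρ A (D.π z) = D.π z + D.ρ z (D.π A) - D.π A := by rw [← e2]; abel
      rw [this]; abel
    have e5 : D.π A = D.π (q (e (i + 1)).1) - D.ρ A (D.π (q (e 0).1)) := by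
      rw [← e1]; abel
    have e6 : ∀ (g : ℤ[X]) (m : M), aeval (D.ρ z) (1 + (X - 1) * g) m =
        m + (D.ρ z (aeval (D.ρ z) g m) - aeval (D.ρ z) g m) := by
      intro g m
      simp [Module.End.mul_apply, LinearMap.sub_apply]
    change D.ρ A _ = _
    rw [e6, e6, map_add, map_sub, ← hq (e 0).1, ← hq (e (i + 1)).1, e4, e5]
    have e7 : D.ρ A (D.ρ z (D.π (q (e 0).1))) = D.ρ z (D.ρ A (D.π (q (e 0).1))) := by
      rw [← Module.End.mul_apply, c1, Module.End.mul_apply]
    rw [map_sub, e7]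
    abel

theorem pow_zero_of_fix {z : Q} {d n : ℕ} (hd : (D.ρ z ^ d) (D.π z) = D.π z)
    (hn : (n : ℤ) • D.π z = 0) : D.π (z ^ (d * n)) = 0 := by
  rw [D.π_pow, sum_period (D.ρ z) d (D.π z) hd n, Finset.smul_sum]
  refine Finset.sum_eq_zero (fun j _ => ?_)
  have : (n : ℕ) • (D.ρ z ^ j) (D.π z) = (D.ρ z ^ j) ((n : ℤ) • D.π z) := by
    rw [map_smul, natCast_zsmul]
  rw [this, hn, map_zero]

/-- An element commuting with a finite index subgroup has a power with value zero if its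
value is a torsion element. -/
theorem torsion_z [Group.IsSolvable Q] (hr : r0 Q < ℵ₀) {P : Subgroup Q} [P.FiniteIndex] {z : Q}
    (h : ∀ a ∈ P, D.ρ a * D.ρ z = D.ρ z * D.ρ a ∧ D.π (a * z) = D.π (z * a))
    (hs : Function.Surjective D.π) {n : ℕ} (hn : 0 < n) (hnz : (n : ℤ) • D.π z = 0) :
    ∃ k : ℕ, 0 < k ∧ D.π (z ^ k) = 0 := by
  obtain ⟨d, hd, hdz⟩ := period' (D.ρ z) n hn (D.π z) hnz (by
    intro p hp H hpH
    have := Fact.mk hp
    set v := aeval (D.ρ z) H (D.π z) with hv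
    by_contra hcon
    push Not at hcon
    let κ : ℤ[X] →+* (ZMod p)[X] := Polynomial.mapRingHom (Int.castRingHom (ZMod p))
    have hκ : ∀ G : ℤ[X], κ G = G.map (Int.castRingHom (ZMod p)) := fun _ => rfl
    have hv0 : ∀ G : ℤ[X], aeval (D.ρ z) G v = 0 → κ G = 0 := by
      intro G hG
      by_contra hG0
      obtain ⟨d, hd, hdv⟩ := period_prime (D.ρ z) (D.ρ_injective z) p G hG0 v hpH hG
      exact hcon d hd hdv
    obtain ⟨i0, ι, a, ha, hι, hι0, hkey⟩ := D.key_z h hs (fun i => seqP (X - 1 : ℤ[X]) i)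
    have hg : ∀ i, κ (1 + (X - 1) * seqP (X - 1 : ℤ[X]) i) ≠ 0 ∧
        ¬ IsUnit (κ (1 + (X - 1) * seqP (X - 1 : ℤ[X]) i)) := by
      intro i
      obtain ⟨-, hm, hdeg⟩ := seqP_monic i
      constructor
      · exact (hm.map _).ne_zero
      · refine Polynomial.not_isUnit_of_natDegree_pos _ ?_
        rw [hκ, hm.natDegree_map]
        exact hdeg
    refine line_trick (κ := κ)
      (ψ := ((aeval (D.ρ z) : ℤ[X] →ₐ[ℤ] Module.End ℤ M) : ℤ[X] →+* Module.End ℤ M))
      (ρ := D.ρ) (P := P) (v := v) hr (fun q hq r => D.aeval_comm_of (h q hq).1 r) hv0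
      (1 + (X - 1) * seqP (X - 1 : ℤ[X]) i0) (fun i => 1 + (X - 1) * seqP (X - 1 : ℤ[X]) (ι i))
      a ha (fun i => ?_) (hg i0).1 (fun i => (hg (ι i)).1) (fun i => ?_) (fun i j hij => ?_)
      (fun i => (hg (ι i)).2)
    · change D.ρ (a i) (aeval (D.ρ z) (1 + (X - 1) * seqP (X - 1 : ℤ[X]) i0) v) =
        aeval (D.ρ z) (1 + (X - 1) * seqP (X - 1 : ℤ[X]) (ι i)) v
      rw [hv, aeval_comm_apply, aeval_comm_apply _ _ H, ← hkey i]
      exact congrArg (fun F : Module.End ℤ M => F _) (D.aeval_comm_of (h (a i) (ha i)).1 H)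
    · exact (seq_coprime _ (hι0 i)).map κ
    · exact (seq_coprime _ (fun e => hij (hι e))).map κ)
  exact ⟨d * n, by positivity, D.pow_zero_of_fix hdz hnz⟩

end Der

end Pool.TFR
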