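import Mathlib
import Pool.Agent.TFR.Star

/-!
# Sub-derivations and the element-wise torsion condition
-/

set_option autoImplicit false

namespace Pool.TFR

open Cardinal Polynomial
open scoped commutatorElement

namespace Der

variable {Q M : Type} [Group Q] [AddCommGroup M] (D : Der Q M)

/-- the derivation of the stabilizer of `e + W` with values in `W` -/
def sub {W : Submodule ℤ M} (hW : D.Inv W) : Der ↥(D.stab hW) ↥W where
  ρ :=
    { toFun := fun q => (D.ρ q.1).restrict (hW q.1)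
      map_one' := by
        ext x
        change D.ρ 1 x.1 = x.1
        rw [_root_.map_one]; rfl
      map_mul' := by
        intro a b
        ext x
        change D.ρ (a.1 * b.1) x.1 = D.ρ a.1 (D.ρ b.1 x.1)
        rw [_root_.map_mul]; rfl }
  π := fun q => ⟨D.π q.1, q.2⟩
  map_mul := by
    intro a b
    refine Subtype.ext ?_
    exact D.map_mul a.1 b.1

theorem sub_ρ {W : Submodule ℤ M} (hW : D.Inv W) (q : ↥(D.stab hW)) (w : ↥W) :
    (((D.sub hW).ρ q w : ↥W) : M) = D.ρ q.1 w.1 := rfl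

theorem sub_π {W : Submodule ℤ M} (hW : D.Inv W) (q : ↥(D.stab hW)) :
    (((D.sub hW).π q : ↥W) : M) = D.π q.1 := rfl

theorem sub_surj {W : Submodule ℤ M} (hW : D.Inv W) (hs : Function.Surjective D.π) :
    Function.Surjective (D.sub hW).π := by
  rintro ⟨w, hw⟩
  obtain ⟨q, rfl⟩ := hs w
  exact ⟨⟨q, hw⟩, rfl⟩

theorem quot_surj {W : Submodule ℤ M} (hW : D.Inv W) (hs : Function.Surjective D.π) :
    Function.Surjective (D.quot hW).π := by
  intro y
  obtain ⟨m, rfl⟩ := Submodule.Quotient.mk_surjective W y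
  obtain ⟨q, rfl⟩ := hs m
  exact ⟨q, rfl⟩

theorem r0_quot_stab_bot {W : Submodule ℤ M} (hW : D.Inv W) :
    (D.quot hW).stab (D.quot hW).inv_bot = D.stab hW := by
  ext x
  change Submodule.Quotient.mk (D.π x) ∈ (⊥ : Submodule ℤ (M ⧸ W)) ↔ D.π x ∈ W
  rw [Submodule.mem_bot, Submodule.Quotient.mk_eq_zero]

theorem r0_sub_stab_bot {W : Submodule ℤ M} (hW : D.Inv W) :
    r0 ((D.sub hW).stab (D.sub hW).inv_bot) = r0 (D.stab D.inv_bot) := by
  refine r0_congr ?_
  exact
    { toFun := fun x => ⟨x.1.1, by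
        have h : (D.sub hW).π x.1 ∈ (⊥ : Submodule ℤ ↥W) := x.2
        rw [Submodule.mem_bot] at h
        change D.π x.1.1 ∈ (⊥ : Submodule ℤ M)
        rw [Submodule.mem_bot]
        exact congrArg Subtype.val h⟩
      invFun := fun x => ⟨⟨x.1, D.stab_mono hW D.inv_bot bot_le x.2⟩, by
        have h : D.π x.1 ∈ (⊥ : Submodule ℤ M) := x.2
        rw [Submodule.mem_bot] at h
        change (D.sub hW).π _ ∈ (⊥ : Submodule ℤ ↥W)
        rw [Submodule.mem_bot]
        exact Subtype.ext h⟩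
      left_inv := fun x => rfl
      right_inv := fun x => rfl
      map_mul' := fun x y => rfl }

/-- The element-wise condition on the torsion submodule: every element of the group either acts
locally finitely, or has a positive power whose commutators with a finite index subgroup act
trivially. -/
def Star : Prop :=
  ∀ z : Q, (∀ v ∈ tors M, ∃ d : ℕ, 0 < d ∧ D.ρ (z ^ d) v = v) ∨
    (∃ m : ℕ, 0 < m ∧ ∃ P : Subgroup Q, P.FiniteIndex ∧
      ∀ y ∈ P, ∀ v ∈ tors M, D.ρ ⁅z ^ m, y⁆ v = v)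

/-- The element-wise condition for a torsion module. -/
theorem star_torsion [Group.IsSolvable Q] (hr : r0 Q < ℵ₀) (hs : Function.Surjective D.π)
    (hM : ∀ m : M, m ∈ tors M)
    (hstar : ∀ z : Q, (∀ v : M, ∃ d : ℕ, 0 < d ∧ D.ρ (z ^ d) v = v) ∨
      (∃ m : ℕ, 0 < m ∧ ∃ P : Subgroup Q, P.FiniteIndex ∧ ∀ y ∈ P, D.ρ ⁅z ^ m, y⁆ = 1)) :
    r0 Q = r0 (D.stab D.inv_bot) := by
  have hrank : Module.rank ℤ D.kerVal = 0 := by
    rw [rank_eq_zero_iff]
    intro x
    obtain ⟨n, hn, hnx⟩ := hM x.1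
    exact ⟨(n : ℤ), by exact_mod_cast hn.ne', Subtype.ext hnx⟩
  have h1 := D.r0_stab_kerVal
  rw [hrank, add_zero] at h1
  rw [← h1]
  symm
  refine r0_eq_of_powers _ (fun z => ?_)
  obtain ⟨n, hn, hnz⟩ := hM (D.π z)
  rcases hstar z with hlf | ⟨m, hm, P, hP, hfc⟩
  · obtain ⟨d, hd, hdz⟩ := hlf (D.π z)
    rw [_root_.map_pow] at hdz
    refine ⟨d * n, by positivity, ?_⟩
    change D.π _ ∈ D.kerVal
    rw [D.pow_zero_of_fix hdz hnz]
    exact Submodule.zero_mem _
  · -- pass to the quotient by `π(C)`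
    have hcomm : ∀ a ∈ P, (D.quot D.inv_kerVal).ρ a * (D.quot D.inv_kerVal).ρ (z ^ m) =
        (D.quot D.inv_kerVal).ρ (z ^ m) * (D.quot D.inv_kerVal).ρ a ∧
        (D.quot D.inv_kerVal).π (a * z ^ m) = (D.quot D.inv_kerVal).π (z ^ m * a) := by
      intro a ha
      set Z : Q := z ^ m with hZ
      -- `Z * a = x * (a * Z)` with `x = ⁅Z, a⁆`
      have hx := hfc a ha
      have e : Z * a = ⁅Z, a⁆ * (a * Z) := by rw [commutatorElement_def]; group
      have e' : Z * a = (a * Z) * ((a * Z)⁻¹ * ⁅Z, a⁆ * (a * Z)) := by rw [e]; group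
      have hx' : D.ρ ((a * Z)⁻¹ * ⁅Z, a⁆ * (a * Z)) = 1 := by
        rw [_root_.map_mul, _root_.map_mul, hx, mul_one, ← _root_.map_mul, inv_mul_cancel,
          _root_.map_one]
      constructor
      · have h2 : D.ρ a * D.ρ Z = D.ρ Z * D.ρ a := by
          rw [← _root_.map_mul, ← _root_.map_mul, e, _root_.map_mul D.ρ ⁅Z, a⁆, hx, one_mul]
        ext y
        change Submodule.Quotient.mk (D.ρ a (D.ρ Z y)) = Submodule.Quotient.mk (D.ρ Z (D.ρ a y))
        rw [← Module.End.mul_apply, h2, Module.End.mul_apply]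
      · change Submodule.Quotient.mk (D.π (a * Z)) = Submodule.Quotient.mk (D.π (Z * a))
        rw [eq_comm, Submodule.Quotient.eq, e', D.map_mul (a * Z), add_sub_cancel_left]
        refine D.inv_kerVal _ _ ?_
        exact ⟨_, hx', rfl⟩
    have hnz' : ∃ n' : ℕ, 0 < n' ∧ (n' : ℤ) • (D.quot D.inv_kerVal).π (z ^ m) = 0 := by
      obtain ⟨n', hn', hnz'⟩ := hM (D.π (z ^ m))
      refine ⟨n', hn', ?_⟩
      change (n' : ℤ) • Submodule.Quotient.mk (D.π (z ^ m)) = 0
      rw [← Submodule.Quotient.mk_smul, hnz']; rfl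
    obtain ⟨n', hn', hnz'⟩ := hnz'
    obtain ⟨k, hk, hk'⟩ := (D.quot D.inv_kerVal).torsion_z hr hcomm
      (D.quot_surj D.inv_kerVal hs) hn' hnz'
    refine ⟨m * k, by positivity, ?_⟩
    change D.π _ ∈ D.kerVal
    rw [pow_mul]
    exact (Submodule.Quotient.mk_eq_zero _).1 hk'

/-- Under the condition `Star` the torsion submodule is balanced. -/
theorem Star.bal [Group.IsSolvable Q] (hr : r0 Q < ℵ₀) {D : Der Q M}
    (hs : Function.Surjective D.π) (hstar : D.Star) :
    r0 (D.stab D.inv_tors) = r0 (D.stab D.inv_bot) := by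
  have h := (D.sub D.inv_tors).star_torsion (lt_of_le_of_lt (r0_subgroup_le _) hr)
    (D.sub_surj D.inv_tors hs) ?_ ?_
  · rw [h, D.r0_sub_stab_bot]
  · rintro ⟨m, n, hn, hm⟩
    exact ⟨n, hn, Subtype.ext hm⟩
  · intro z
    rcases hstar z.1 with hlf | ⟨m, hm, P, hP, hfc⟩
    · left
      intro v
      obtain ⟨d, hd, hdv⟩ := hlf v.1 v.2
      exact ⟨d, hd, Subtype.ext hdv⟩
    · right
      refine ⟨m, hm, P.subgroupOf _, inferInstance, fun y hy => ?_⟩
      ext v
      exact hfc y.1 hy v.1 v.2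

end Der

end Pool.TFR
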