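import Mathlib
import Pool.Agent.TFR.Sub

/-!
# Quotients of torsion-free groups of finite rank are locally thin
-/

set_option autoImplicit false

namespace Pool.TFR

open Cardinal Polynomial

/-- torsion-free as a `ℤ`-module -/
def TF (M : Type) [AddCommGroup M] : Prop := ∀ n : ℤ, n ≠ 0 → ∀ m : M, n • m = 0 → m = 0

theorem finite_of_lift {A V : Type} [AddCommGroup A] (hA : Module.rank ℤ A < ℵ₀) (htf : TF A)
    (p : ℕ) [Fact p.Prime] [AddCommGroup V] [Module (ZMod p) V] (φ : A →+ V)
    (hφ : Function.Surjective φ) :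
    Finite V ∧ Nat.card V ≤ p ^ Cardinal.toNat (Module.rank ℤ A) := by
  let b := Module.Basis.ofVectorSpace (ZMod p) V
  choose a ha using fun i : Module.Basis.ofVectorSpaceIndex (ZMod p) V => hφ (b i)
  have hcast : ∀ (c : ℤ) (x : V), ((c : ZMod p)) • x = c • x := by
    intro c x
    exact Int.cast_smul_eq_zsmul (ZMod p) c x
  have hli : LinearIndependent ℤ a := by
    rw [linearIndependent_iff]
    intro l hl
    have hdiv : ∀ (k : ℕ) (l : _ →₀ ℤ), Finsupp.linearCombination ℤ a l = 0 →
        ∀ i, ((p : ℤ) ^ k) ∣ l i := by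
      intro k
      induction k with
      | zero => intro l _ i; simp
      | succ k ih =>
        intro l hl i
        -- all coefficients are divisible by `p`
        have h1 : ∀ i, (p : ℤ) ∣ l i := by
          intro i
          have h2 : Finsupp.linearCombination (ZMod p) b
              (l.mapRange (Int.cast : ℤ → ZMod p) (by simp)) = 0 := by
            have h3 := congrArg φ hl
            rw [Finsupp.linearCombination_apply, Finsupp.sum, map_sum, map_zero] at h3
            rw [Finsupp.linearCombination_apply, Finsupp.sum_mapRange_index (by simp),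
              Finsupp.sum, ← h3]
            refine Finset.sum_congr rfl (fun j _ => ?_)
            rw [hcast, ← ha, map_zsmul]
          have h5 := (linearIndependent_iff.1 b.linearIndependent) _ h2
          have h6 := DFunLike.congr_fun h5 i
          simp only [Finsupp.mapRange_apply, Finsupp.coe_zero, Pi.zero_apply] at h6
          exact (ZMod.intCast_zmod_eq_zero_iff_dvd _ p).1 h6
        let l' : _ →₀ ℤ := l.mapRange (fun c => c / p) (by simp)
        have hl' : l = (p : ℤ) • l' := by
          ext j
          simp only [l', Finsupp.smul_apply, Finsupp.mapRange_apply, smul_eq_mul]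
          exact (Int.mul_ediv_cancel' (h1 j)).symm
        have h7 : Finsupp.linearCombination ℤ a l' = 0 := by
          rw [hl', map_smul] at hl
          exact htf p (by exact_mod_cast (Fact.out : p.Prime).ne_zero) _ hl
        have h8 := ih l' h7 i
        rw [hl', Finsupp.smul_apply, smul_eq_mul, pow_succ']
        exact mul_dvd_mul_left _ h8
    ext i
    by_contra hne
    simp only [Finsupp.coe_zero, Pi.zero_apply] at hne
    have h9 := hdiv (l i).natAbs l hl i
    have h10 := Int.natAbs_dvd_natAbs.2 h9
    rw [Int.natAbs_pow, Int.natAbs_natCast] at h10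
    have h11 := Nat.le_of_dvd (Int.natAbs_pos.2 hne) h10
    have h12 : (l i).natAbs < p ^ (l i).natAbs :=
      Nat.lt_pow_self (Fact.out : p.Prime).one_lt
    omega
  have hcard := hli.cardinal_le_rank
  have hfin : Finite (Module.Basis.ofVectorSpaceIndex (ZMod p) V) :=
    Cardinal.lt_aleph0_iff_finite.1 (lt_of_le_of_lt hcard hA)
  have hfin' : Fintype (Module.Basis.ofVectorSpaceIndex (ZMod p) V) := Fintype.ofFinite _
  have : Module.Finite (ZMod p) V := Module.Finite.of_basis b
  have hV : Finite V := Module.finite_of_finite (ZMod p)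
  refine ⟨hV, ?_⟩
  have hVf : Fintype V := Fintype.ofFinite V
  rw [Nat.card_eq_fintype_card, Module.card_eq_pow_finrank (K := ZMod p) (V := V), ZMod.card]
  refine Nat.pow_le_pow_right (Fact.out : p.Prime).pos ?_
  rw [Module.finrank_eq_card_basis b, ← Nat.card_eq_fintype_card]
  have h1 := Cardinal.toNat_le_toNat hcard hA
  exact h1

theorem finite_mod_p {A : Type} [AddCommGroup A] (hA : Module.rank ℤ A < ℵ₀) (htf : TF A)
    (p : ℕ) [Fact p.Prime] : Finite (A ⧸ LinearMap.range ((p : ℤ) • (1 : Module.End ℤ A))) := by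
  set R := LinearMap.range ((p : ℤ) • (1 : Module.End ℤ A)) with hR
  have hmem : ∀ a : A, a ∈ R ↔ ∃ b, (p : ℤ) • b = a := by
    intro a
    rw [hR, LinearMap.mem_range]
    rfl
  let _ : Module (ZMod p) (A ⧸ R) := AddCommGroup.zmodModule (by
    intro x
    obtain ⟨a, rfl⟩ := Submodule.Quotient.mk_surjective R x
    rw [← natCast_zsmul, ← Submodule.Quotient.mk_smul, Submodule.Quotient.mk_eq_zero, hmem]
    exact ⟨a, rfl⟩)
  exact (finite_of_lift hA htf p R.mkQ.toAddMonoidHom (Submodule.mkQ_surjective R)).1

/-- The `p`-torsion of a quotient of a torsion-free group of finite rank is finite. -/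
theorem thin {A : Type} [AddCommGroup A] (hA : Module.rank ℤ A < ℵ₀) (htf : TF A)
    (W : Submodule ℤ A) (p : ℕ) [Fact p.Prime] : {x : A ⧸ W | (p : ℤ) • x = 0}.Finite := by
  have hW : Module.rank ℤ W < ℵ₀ := lt_of_le_of_lt (Submodule.rank_le W) hA
  have htfW : TF W := fun n hn m h => Subtype.ext (htf n hn m.1 (congrArg Subtype.val h))
  have hfin := finite_mod_p hW htfW p
  rw [Set.finite_coe_iff.symm]
  choose m hm using fun x : {x : A ⧸ W | (p : ℤ) • x = 0} =>
    Submodule.Quotient.mk_surjective W x.1
  have hmW : ∀ x, (p : ℤ) • m x ∈ W := by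
    intro x
    rw [← Submodule.Quotient.mk_eq_zero, Submodule.Quotient.mk_smul, hm]
    exact x.2
  refine Finite.of_injective
    (fun x => (Submodule.Quotient.mk ⟨(p : ℤ) • m x, hmW x⟩ :
      W ⧸ LinearMap.range ((p : ℤ) • (1 : Module.End ℤ W)))) ?_
  intro x y hxy
  rw [Submodule.Quotient.eq, LinearMap.mem_range] at hxy
  obtain ⟨w, hw⟩ := hxy
  have h1 : (p : ℤ) • w.1 = (p : ℤ) • m x - (p : ℤ) • m y := congrArg Subtype.val hw
  have h2 : m x - m y = w.1 := by
    have h3 : (p : ℤ) • ((m x - m y) - w.1) = 0 := by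
      rw [smul_sub, smul_sub, h1, sub_self]
    have := htf p (by exact_mod_cast (Fact.out : p.Prime).ne_zero) _ h3
    exact sub_eq_zero.1 this
  refine Subtype.ext ?_
  rw [← hm x, ← hm y, Submodule.Quotient.eq, h2]
  exact w.2

/-- An injective endomorphism of a quotient of a torsion-free group of finite rank is
periodic on torsion elements. -/
theorem thin_period {A : Type} [AddCommGroup A] (hA : Module.rank ℤ A < ℵ₀) (htf : TF A)
    (W : Submodule ℤ A) (T : Module.End ℤ (A ⧸ W)) (hT : Function.Injective T)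
    {n : ℕ} (hn : 0 < n) (v : A ⧸ W) (hv : (n : ℤ) • v = 0) :
    ∃ d : ℕ, 0 < d ∧ (T ^ d) v = v := by
  refine period' T n hn v hv (fun p hp h hh => ?_)
  have := Fact.mk hp
  set u := aeval T h v with hu
  have hfin := thin hA htf W p
  have hmem : ∀ i : ℕ, (T ^ i) u ∈ {x : A ⧸ W | (p : ℤ) • x = 0} := by
    intro i
    change (p : ℤ) • (T ^ i) u = 0
    rw [← map_smul, hh, map_zero]
  have hfin' : Finite {x : A ⧸ W | (p : ℤ) • x = 0} := hfin
  obtain ⟨i, j, hij, heq⟩ := Finite.exists_ne_map_eq_of_infinite
    (fun i : ℕ => (⟨(T ^ i) u, hmem i⟩ : {x : A ⧸ W | (p : ℤ) • x = 0}))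
  wlog hlt : i < j generalizing i j
  · exact this j i hij.symm heq.symm (lt_of_le_of_ne (not_lt.1 hlt) hij.symm)
  have heq' : (T ^ i) u = (T ^ j) u := congrArg Subtype.val heq
  refine ⟨j - i, by omega, ?_⟩
  have hinj : Function.Injective ((T ^ i : Module.End ℤ (A ⧸ W))) := by
    rw [Module.End.coe_pow]; exact hT.iterate i
  apply hinj
  rw [← Module.End.mul_apply, ← pow_add, show i + (j - i) = j by omega]
  exact heq'.symm

end Pool.TFR
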