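import Mathlib
import Pool.Agent.TFR.Thin

/-!
# Rationally irreducible torsion-free modules
-/

set_option autoImplicit false

namespace Pool.TFR

open Cardinal Polynomial
open scoped commutatorElement

/-- The determinant trick. -/
theorem det_trick {R V ι : Type} [CommRing R] [AddCommGroup V] [Fintype ι] [DecidableEq ι]
    (ψ : R →+* Module.End ℤ V) (A : Matrix ι ι R) (u : ι → V)
    (h : ∀ j, ∑ l, ψ (A j l) (u l) = 0) (i : ι) : ψ A.det (u i) = 0 := by
  have h1 : ∀ l, (A.adjugate * A) i l = if i = l then A.det else 0 := by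
    intro l
    rw [Matrix.adjugate_mul, Matrix.smul_apply, Matrix.one_apply]
    simp
  have h2 : ∑ l, ψ ((A.adjugate * A) i l) (u l) = ψ A.det (u i) := by
    rw [Finset.sum_eq_single i]
    · rw [h1, if_pos rfl]
    · intro b _ hb
      rw [h1, if_neg (Ne.symm hb), map_zero]; rfl
    · intro hi; exact absurd (Finset.mem_univ _) hi
  rw [← h2]
  have h3 : ∀ l, ψ ((A.adjugate * A) i l) (u l) =
      ∑ j, ψ (A.adjugate i j) (ψ (A j l) (u l)) := by
    intro l
    rw [Matrix.mul_apply, map_sum, LinearMap.sum_apply]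
    refine Finset.sum_congr rfl (fun j _ => ?_)
    rw [map_mul, Module.End.mul_apply]
  rw [Finset.sum_congr rfl (fun l _ => h3 l), Finset.sum_comm]
  refine Finset.sum_eq_zero (fun j _ => ?_)
  rw [← map_sum, h j, map_zero]

/-- A finite family spanning a module of finite rank up to torsion. -/
theorem exists_family {M : Type} [AddCommGroup M] (hM : Module.rank ℤ M < ℵ₀) :
    ∃ (ι : Type) (_ : Fintype ι) (v : ι → M), ∀ m : M, ∃ n : ℤ, n ≠ 0 ∧
      n • m ∈ Submodule.span ℤ (Set.range v) := by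
  obtain ⟨s, hs, hli⟩ := exists_set_linearIndependent_of_isDomain ℤ M
  have hfin : Finite s := Cardinal.lt_aleph0_iff_finite.1 (hs ▸ hM)
  refine ⟨s, Fintype.ofFinite s, Subtype.val, fun m => ?_⟩
  rw [Subtype.range_coe]
  have h1 : Module.rank ℤ (Submodule.span ℤ s) = Module.rank ℤ M := by
    rw [rank_span_set hli, hs]
  obtain ⟨n, hn, hnm⟩ := exists_smul_mem_of_rank_eq hM (W' := Submodule.span ℤ s) (W := ⊤)
    le_top (by rw [rank_top, h1]) (m := m) Submodule.mem_top
  exact ⟨n, hn, hnm⟩

namespace Der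

variable {Q M : Type} [Group Q] [AddCommGroup M] (D : Der Q M)

/-- the linear action on `M × ℤ` -/
def ext : Q →* Module.End ℤ (M × ℤ) where
  toFun q :=
    { toFun := fun x => (D.ρ q x.1 + x.2 • D.π q, x.2)
      map_add' := by
        intro x y
        refine Prod.ext ?_ rfl
        change D.ρ q (x.1 + y.1) + (x.2 + y.2) • D.π q =
          (D.ρ q x.1 + x.2 • D.π q) + (D.ρ q y.1 + y.2 • D.π q)
        rw [map_add, add_smul]; abel
      map_smul' := by
        intro c x
        refine Prod.ext ?_ rfl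
        change D.ρ q (c • x.1) + (c * x.2) • D.π q = c • (D.ρ q x.1 + x.2 • D.π q)
        rw [map_smul, smul_add, mul_smul] }
  map_one' := by
    ext x
    · change D.ρ 1 x + (0 : ℤ) • D.π 1 = x
      rw [_root_.map_one, zero_smul, add_zero]; rfl
    · rfl
    · change D.ρ 1 0 + (1 : ℤ) • D.π 1 = 0
      rw [D.map_one]; simp
    · rfl
  map_mul' := by
    intro a b
    refine LinearMap.ext (fun x => Prod.ext ?_ rfl)
    change D.ρ (a * b) x.1 + x.2 • D.π (a * b) =
      D.ρ a (D.ρ b x.1 + x.2 • D.π b) + x.2 • D.π a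
    rw [_root_.map_mul, D.map_mul, map_add, map_smul, smul_add, Module.End.mul_apply]
    abel

theorem ext_fst (q : Q) (x : M × ℤ) : (D.ext q x).1 = D.ρ q x.1 + x.2 • D.π q := rfl

theorem ext_snd (q : Q) (x : M × ℤ) : (D.ext q x).2 = x.2 := rfl

/-- If a multiple of `π` is principal and `M` is torsion-free, then `M = 0`. -/
theorem zero_of_principal [Group.IsSolvable Q] (hr : r0 Q < ℵ₀)
    (hs : Function.Surjective D.π) (htf : TF M) {n : ℤ} (hn : n ≠ 0) (m : M)
    (h : ∀ q, n • D.π q = D.ρ q m - m) (x : M) : x = 0 := by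
  by_cases hm : m = 0
  · obtain ⟨q, rfl⟩ := hs x
    refine htf n hn _ ?_
    rw [h q, hm, map_zero, sub_zero]
  exfalso
  set t : ℤ := n * n with ht
  have ht1 : 1 ≤ t := by
    have : 0 < n * n := mul_self_pos.2 hn
    omega
  choose q hq using fun i : ℕ => hs ((n * seqP t i) • m)
  have hqm : ∀ i, D.ρ (q i) m = (1 + t * seqP t i) • m := by
    intro i
    have h1 := h (q i)
    rw [hq i, smul_smul] at h1
    have h2 : D.ρ (q i) m = m + (n * (n * seqP t i)) • m := by rw [h1]; abel
    rw [h2, add_smul, one_smul, ht]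
    congr 2
    ring
  have hpos : ∀ i, 2 ≤ 1 + t * seqP t i := by
    intro i
    have h1 := seqP_pos t ht1 i
    have h2 : 1 ≤ t * seqP t i := by nlinarith
    omega
  refine line_trick (κ := RingHom.id ℤ) (ψ := algebraMap ℤ (Module.End ℤ M)) (ρ := D.ρ)
    (P := ⊤) (v := m) hr (fun q _ r => (Algebra.commutes r (D.ρ q)).symm) ?_ 1
    (fun i => 1 + t * seqP t i) q (fun _ => Subgroup.mem_top _) ?_ ?_ ?_ ?_ ?_ ?_
  · intro s hs0
    by_contra hs1
    rw [Module.algebraMap_end_apply] at hs0
    exact hm (htf s hs1 m hs0)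
  · intro i
    rw [Module.algebraMap_end_apply, Module.algebraMap_end_apply, one_smul]
    exact hqm i
  · simp
  · intro i
    have := hpos i
    change (1 + t * seqP t i) ≠ 0
    omega
  · intro i
    change IsCoprime (1 + t * seqP t i) 1
    exact isCoprime_one_right
  · intro i j hij
    exact seq_coprime t hij
  · intro i
    change ¬ IsUnit (1 + t * seqP t i)
    rw [Int.isUnit_iff]
    have := hpos i
    omega

/-- the action of the abelianization of a normal subgroup on `M × ℤ` -/
noncomputable def abExt (N : Subgroup Q) (hN : ∀ x ∈ ⁅N, N⁆, D.ext x = 1) :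
    Abelianization ↥N →* Module.End ℤ (M × ℤ) :=
  QuotientGroup.lift _ (D.ext.comp N.subtype) (by
    intro x hx
    rw [MonoidHom.mem_ker]
    refine hN x.1 ?_
    have h2 : (commutator ↥N).map N.subtype ≤ ⁅N, N⁆ := by
      rw [commutator_def, Subgroup.map_commutator]
      refine Subgroup.commutator_mono ?_ ?_ <;>
      · rintro _ ⟨y, -, rfl⟩; exact y.2
    exact h2 ⟨x, hx, rfl⟩)

theorem abExt_of (N : Subgroup Q) (hN : ∀ x ∈ ⁅N, N⁆, D.ext x = 1) (n : ↥N) :
    D.abExt N hN (Abelianization.of n) = D.ext n.1 := rfl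

/-- In the rationally irreducible case, if an abelian normal subgroup acts non-trivially, a
multiple of `π` is principal. -/
theorem exists_principal (hM : Module.rank ℤ M < ℵ₀) (htf : TF M)
    (hirr : ∀ W : Submodule ℤ M, D.Inv W → W ≠ ⊥ → ∀ m, ∃ n : ℤ, n ≠ 0 ∧ n • m ∈ W)
    (N : Subgroup Q) [hNn : N.Normal] (hN : ∀ x ∈ ⁅N, N⁆, D.ext x = 1)
    (hne : ∃ n ∈ N, D.ρ n ≠ 1) :
    ∃ (n : ℤ) (m : M), n ≠ 0 ∧ ∀ q, n • D.π q = D.ρ q m - m := by
  classical
  obtain ⟨ι, hι, v, hv⟩ := exists_family hM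
  let Γ := Abelianization ↥N
  let φ : Γ →* Module.End ℤ (M × ℤ) := D.abExt N hN
  let R := MonoidAlgebra ℤ Γ
  let ψ : R →ₐ[ℤ] Module.End ℤ (M × ℤ) := MonoidAlgebra.lift ℤ _ Γ φ
  let ε : R →ₐ[ℤ] ℤ := MonoidAlgebra.lift ℤ ℤ Γ 1
  have hψ : ∀ n : ↥N, ψ (MonoidAlgebra.of ℤ Γ (Abelianization.of n)) = D.ext n.1 := by
    intro n
    exact (MonoidAlgebra.lift_of _ _).trans rfl
  have hε : ∀ γ : Γ, ε (MonoidAlgebra.of ℤ Γ γ) = 1 := fun γ =>
    (MonoidAlgebra.lift_of _ _).trans rfl
  -- vectors fixed by `N`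
  have hfix : ∀ y : M × ℤ, (∀ n ∈ N, D.ext n y = y) → ∀ r : R, ψ r y = ε r • y := by
    intro y hy r
    induction r using MonoidAlgebra.induction_on with
    | of γ =>
      obtain ⟨n, rfl⟩ := QuotientGroup.mk_surjective γ
      change ψ (MonoidAlgebra.of ℤ Γ (Abelianization.of n)) y =
        ε (MonoidAlgebra.of ℤ Γ (Abelianization.of n)) • y
      rw [hψ, hε, hy n.1 n.2, one_smul]
    | add a b ha hb => rw [map_add, LinearMap.add_apply, ha, hb, map_add, add_smul]
    | smul c a ha => rw [map_smul, LinearMap.smul_apply, ha, map_smul, smul_assoc]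
  have hsnd : ∀ (r : R) (x : M × ℤ), (ψ r x).2 = ε r * x.2 := by
    intro r x
    induction r using MonoidAlgebra.induction_on with
    | of γ =>
      obtain ⟨n, rfl⟩ := QuotientGroup.mk_surjective γ
      change (ψ (MonoidAlgebra.of ℤ Γ (Abelianization.of n)) x).2 =
        ε (MonoidAlgebra.of ℤ Γ (Abelianization.of n)) * x.2
      rw [hψ, hε, D.ext_snd, one_mul]
    | add a b ha hb => rw [map_add, LinearMap.add_apply, Prod.snd_add, ha, hb, map_add, add_mul]
    | smul c a ha =>
      rw [map_smul, LinearMap.smul_apply, Prod.smul_snd, ha, map_smul, smul_eq_mul, smul_eq_mul,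
        mul_assoc]
  -- the submodule generated by `(n-1)M`
  let S : Set M := {w | ∃ n ∈ N, ∃ m, w = D.ρ n m - m}
  let W : Submodule ℤ M := Submodule.span ℤ S
  have hW : D.Inv W := by
    intro q w hw
    induction hw using Submodule.span_induction with
    | mem x hx =>
      obtain ⟨n, hn, m, rfl⟩ := hx
      refine Submodule.subset_span ⟨q * n * q⁻¹, hNn.conj_mem n hn q, D.ρ q m, ?_⟩
      rw [map_sub, ← Module.End.mul_apply, ← Module.End.mul_apply, ← _root_.map_mul,
        ← _root_.map_mul, inv_mul_cancel_right]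
    | zero => rw [map_zero]; exact Submodule.zero_mem _
    | add x y _ _ hx hy => rw [map_add]; exact Submodule.add_mem _ hx hy
    | smul c x _ hx => rw [map_smul]; exact Submodule.smul_mem _ c hx
  have hWne : W ≠ ⊥ := by
    obtain ⟨n, hn, hn1⟩ := hne
    intro h
    apply hn1
    ext m
    have : D.ρ n m - m ∈ W := Submodule.subset_span ⟨n, hn, m, rfl⟩
    rw [h, Submodule.mem_bot, sub_eq_zero] at this
    exact this
  -- every element of `W` has a multiple that is an `I`-combination of the `v`'s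
  let u : ι → M × ℤ := fun l => (v l, 0)
  have hcomb : ∀ w ∈ W, ∃ (d : ℤ) (c : ι → R), d ≠ 0 ∧ (∀ l, ε (c l) = 0) ∧
      ((d • w, 0) : M × ℤ) = ∑ l, ψ (c l) (u l) := by
    intro w hw
    induction hw using Submodule.span_induction with
    | mem x hx =>
      obtain ⟨n, hn, m, rfl⟩ := hx
      obtain ⟨d, hd, hdm⟩ := hv m
      obtain ⟨e, he⟩ := (Submodule.mem_span_range_iff_exists_fun ℤ).1 hdm
      refine ⟨d, fun l => e l • (MonoidAlgebra.of ℤ Γ (Abelianization.of ⟨n, hn⟩) - 1), hd,
        fun l => ?_, ?_⟩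
      · rw [map_smul, map_sub, hε, _root_.map_one, sub_self, smul_zero]
      · have h1 : ∀ l, ψ (e l • (MonoidAlgebra.of ℤ Γ (Abelianization.of ⟨n, hn⟩) - 1)) (u l) =
            (D.ρ n (e l • v l) - e l • v l, 0) := by
          intro l
          rw [map_smul, map_sub, hψ, _root_.map_one, LinearMap.smul_apply, LinearMap.sub_apply]
          refine Prod.ext ?_ ?_
          · change e l • ((D.ρ n (v l) + (0 : ℤ) • D.π n) - v l) = _
            rw [zero_smul, add_zero, smul_sub, map_smul]
          · change e l • ((0 : ℤ) - 0) = 0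
            simp
        rw [Finset.sum_congr rfl (fun l _ => h1 l)]
        refine Prod.ext ?_ ?_
        · rw [Prod.fst_sum]
          change d • (D.ρ n m - m) = ∑ l, (D.ρ n (e l • v l) - e l • v l)
          rw [Finset.sum_sub_distrib, ← map_sum, he, map_smul, smul_sub]
        · rw [Prod.snd_sum]; simp
    | zero => exact ⟨1, 0, one_ne_zero, fun l => by simp, by simp⟩
    | add x y _ _ hx hy =>
      obtain ⟨d, c, hd, hc, hx⟩ := hx
      obtain ⟨d', c', hd', hc', hy⟩ := hy
      refine ⟨d * d', fun l => d' • c l + d • c' l, mul_ne_zero hd hd', fun l => ?_, ?_⟩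
      · rw [map_add, map_smul, map_smul, hc, hc', smul_zero, smul_zero, add_zero]
      · have h1 : (((d * d') • (x + y), 0) : M × ℤ) = d' • (d • x, 0) + d • (d' • y, 0) := by
          refine Prod.ext ?_ ?_
          · change (d * d') • (x + y) = d' • d • x + d • d' • y
            rw [smul_add, smul_smul, smul_smul, mul_comm d' d]
          · simp
        rw [h1, hx, hy, Finset.smul_sum, Finset.smul_sum, ← Finset.sum_add_distrib]
        refine Finset.sum_congr rfl (fun l _ => ?_)
        rw [map_add, map_smul, map_smul]; rfl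
    | smul k x _ hx =>
      obtain ⟨d, c, hd, hc, hx⟩ := hx
      refine ⟨d, fun l => k • c l, hd, fun l => by rw [map_smul, hc, smul_zero], ?_⟩
      have h1 : ((d • k • x, 0) : M × ℤ) = k • (d • x, 0) := by
        refine Prod.ext ?_ ?_
        · change d • k • x = k • d • x
          rw [smul_comm]
        · simp
      rw [h1, hx, Finset.smul_sum]
      refine Finset.sum_congr rfl (fun l _ => ?_)
      rw [map_smul]; rfl
  have hcomb' : ∀ j : ι, ∃ (d : ℤ) (c : ι → R), d ≠ 0 ∧ (∀ l, ε (c l) = 0) ∧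
      d • u j = ∑ l, ψ (c l) (u l) := by
    intro j
    obtain ⟨n, hn, hnW⟩ := hirr W hW hWne (v j)
    obtain ⟨d, c, hd, hc, h⟩ := hcomb _ hnW
    refine ⟨d * n, c, mul_ne_zero hd hn, hc, ?_⟩
    rw [← h]
    refine Prod.ext ?_ ?_
    · change (d * n) • v j = d • n • v j
      rw [mul_smul]
    · change (d * n) • (0 : ℤ) = 0
      simp
  choose d c hd hc hdc using hcomb'
  let A : Matrix ι ι R := Matrix.of fun j l => (if j = l then algebraMap ℤ R (d j) else 0) - c j l
  have hA : ∀ j, ∑ l, (ψ : R →+* Module.End ℤ (M × ℤ)) (A j l) (u l) = 0 := by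
    intro j
    have h1 : ∀ l, (ψ : R →+* Module.End ℤ (M × ℤ)) (A j l) (u l) =
        (if j = l then d j • u j else 0) - ψ (c j l) (u l) := by
      intro l
      change ψ ((if j = l then algebraMap ℤ R (d j) else 0) - c j l) (u l) = _
      rw [map_sub, LinearMap.sub_apply]
      congr 1
      by_cases h : j = l
      · subst h
        rw [if_pos rfl, if_pos rfl, AlgHom.commutes, Module.algebraMap_end_apply]
      · rw [if_neg h, if_neg h, map_zero]; rfl
    rw [Finset.sum_congr rfl (fun l _ => h1 l), Finset.sum_sub_distrib,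
      Finset.sum_ite_eq, if_pos (Finset.mem_univ _), hdc j, sub_self]
  set α := A.det with hα
  have hεα : ε α = ∏ j, d j := by
    have h1 : ε α = (ε.mapMatrix A).det := AlgHom.map_det ε A
    have h2 : ε.mapMatrix A = Matrix.diagonal d := by
      ext j l
      rw [AlgHom.mapMatrix_apply, Matrix.map_apply]
      change ε ((if j = l then algebraMap ℤ R (d j) else 0) - c j l) = _
      rw [map_sub, hc, sub_zero, Matrix.diagonal_apply]
      by_cases h : j = l
      · rw [if_pos h, if_pos h, AlgHom.commutes]; rfl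
      · rw [if_neg h, if_neg h, map_zero]
    rw [h1, h2, Matrix.det_diagonal]
  have hεne : ε α ≠ 0 := by
    rw [hεα]; exact Finset.prod_ne_zero_iff.2 (fun j _ => hd j)
  -- `α` kills `M`
  have hkill : ∀ m : M, ψ α (m, 0) = 0 := by
    intro m
    obtain ⟨n, hn, hnm⟩ := hv m
    have h1 : ψ α (n • m, 0) = 0 := by
      obtain ⟨e, he⟩ := (Submodule.mem_span_range_iff_exists_fun ℤ).1 hnm
      have h2 : ((n • m, 0) : M × ℤ) = ∑ l, e l • u l := by
        refine Prod.ext ?_ ?_
        · rw [Prod.fst_sum, ← he]; rfl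
        · rw [Prod.snd_sum]
          change (0 : ℤ) = ∑ l, e l • (0 : ℤ)
          simp
      rw [h2, map_sum]
      refine Finset.sum_eq_zero (fun l _ => ?_)
      rw [map_smul]
      have := det_trick (ψ : R →+* Module.End ℤ (M × ℤ)) A u hA l
      change e l • ψ α (u l) = 0
      rw [show ψ α (u l) = 0 from this, smul_zero]
    have h3 : ((n • m, 0) : M × ℤ) = n • ((m, 0) : M × ℤ) := by
      refine Prod.ext rfl ?_
      change (0 : ℤ) = n • (0 : ℤ)
      simp
    rw [h3, map_smul] at h1
    refine Prod.ext ?_ ?_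
    · exact htf n hn _ (congrArg Prod.fst h1)
    · rw [hsnd]; simp
  set x : M × ℤ := ψ α (0, 1) with hx
  have hx2 : x.2 = ε α := by rw [hx, hsnd, mul_one]
  have hcommN : ∀ n ∈ N, ∀ y, D.ext n (ψ α y) = ψ α (D.ext n y) := by
    intro n hn y
    rw [← hψ ⟨n, hn⟩, ← Module.End.mul_apply, ← Module.End.mul_apply, ← _root_.map_mul,
      ← _root_.map_mul, mul_comm]
  have hNx : ∀ n ∈ N, D.ext n x = x := by
    intro n hn
    rw [hx, hcommN n hn]
    have h1 : D.ext n (0, 1) = (D.π n, 0) + (0, 1) := by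
      refine Prod.ext ?_ ?_
      · rw [ext_fst]; simp
      · rw [ext_snd]; simp
    rw [h1, map_add, hkill, zero_add]
  have hQx : ∀ q, D.ext q x = x := by
    intro q
    have hy : ∀ n ∈ N, D.ext n (D.ext q x - x) = D.ext q x - x := by
      intro n hn
      rw [map_sub, hNx n hn]
      congr 1
      have h2 := hNx (q⁻¹ * n * q) (by
        have := hNn.conj_mem n hn q⁻¹
        simpa using this)
      rw [← Module.End.mul_apply, ← _root_.map_mul]
      have h3 : n * q = q * (q⁻¹ * n * q) := by group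
      rw [h3, _root_.map_mul, Module.End.mul_apply, h2]
    have h4 := hfix _ hy α
    have h5 : D.ext q x - x = ((D.ext q x - x).1, 0) := by
      refine Prod.ext rfl ?_
      rw [Prod.snd_sub, ext_snd, sub_self]
    rw [h5, hkill] at h4
    have h6 : (D.ext q x - x).1 = 0 := htf _ hεne _ (congrArg Prod.fst h4).symm
    have h7 : D.ext q x - x = 0 := by rw [h5, h6]; rfl
    exact sub_eq_zero.1 h7
  refine ⟨ε α, -x.1, hεne, fun q => ?_⟩
  have h8 := congrArg Prod.fst (hQx q)
  rw [ext_fst, hx2] at h8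
  rw [map_neg, ← h8]
  have : D.ρ q x.1 = x.1 - ε α • D.π q := by
    rw [eq_sub_iff_add_eq]; exact h8
  rw [h8, this]
  abel

end Der

end Pool.TFR
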