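import Mathlib
import Pool.Agent.TFR.Irr

/-!
# The rank formula for arbitrary soluble groups and torsion-free modules, and the general case
-/

set_option autoImplicit false

namespace Pool.TFR

open Cardinal Polynomial
open scoped commutatorElement

namespace Der

variable {Q M : Type} [Group Q] [AddCommGroup M] (D : Der Q M)

/-- If `M / W` is torsion and `M` torsion-free of finite rank, `stab W` has full rank. -/
theorem stab_full [Group.IsSolvable Q] (hM : Module.rank ℤ M < ℵ₀) (htf : TF M)
    {W : Submodule ℤ M} (hW : D.Inv W) (h : ∀ m, ∃ n : ℤ, n ≠ 0 ∧ n • m ∈ W) :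
    r0 (D.stab hW) = r0 Q := by
  refine r0_eq_of_powers _ (fun z => ?_)
  obtain ⟨n, hn, hnz⟩ := h (D.π z)
  have hn' : ((n.natAbs : ℕ) : ℤ) • (D.quot hW).π z = 0 := by
    change ((n.natAbs : ℕ) : ℤ) • Submodule.Quotient.mk (D.π z) = 0
    rw [← Submodule.Quotient.mk_smul, Submodule.Quotient.mk_eq_zero]
    rcases Int.natAbs_eq n with h1 | h1
    · rw [← h1]; exact hnz
    · have : ((n.natAbs : ℕ) : ℤ) = -n := by omega
      rw [this, neg_smul]; exact W.neg_mem hnz
  obtain ⟨d, hd, hdz⟩ := thin_period hM htf W ((D.quot hW).ρ z) ((D.quot hW).ρ_injective z)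
    (Int.natAbs_pos.2 hn) ((D.quot hW).π z) hn'
  have h2 := (D.quot hW).pow_zero_of_fix hdz hn'
  refine ⟨d * n.natAbs, Nat.mul_pos hd (Int.natAbs_pos.2 hn), ?_⟩
  exact (Submodule.Quotient.mk_eq_zero _).1 h2

/-- the kernel of the action, extended to `M × ℤ` -/
theorem ext_eq_one {c : Q} (h1 : D.ρ c = 1) (h2 : D.π c = 0) : D.ext c = 1 := by
  refine LinearMap.ext (fun x => Prod.ext ?_ rfl)
  rw [ext_fst, h1, h2, smul_zero, add_zero]; rfl

/-- The rationally irreducible case. -/
theorem formula_irr [Group.IsSolvable Q] (hr : r0 Q < ℵ₀) (hM : Module.rank ℤ M < ℵ₀)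
    (hs : Function.Surjective D.π) (htf : TF M)
    (hirr : ∀ W : Submodule ℤ M, D.Inv W → W ≠ ⊥ → ∀ m, ∃ n : ℤ, n ≠ 0 ∧ n • m ∈ W) :
    r0 Q = r0 (D.stab D.inv_bot) + Module.rank ℤ M := by
  by_cases hker : D.kerVal = ⊥
  · -- the kernel of the action has value zero: then `M = 0`
    have hC : ∀ c, D.ρ c = 1 → D.π c = 0 := by
      intro c hc
      have : D.π c ∈ D.kerVal := ⟨c, hc, rfl⟩
      rw [hker, Submodule.mem_bot] at this
      exact this
    have hzero : ∀ x : M, x = 0 := by
      by_cases htriv : ∀ q, D.ρ q = 1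
      · intro x
        obtain ⟨q, rfl⟩ := hs x
        exact hC q (htriv q)
      · push Not at htriv
        -- the last derived subgroup acting non-trivially
        obtain ⟨m, hm⟩ := (Group.isSolvable_def Q).1 inferInstance
        have hex : ∃ i, ∀ x ∈ derivedSeries Q i, D.ρ x = 1 := by
          refine ⟨m, fun x hx => ?_⟩
          rw [hm, Subgroup.mem_bot] at hx
          rw [hx, _root_.map_one]
        classical
        have hne0 : Nat.find hex ≠ 0 := by
          intro h0
          have h1 := Nat.find_spec hex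
          rw [h0] at h1
          obtain ⟨q, hq⟩ := htriv
          exact hq (h1 q (by rw [derivedSeries_zero]; exact Subgroup.mem_top _))
        obtain ⟨i, hi⟩ := Nat.exists_eq_succ_of_ne_zero hne0
        have hspec := Nat.find_spec hex
        rw [hi] at hspec
        have hnot : ¬ ∀ x ∈ derivedSeries Q i, D.ρ x = 1 := Nat.find_min hex (by omega)
        push Not at hnot
        have hNn : (derivedSeries Q i).Normal := derivedSeries_normal Q i
        obtain ⟨n, m, hn, hprin⟩ := D.exists_principal hM htf hirr (derivedSeries Q i)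
          (fun x hx => D.ext_eq_one (hspec x hx) (hC x (hspec x hx))) (by
            obtain ⟨x, hx, hx'⟩ := hnot
            exact ⟨x, hx, hx'⟩)
        exact D.zero_of_principal hr hs htf hn m hprin
    have hrk : Module.rank ℤ M = 0 := by
      rw [rank_eq_zero_iff]
      intro x
      exact ⟨1, one_ne_zero, by rw [hzero x, smul_zero]⟩
    have hK : D.stab D.inv_bot = ⊤ := by
      ext q
      rw [D.mem_stab, Submodule.mem_bot, hzero (D.π q)]
      simp
    rw [hrk, add_zero, hK]
    exact r0_congr Subgroup.topEquiv.symm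
  · have h1 := D.stab_full hM htf D.inv_kerVal (hirr _ D.inv_kerVal hker)
    have h2 := D.r0_stab_kerVal
    have h3 : Module.rank ℤ D.kerVal = Module.rank ℤ M := by
      have h4 := rank_quotient_add_rank_of_isDomain D.kerVal
      have h5 : Module.rank ℤ (M ⧸ D.kerVal) = 0 := by
        rw [rank_eq_zero_iff]
        intro x
        obtain ⟨m, rfl⟩ := Submodule.Quotient.mk_surjective _ x
        obtain ⟨n, hn, hnm⟩ := hirr _ D.inv_kerVal hker m
        refine ⟨n, hn, ?_⟩
        rw [← Submodule.Quotient.mk_smul, Submodule.Quotient.mk_eq_zero]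
        exact hnm
      rw [← h4, h5, zero_add]
    rw [← h1, h2, h3]

/-- The isolator of a submodule. -/
def iso (W : Submodule ℤ M) : Submodule ℤ M where
  carrier := {m | ∃ n : ℤ, n ≠ 0 ∧ n • m ∈ W}
  zero_mem' := ⟨1, one_ne_zero, by rw [smul_zero]; exact W.zero_mem⟩
  add_mem' := by
    rintro a b ⟨n, hn, ha⟩ ⟨k, hk, hb⟩
    refine ⟨n * k, mul_ne_zero hn hk, ?_⟩
    rw [smul_add]
    refine W.add_mem ?_ ?_
    · rw [mul_comm, mul_smul]; exact W.smul_mem _ ha
    · rw [mul_smul]; exact W.smul_mem _ hb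
  smul_mem' := by
    rintro c a ⟨n, hn, ha⟩
    exact ⟨n, hn, by rw [smul_comm]; exact W.smul_mem _ ha⟩

theorem inv_iso {W : Submodule ℤ M} (hW : D.Inv W) : D.Inv (iso W) := by
  rintro q m ⟨n, hn, hm⟩
  exact ⟨n, hn, by rw [← map_smul]; exact hW q _ hm⟩

theorem iso_pure (W : Submodule ℤ M) : TF (M ⧸ iso W) := by
  intro n hn x hx
  obtain ⟨m, rfl⟩ := Submodule.Quotient.mk_surjective _ x
  rw [← Submodule.Quotient.mk_smul, Submodule.Quotient.mk_eq_zero] at hx
  obtain ⟨k, hk, hkm⟩ := hx
  rw [Submodule.Quotient.mk_eq_zero]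
  exact ⟨k * n, mul_ne_zero hk hn, by rw [mul_smul]; exact hkm⟩

/-- The torsion-free case for arbitrary soluble groups. -/
theorem formula_tf_aux (d : ℕ) : ∀ (Q M : Type) [Group Q] [AddCommGroup M]
    [Group.IsSolvable Q] (D : Der Q M), r0 Q < ℵ₀ → Module.rank ℤ M < ℵ₀ →
    Cardinal.toNat (Module.rank ℤ M) ≤ d →
    Function.Surjective D.π → TF M → r0 Q = r0 (D.stab D.inv_bot) + Module.rank ℤ M := by
  induction d with
  | zero =>
    intro Q M _ _ _ D hr hM hd hs htf
    refine D.formula_irr hr hM hs htf (fun W hW hWne m => ?_)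
    have h0 : Module.rank ℤ M = 0 := by
      have : Cardinal.toNat (Module.rank ℤ M) = 0 := by omega
      rcases Cardinal.toNat_eq_zero.1 this with h | h
      · exact h
      · exact absurd hM (not_lt.2 h)
    obtain ⟨n, hn, hnm⟩ := rank_eq_zero_iff.1 h0 m
    exact ⟨n, hn, by rw [hnm]; exact W.zero_mem⟩
  | succ d ih =>
    intro Q M _ _ _ D hr hM hd hs htf
    by_cases hirr : ∀ W : Submodule ℤ M, D.Inv W → W ≠ ⊥ → ∀ m, ∃ n : ℤ, n ≠ 0 ∧ n • m ∈ W
    · exact D.formula_irr hr hM hs htf hirr
    · push Not at hirr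
      obtain ⟨W0, hW0, hW0ne, m, hm⟩ := hirr
      set W := iso W0 with hWdef
      have hW : D.Inv W := D.inv_iso hW0
      have hle : W0 ≤ W := fun x hx => ⟨1, one_ne_zero, by rw [one_smul]; exact hx⟩
      have hrW : Module.rank ℤ W < ℵ₀ := lt_of_le_of_lt (Submodule.rank_le W) hM
      have hrq : Module.rank ℤ (M ⧸ W) < ℵ₀ := lt_of_le_of_lt (by
        rw [← rank_quotient_add_rank_of_isDomain W]; exact self_le_add_right _ _) hM
      have hsum := rank_quotient_add_rank_of_isDomain W
      have hsumN : Cardinal.toNat (Module.rank ℤ (M ⧸ W)) + Cardinal.toNat (Module.rank ℤ W) =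
          Cardinal.toNat (Module.rank ℤ M) := by
        rw [← Cardinal.toNat_add hrq hrW, hsum]
      have htfW : TF W := fun n hn m h => Subtype.ext (htf n hn m.1 (congrArg Subtype.val h))
      have hWpos : Cardinal.toNat (Module.rank ℤ W) ≠ 0 := by
        intro h
        rcases Cardinal.toNat_eq_zero.1 h with h | h
        · obtain ⟨x, hx, hx0⟩ := (Submodule.ne_bot_iff _).1 hW0ne
          obtain ⟨n, hn, hnx⟩ := rank_eq_zero_iff.1 h ⟨x, hle hx⟩
          exact hx0 (htf n hn x (congrArg Subtype.val hnx))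
        · exact absurd hrW (not_lt.2 h)
      have hqpos : Cardinal.toNat (Module.rank ℤ (M ⧸ W)) ≠ 0 := by
        intro h
        rcases Cardinal.toNat_eq_zero.1 h with h | h
        · obtain ⟨n, hn, hnx⟩ := rank_eq_zero_iff.1 h (Submodule.Quotient.mk m)
          have h2 := iso_pure W0 n hn _ hnx
          rw [Submodule.Quotient.mk_eq_zero] at h2
          obtain ⟨k, hk, hkm⟩ := h2
          exact hm k hk hkm
        · exact absurd hrq (not_lt.2 h)
      have e1 := ih Q (M ⧸ W) (D.quot hW) hr hrq (by omega) (D.quot_surj hW hs) (iso_pure W0)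
      rw [D.r0_quot_stab_bot hW] at e1
      have e2 := ih ↥(D.stab hW) W (D.sub hW) (lt_of_le_of_lt (r0_subgroup_le _) hr) hrW
        (by omega) (D.sub_surj hW hs) htfW
      rw [D.r0_sub_stab_bot hW] at e2
      rw [e1, e2, ← hsum]
      ring

theorem formula_tf [Group.IsSolvable Q] (hr : r0 Q < ℵ₀) (hM : Module.rank ℤ M < ℵ₀)
    (hs : Function.Surjective D.π) (htf : TF M) :
    r0 Q = r0 (D.stab D.inv_bot) + Module.rank ℤ M :=
  formula_tf_aux _ Q M D hr hM le_rfl hs htf

/-- **The general rank formula**, under the element-wise condition on the torsion submodule. -/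
theorem formula_star [Group.IsSolvable Q] (hr : r0 Q < ℵ₀) (hM : Module.rank ℤ M < ℵ₀)
    (hs : Function.Surjective D.π) (hstar : D.Star) :
    r0 Q = r0 (D.stab D.inv_bot) + Module.rank ℤ M := by
  have hsum := rank_quotient_add_rank_of_isDomain (tors M)
  rw [rank_tors, add_zero] at hsum
  have htf : TF (M ⧸ tors M) := by
    intro n hn x hx
    obtain ⟨m, rfl⟩ := Submodule.Quotient.mk_surjective _ x
    rw [← Submodule.Quotient.mk_smul, Submodule.Quotient.mk_eq_zero] at hx
    obtain ⟨k, hk, hkm⟩ := hx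
    rw [Submodule.Quotient.mk_eq_zero]
    refine ⟨k * n.natAbs, Nat.mul_pos hk (Int.natAbs_pos.2 hn), ?_⟩
    rcases Int.natAbs_eq n with h1 | h1
    · rw [Nat.cast_mul, ← h1, mul_smul]; exact hkm
    · have : ((n.natAbs : ℕ) : ℤ) = -n := by omega
      rw [Nat.cast_mul, this, mul_smul, neg_smul, smul_neg, hkm, neg_zero]
  have e1 := (D.quot D.inv_tors).formula_tf hr (by rw [hsum]; exact hM)
    (D.quot_surj D.inv_tors hs) htf
  rw [D.r0_quot_stab_bot D.inv_tors, hsum, hstar.bal hr hs] at e1
  exact e1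

end Der

end Pool.TFR
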