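import Mathlib
import Pool.Agent.TFR.Formula

/-!
# Reduction of the product formula to surjective derivations
-/

set_option autoImplicit false

namespace Pool.TFR

open Cardinal

/-- commutative group structure from commutativity -/
@[reducible] def cg (N : Type) [Group N] (h : ∀ x y : N, x * y = y * x) : CommGroup N :=
  { (inferInstance : Group N) with mul_comm := h }

section

variable {G : Type} [Group G] (N A B : Subgroup G) [hN : N.Normal]

theorem conj_mem_inf (hc : ∀ x y : N, x * y = y * x) {q : G} (hq : q ∈ N ⊔ B) (x : N)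
    (hx : x ∈ B.subgroupOf N) : MulAut.conjNormal q x ∈ B.subgroupOf N := by
  obtain ⟨n, hn, b, hb, rfl⟩ := Subgroup.mem_sup_of_normal_left.1 hq
  rw [Subgroup.mem_subgroupOf] at hx ⊢
  rw [MulAut.conjNormal_apply]
  have h1 : b * x.1 * b⁻¹ ∈ N := hN.conj_mem _ x.2 b
  have h2 : n * (b * x.1 * b⁻¹) = (b * x.1 * b⁻¹) * n :=
    congrArg Subtype.val (hc ⟨n, hn⟩ ⟨_, h1⟩)
  have h3 : n * b * x.1 * (n * b)⁻¹ = b * x.1 * b⁻¹ := by
    have : n * b * x.1 * (n * b)⁻¹ = n * (b * x.1 * b⁻¹) * n⁻¹ := by group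
    rw [this, h2]; group
  rw [h3]
  exact B.mul_mem (B.mul_mem hb hx) (B.inv_mem hb)

/-- the factor `N / (B ∩ N)` written additively -/
abbrev Fac : Type := Additive (↥N ⧸ (B.subgroupOf N))

/-- a chosen `N`-part of an element of `N ⊔ B` -/
noncomputable def nPart (q : ↥(A ⊓ (N ⊔ B))) : N :=
  ⟨(Subgroup.mem_sup_of_normal_left.1 q.2.2).choose,
    (Subgroup.mem_sup_of_normal_left.1 q.2.2).choose_spec.1⟩

theorem nPart_spec (q : ↥(A ⊓ (N ⊔ B))) : ∃ b ∈ B, (nPart N A B q : G) * b = q.1 := by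
  obtain ⟨b, hb, h⟩ := (Subgroup.mem_sup_of_normal_left.1 q.2.2).choose_spec.2
  exact ⟨b, hb, h⟩

theorem nPart_eq (q : ↥(A ⊓ (N ⊔ B))) (n : N) (b : G) (hb : b ∈ B) (h : (n : G) * b = q.1) :
    ((nPart N A B q : N) : ↥N ⧸ (B.subgroupOf N)) = (n : ↥N ⧸ (B.subgroupOf N)) := by
  obtain ⟨b', hb', h'⟩ := nPart_spec N A B q
  rw [QuotientGroup.eq, Subgroup.mem_subgroupOf]
  have : (((nPart N A B q)⁻¹ * n : N) : G) = b' * b⁻¹ := by
    rw [Subgroup.coe_mul, Subgroup.coe_inv]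
    have e1 : ((nPart N A B q : N) : G) = q.1 * b'⁻¹ := by rw [← h']; group
    have e2 : (n : G) = q.1 * b⁻¹ := by rw [← h]; group
    rw [e1, e2]; group
  rw [this]
  exact B.mul_mem hb' (B.inv_mem hb)

end

theorem reduce {G : Type} [Group G] [Group.IsSolvable G] (hr : r0 G < ℵ₀) (N : Subgroup G)
    [hN : N.Normal] (hc : ∀ x y : N, x * y = y * x) (L : Subgroup G) [L.FiniteIndex] [L.Normal]
    (hL : ∀ x ∈ ⁅L, L⁆, ∀ n ∈ N, x * n = n * x) (A B : Subgroup G)
    (hAB : ∀ g : G, ∃ a ∈ A, ∃ b ∈ B, g = a * b) :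
    r0 ↥(A ⊓ (N ⊔ B)) + r0 ↥(B.subgroupOf N) = r0 ↥(A ⊓ B) + r0 N := by
  let _ : CommGroup ↥N := cg ↥N hc
  let B' : Subgroup ↥N := B.subgroupOf N
  let Q : Subgroup G := A ⊓ (N ⊔ B)
  let ρ₁ : ↥Q → (↥N ⧸ B' →* ↥N ⧸ B') := fun q =>
    QuotientGroup.map B' B' (MulAut.conjNormal q.1 : MulAut ↥N).toMonoidHom
      (fun x hx => conj_mem_inf N B hc q.2.2 x hx)
  have hρ₁ : ∀ (q : ↥Q) (x : ↥N), ρ₁ q (x : ↥N ⧸ B') =
      ((MulAut.conjNormal q.1 x : N) : ↥N ⧸ B') := fun q x => rfl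
  let D : Der ↥Q (Additive (↥N ⧸ B')) :=
    { ρ :=
        { toFun := fun q => (MonoidHom.toAdditive (ρ₁ q)).toIntLinearMap
          map_one' := by
            ext x
            obtain ⟨n, hn⟩ := QuotientGroup.mk_surjective (Additive.toMul x)
            have : x = Additive.ofMul ((n : ↥N ⧸ B')) := hn.symm
            rw [this]
            change Additive.ofMul (ρ₁ 1 (n : ↥N ⧸ B')) = Additive.ofMul ((n : ↥N ⧸ B'))
            rw [hρ₁]
            simp
          map_mul' := by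
            intro a b
            ext x
            obtain ⟨n, hn⟩ := QuotientGroup.mk_surjective (Additive.toMul x)
            have : x = Additive.ofMul ((n : ↥N ⧸ B')) := hn.symm
            rw [this]
            change Additive.ofMul (ρ₁ (a * b) (n : ↥N ⧸ B')) =
              Additive.ofMul (ρ₁ a (ρ₁ b (n : ↥N ⧸ B')))
            rw [hρ₁, hρ₁, hρ₁]
            simp }
      π := fun q => Additive.ofMul ((nPart N A B q : N) : ↥N ⧸ B')
      map_mul := by
        intro a b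
        obtain ⟨c, hc1, hc2⟩ := nPart_spec N A B a
        obtain ⟨d, hd1, hd2⟩ := nPart_spec N A B b
        change Additive.ofMul ((nPart N A B (a * b) : N) : ↥N ⧸ B') =
          Additive.ofMul (((nPart N A B a : N) : ↥N ⧸ B') *
            ρ₁ a ((nPart N A B b : N) : ↥N ⧸ B'))
        congr 1
        rw [hρ₁, ← QuotientGroup.mk_mul]
        refine nPart_eq N A B (a * b) _ (c * d) (B.mul_mem hc1 hd1) ?_
        rw [Subgroup.coe_mul, MulAut.conjNormal_apply]
        change _ = a.1 * b.1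
        have h1 : a.1 * (nPart N A B b : G) * a.1⁻¹ ∈ N := hN.conj_mem _ (nPart N A B b).2 a.1
        have h2 : (nPart N A B a : G) * (a.1 * (nPart N A B b : G) * a.1⁻¹) =
            (a.1 * (nPart N A B b : G) * a.1⁻¹) * (nPart N A B a : G) :=
          congrArg Subtype.val (hc (nPart N A B a) ⟨_, h1⟩)
        rw [h2]
        have h3 : a.1⁻¹ * (nPart N A B a : G) * c = 1 := by
          rw [mul_assoc, hc2]; group
        have h4 : (a.1 * (nPart N A B b : G) * a.1⁻¹) * (nPart N A B a : G) * (c * d) =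
            a.1 * (nPart N A B b : G) * (a.1⁻¹ * (nPart N A B a : G) * c) * d := by group
        rw [h4, h3, mul_one, mul_assoc, hd2] }
  have hDπ : ∀ q : ↥Q, D.π q = Additive.ofMul ((nPart N A B q : N) : ↥N ⧸ B') := fun _ => rfl
  have hs : Function.Surjective D.π := by
    intro m
    obtain ⟨n, hn⟩ := QuotientGroup.mk_surjective (Additive.toMul m)
    obtain ⟨a, ha, b, hb, hab⟩ := hAB n.1
    have hq : a ∈ Q := by
      refine ⟨ha, Subgroup.mem_sup_of_normal_left.2 ⟨n.1, n.2, b⁻¹, B.inv_mem hb, ?_⟩⟩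
      rw [hab]; group
    refine ⟨⟨a, hq⟩, ?_⟩
    rw [hDπ]
    have := nPart_eq N A B ⟨a, hq⟩ n b⁻¹ (B.inv_mem hb) (by rw [hab]; group)
    rw [this]
    exact hn
  have hQr : r0 ↥Q < ℵ₀ := lt_of_le_of_lt (r0_subgroup_le Q) hr
  have hNr : r0 ↥N < ℵ₀ := lt_of_le_of_lt (r0_subgroup_le N) hr
  have hN1 : r0 ↥N = r0 ↥B' + Module.rank ℤ (Additive (↥N ⧸ B')) := by
    have := r0_add (QuotientGroup.mk' B') (QuotientGroup.mk'_surjective B')
    rw [QuotientGroup.ker_mk', r0_comm (↥N ⧸ B')] at this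
    exact this
  have hMr : Module.rank ℤ (Additive (↥N ⧸ B')) < ℵ₀ := by
    refine lt_of_le_of_lt ?_ hNr
    rw [hN1]
    exact self_le_add_left _ _
  have hform := D.formula hQr hMr (L.subgroupOf Q) (fun x hx => ?_) hs
  · have hst : r0 (D.stab D.inv_bot) = r0 ↥(A ⊓ B) := by
      refine r0_congr ?_
      have hk : ∀ q : ↥Q, q ∈ D.stab D.inv_bot ↔ q.1 ∈ B := by
        intro q
        rw [D.mem_stab, Submodule.mem_bot, hDπ]
        obtain ⟨b, hb, hb'⟩ := nPart_spec N A B q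
        constructor
        · intro h
          have h1 : nPart N A B q ∈ B' := (QuotientGroup.eq_one_iff _).1 h
          rw [← hb']
          exact B.mul_mem h1 hb
        · intro h
          have := nPart_eq N A B q 1 q.1 h (by simp)
          rw [this]; rfl
      exact
        { toFun := fun x => ⟨x.1.1, x.1.2.1, (hk _).1 x.2⟩
          invFun := fun x => ⟨⟨x.1, x.2.1, Subgroup.mem_sup_right x.2.2⟩, (hk _).2 x.2.2⟩
          left_inv := fun x => rfl
          right_inv := fun x => rfl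
          map_mul' := fun x y => rfl }
    rw [hst] at hform
    change r0 ↥Q + r0 ↥B' = _
    rw [hform, hN1]
    ring
  · have hx' : (x : G) ∈ ⁅L, L⁆ := by
      have h1 : (⁅L.subgroupOf Q, L.subgroupOf Q⁆).map Q.subtype ≤ ⁅L, L⁆ := by
        rw [Subgroup.map_commutator]
        refine Subgroup.commutator_mono ?_ ?_ <;>
        · rintro _ ⟨y, hy, rfl⟩; exact hy
      exact h1 ⟨x, hx, rfl⟩
    ext y
    obtain ⟨n, hn⟩ := QuotientGroup.mk_surjective (Additive.toMul y)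
    have : y = Additive.ofMul ((n : ↥N ⧸ B')) := hn.symm
    rw [this]
    change Additive.ofMul (ρ₁ x (n : ↥N ⧸ B')) = Additive.ofMul ((n : ↥N ⧸ B'))
    rw [hρ₁]
    have h5 : MulAut.conjNormal x.1 n = n := by
      refine Subtype.ext ?_
      rw [MulAut.conjNormal_apply, hL x.1 hx' n.1 n.2]; group
    rw [h5]

/-- The product formula. -/
def ProdFormula (G : Type) [Group G] : Prop :=
  ∀ A B : Subgroup G, (∀ g : G, ∃ a ∈ A, ∃ b ∈ B, g = a * b) →
    r0 G + r0 ↥(A ⊓ B) = r0 ↥A + r0 ↥B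

theorem r0_map_add {G H : Type} [Group G] [Group H] [Group.IsSolvable G] (f : G →* H)
    (A : Subgroup G) : r0 ↥A = r0 ↥(A ⊓ f.ker) + r0 ↥(A.map f) := by
  have := r0_add (f.subgroupMap A) (f.subgroupMap_surjective A)
  rw [this]
  congr 1
  refine r0_congr ?_
  exact
    { toFun := fun x => ⟨x.1.1, x.1.2, congrArg Subtype.val x.2⟩
      invFun := fun x => ⟨⟨x.1, x.2.1⟩, Subtype.ext x.2.2⟩
      left_inv := fun x => rfl
      right_inv := fun x => rfl
      map_mul' := fun x y => rfl }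

theorem step {G : Type} [Group G] [Group.IsSolvable G] (hr : r0 G < ℵ₀) (N : Subgroup G)
    [hN : N.Normal] (hc : ∀ x y : N, x * y = y * x) (L : Subgroup G) [L.FiniteIndex] [L.Normal]
    (hL : ∀ x ∈ ⁅L, L⁆, ∀ n ∈ N, x * n = n * x) (hF : ProdFormula (G ⧸ N)) :
    ProdFormula G := by
  intro A B hAB
  have h1 := reduce hr N hc L hL A B hAB
  let f : G →* G ⧸ N := QuotientGroup.mk' N
  have hker : f.ker = N := QuotientGroup.ker_mk' N
  have h2 := hF (A.map f) (B.map f) (by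
    intro y
    obtain ⟨g, rfl⟩ := QuotientGroup.mk'_surjective N y
    obtain ⟨a, ha, b, hb, rfl⟩ := hAB g
    exact ⟨f a, ⟨a, ha, rfl⟩, f b, ⟨b, hb, rfl⟩, by rw [map_mul]⟩)
  have hA := r0_map_add f A
  have hB := r0_map_add f B
  have hQ := r0_map_add f (A ⊓ (N ⊔ B))
  have hG := r0_add_quotient N
  rw [hker] at hA hB hQ
  have e1 : (A ⊓ (N ⊔ B)) ⊓ N = A ⊓ N := by
    rw [inf_assoc]
    congr 1
    exact inf_eq_right.2 le_sup_left
  have e2 : (A ⊓ (N ⊔ B)).map f = A.map f ⊓ B.map f := by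
    ext y
    constructor
    · rintro ⟨q, ⟨hqA, hqB⟩, rfl⟩
      refine ⟨⟨q, hqA, rfl⟩, ?_⟩
      obtain ⟨n, hn, b, hb, rfl⟩ := Subgroup.mem_sup_of_normal_left.1 hqB
      refine ⟨b, hb, ?_⟩
      rw [map_mul]
      have : f n = 1 := (QuotientGroup.eq_one_iff _).2 hn
      rw [this, one_mul]
    · rintro ⟨⟨a, ha, rfl⟩, ⟨b, hb, hab⟩⟩
      refine ⟨a, ⟨ha, Subgroup.mem_sup_of_normal_left.2 ⟨a * b⁻¹, ?_, b, hb, by group⟩⟩, rfl⟩
      rw [← hker, MonoidHom.mem_ker, map_mul, map_inv, hab, mul_inv_cancel]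
  rw [e1, e2] at hQ
  have e3 : r0 ↥(B.subgroupOf N) = r0 ↥(B ⊓ N) := by
    refine r0_congr ?_
    exact
      { toFun := fun x => ⟨x.1.1, x.2, x.1.2⟩
        invFun := fun x => ⟨⟨x.1, x.2.2⟩, x.2.1⟩
        left_inv := fun x => rfl
        right_inv := fun x => rfl
        map_mul' := fun x y => rfl }
  rw [hA, hB, hG]
  calc r0 ↥N + r0 (G ⧸ N) + r0 ↥(A ⊓ B) = (r0 ↥(A ⊓ B) + r0 ↥N) + r0 (G ⧸ N) := by ring
    _ = r0 ↥(A ⊓ (N ⊔ B)) + r0 ↥(B.subgroupOf N) + r0 (G ⧸ N) := by rw [h1]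
    _ = r0 ↥(A ⊓ N) + r0 ↥(B ⊓ N) + (r0 (G ⧸ N) + r0 ↥(A.map f ⊓ B.map f)) := by
        rw [hQ, e3]; ring
    _ = r0 ↥(A ⊓ N) + r0 ↥(B ⊓ N) + (r0 ↥(A.map f) + r0 ↥(B.map f)) := by rw [h2]
    _ = _ := by ring

end Pool.TFR
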