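import Mathlib
import Pool.Agent.TFR.TFree

/-!
# Torsion soluble groups acting faithfully on torsion-free groups of finite rank are finite
-/

set_option autoImplicit false

namespace Pool.TFR

open Cardinal

/-- A finitely generated torsion soluble group is finite. -/
theorem finite_of_fg_torsion_solvable (n : ℕ) : ∀ (G : Type) [Group G],
    derivedSeries G n = ⊥ → Group.FG G → (∀ g : G, ∃ k : ℕ, 0 < k ∧ g ^ k = 1) → Finite G := by
  induction n with
  | zero =>
    intro G _ h _ _
    have := subsingleton_of_derivedSeries_zero h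
    infer_instance
  | succ n ih =>
    intro G _ h hfg htor
    have h1 : Finite (Abelianization G) := by
      have hfg' : Group.FG (Abelianization G) := QuotientGroup.fg (commutator G)
      refine CommGroup.finite_of_fg_isMulTorsion (G := Abelianization G) ?_
      intro x
      obtain ⟨g, rfl⟩ := QuotientGroup.mk_surjective x
      obtain ⟨k, hk, hg⟩ := htor g
      change IsOfFinOrder (Abelianization.of g)
      rw [isOfFinOrder_iff_pow_eq_one]
      refine ⟨k, hk, ?_⟩
      rw [← map_pow, hg, map_one]
    have h1' : Finite (G ⧸ commutator G) := h1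
    have h2 : (commutator G).FiniteIndex := Subgroup.finiteIndex_of_finite_quotient
    have h3 : Finite ↥(commutator G) := by
      refine ih ↥(commutator G) (derivedSeries_commutator_eq_bot h) inferInstance (fun g => ?_)
      obtain ⟨k, hk, hg⟩ := htor g.1
      exact ⟨k, hk, Subtype.ext hg⟩
    have h4 := (commutator G).card_mul_index
    have h5 : Nat.card G ≠ 0 := by
      rw [← h4]
      exact mul_ne_zero Nat.card_pos.ne' h2.index_ne_zero
    exact Nat.finite_of_card_ne_zero h5

/-- separation: no nonzero element is divisible by all powers of `3` -/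
def Sep (A : Type) [AddCommGroup A] : Prop :=
  ∀ x : A, (∀ j : ℕ, ∃ y : A, x = ((3 : ℤ) ^ j) • y) → x = 0

theorem sep_of_fg {A : Type} [AddCommGroup A] [Module.Finite ℤ A] (htf : TF A) : Sep A := by
  have : Module.IsTorsionFree ℤ A := Module.IsTorsionFree.of_smul_eq_zero (fun n m h => by
    by_cases hn : n = 0
    · exact Or.inl hn
    · exact Or.inr (htf n hn m h))
  have : Module.Free ℤ A := Module.free_of_finite_type_torsion_free'
  intro x hx
  let b := Module.Free.chooseBasis ℤ A
  apply b.repr.injective
  rw [map_zero]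
  ext i
  by_contra hne
  simp only [Finsupp.coe_zero, Pi.zero_apply] at hne
  set c := b.repr x i with hc
  obtain ⟨y, hy⟩ := hx c.natAbs
  have h1 : (3 : ℤ) ^ c.natAbs ∣ c := by
    rw [hc]
    conv_rhs => rw [hy]
    rw [map_smul, Finsupp.smul_apply, smul_eq_mul]
    exact dvd_mul_right _ _
  have h2 := Int.natAbs_dvd_natAbs.2 h1
  rw [Int.natAbs_pow] at h2
  have h3 := Nat.le_of_dvd (Int.natAbs_pos.2 hne) h2
  have h4 : c.natAbs < 3 ^ c.natAbs := Nat.lt_pow_self (by norm_num)
  have h5 : (3 : ℤ).natAbs = 3 := rfl
  rw [h5] at h3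
  omega

theorem pow_sub_mem {A : Type} [AddCommGroup A] (T : Module.End ℤ A)
    (h : ∀ x, ∃ y, T x - x = (3 : ℤ) • y) (i : ℕ) (x : A) :
    ∃ y, (T ^ i) x - x = (3 : ℤ) • y := by
  induction i with
  | zero => exact ⟨0, by simp⟩
  | succ i ih =>
    obtain ⟨y, hy⟩ := ih
    obtain ⟨y', hy'⟩ := h x
    refine ⟨(T ^ i) y' + y, ?_⟩
    rw [pow_succ, Module.End.mul_apply]
    have e1 : T x = x + (3 : ℤ) • y' := by rw [← hy']; abel
    rw [e1, map_add, map_smul, smul_add, ← hy]
    abel

/-- An automorphism of finite order congruent to `1` modulo `3` is trivial. -/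
theorem eq_one_of_cong {A : Type} [AddCommGroup A] (htf : TF A) (hsep : Sep A) (k : ℕ) :
    0 < k → ∀ T : Module.End ℤ A, T ^ k = 1 → (∀ x, ∃ y, T x - x = (3 : ℤ) • y) → T = 1 := by
  induction k using Nat.recOnMul with
  | zero => intro h; omega
  | one => intro _ T hT _; simpa using hT
  | prime l hl =>
    intro _ T hT h
    have key : ∀ j : ℕ, ∀ x, ∃ y, T x - x = ((3 : ℤ) ^ (j + 1)) • y := by
      intro j
      induction j with
      | zero => intro x; simpa using h x
      | succ j ih =>
        by_cases h3 : l = 3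
        · -- `l = 3`
          subst h3
          intro x
          -- `X = T - 1`, `3 X x + 3 X² x + X³ x = 0`
          obtain ⟨y, hy⟩ := ih x
          obtain ⟨y1, hy1⟩ := ih y
          obtain ⟨y2, hy2⟩ := ih y1
          have eX : T x = x + ((3 : ℤ) ^ (j + 1)) • y := by rw [← hy]; abel
          have eY : T y = y + ((3 : ℤ) ^ (j + 1)) • y1 := by rw [← hy1]; abel
          have eZ : T y1 = y1 + ((3 : ℤ) ^ (j + 1)) • y2 := by rw [← hy2]; abel
          have h3x : T (T (T x)) = x := by
            have := congrArg (fun F : Module.End ℤ A => F x) hT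
            simpa [pow_succ] using this
          -- expand
          set q : ℤ := (3 : ℤ) ^ (j + 1) with hq
          have e : T (T (T x)) = x + (3 * q) • y + (3 * q * q) • y1 + (q * q * q) • y2 := by
            rw [eX, map_add, map_smul, eX, eY, map_add, map_add, map_smul, map_smul, map_add,
              map_smul, eX, eY, eZ]
            module
          rw [e] at h3x
          have h4 : (3 * q) • (y + q • y1) + (q * q * q) • y2 = 0 := by
            have : (3 * q) • (y + q • y1) + (q * q * q) • y2 =
                (x + (3 * q) • y + (3 * q * q) • y1 + (q * q * q) • y2) - x := by module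
            rw [this, h3x, sub_self]
          -- divide by `3 q`
          have h5 : q * q * q = (3 * q) * (3 ^ j * q) := by
            rw [hq]; ring
          have h6 : (3 * q) • (y + q • y1 + (3 ^ j * q) • y2) = 0 := by
            rw [smul_add, smul_smul (3 * q) (3 ^ j * q), ← h5]
            exact h4
          have hq0 : q ≠ 0 := pow_ne_zero _ (by norm_num)
          have h7 := htf (3 * q) (mul_ne_zero (by norm_num) hq0) _ h6
          refine ⟨-(3 ^ j • y1 + (3 ^ j * 3 ^ j) • y2), ?_⟩
          have h8 : y = -(q • y1 + (3 ^ j * q) • y2) := by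
            rw [eq_neg_iff_add_eq_zero, ← add_assoc]; exact h7
          rw [hy]
          conv_lhs => rw [h8]
          rw [hq]
          module
        · -- `l ≠ 3`
          intro x
          obtain ⟨y, hy⟩ := ih x
          have hsum : ∑ i ∈ Finset.range l, (T ^ i) (T x - x) = 0 := by
            have : ∀ n : ℕ, ∑ i ∈ Finset.range n, (T ^ i) (T x - x) = (T ^ n) x - x := by
              intro n
              induction n with
              | zero => simp
              | succ n ihn =>
                rw [Finset.sum_range_succ, ihn, map_sub, ← Module.End.mul_apply, ← pow_succ]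
                abel
            rw [this, hT]; simp
          choose z hz using fun i => pow_sub_mem T h i y
          have h2 : (l : ℤ) • (T x - x) = ((3 : ℤ) ^ (j + 2)) •
              (-∑ i ∈ Finset.range l, z i) := by
            have h3 : ∀ i, (T ^ i) (T x - x) = (T x - x) + ((3 : ℤ) ^ (j + 2)) • z i := by
              intro i
              have : (T ^ i) y = y + (3 : ℤ) • z i := by rw [← hz i]; abel
              rw [hy, map_smul, this, smul_add, smul_smul]
              congr 2
            rw [Finset.sum_congr rfl (fun i _ => h3 i), Finset.sum_add_distrib,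
              Finset.sum_const, Finset.card_range, ← Finset.smul_sum] at hsum
            rw [smul_neg, eq_neg_iff_add_eq_zero, natCast_zsmul]
            exact hsum
          have hcop : IsCoprime (l : ℤ) ((3 : ℤ) ^ (j + 2)) := by
            refine IsCoprime.pow_right ?_
            have : Nat.Coprime l 3 := (Nat.coprime_primes hl (by norm_num)).2 h3
            exact_mod_cast Nat.isCoprime_iff_coprime.2 this
          obtain ⟨a, b, hab⟩ := hcop
          refine ⟨a • (-∑ i ∈ Finset.range l, z i) + b • (T x - x), ?_⟩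
          calc T x - x = (a * l + b * (3 : ℤ) ^ (j + 2)) • (T x - x) := by rw [hab, one_smul]
            _ = a • ((l : ℤ) • (T x - x)) + b • (((3 : ℤ) ^ (j + 2)) • (T x - x)) := by
                rw [add_smul, mul_smul, mul_smul]
            _ = a • (((3 : ℤ) ^ (j + 2)) • (-∑ i ∈ Finset.range l, z i)) +
                b • (((3 : ℤ) ^ (j + 2)) • (T x - x)) := by rw [h2]
            _ = ((3 : ℤ) ^ (j + 1 + 1)) •
                (a • (-∑ i ∈ Finset.range l, z i) + b • (T x - x)) := by
                rw [smul_add, smul_comm a, smul_comm b]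
    ext x
    have := hsep (T x - x) (fun j => by
      obtain ⟨y, hy⟩ := key j x
      refine ⟨(3 : ℤ) • y, ?_⟩
      rw [hy, smul_smul, pow_succ])
    exact sub_eq_zero.1 this
  | mul a b ha hb =>
    intro hab T hT h
    have ha0 : 0 < a := Nat.pos_of_mul_pos_right hab
    have hb0 : 0 < b := Nat.pos_of_mul_pos_left hab
    have h1 : T ^ a = 1 := by
      refine hb hb0 (T ^ a) (by rw [← pow_mul]; exact hT) (fun x => ?_)
      exact pow_sub_mem T h a x
    exact ha ha0 T h1 h

/-- Bound for finite groups acting faithfully. -/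
theorem card_le_of_faithful {A H : Type} [AddCommGroup A] (hA : Module.rank ℤ A < ℵ₀)
    (htf : TF A) [Group H] [Finite H] (ρ : H →* Module.End ℤ A) (hρ : Function.Injective ρ) :
    Nat.card H ≤ (3 ^ Cardinal.toNat (Module.rank ℤ A)) ^
      (3 ^ Cardinal.toNat (Module.rank ℤ A)) := by
  classical
  obtain ⟨ι, hι, v, hv⟩ := exists_family hA
  let S : Set A := Set.range (fun x : H × ι => ρ x.1 (v x.2))
  let L : Submodule ℤ A := Submodule.span ℤ S
  have hSfin : S.Finite := Set.finite_range _
  have hLfg : Module.Finite ℤ L := Module.Finite.span_of_finite ℤ hSfin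
  have hLinv : ∀ h : H, ∀ x ∈ L, ρ h x ∈ L := by
    intro h x hx
    induction hx using Submodule.span_induction with
    | mem x hx =>
      obtain ⟨⟨g, i⟩, rfl⟩ := hx
      refine Submodule.subset_span ⟨(h * g, i), ?_⟩
      change ρ (h * g) (v i) = ρ h (ρ g (v i))
      rw [map_mul]; rfl
    | zero => rw [map_zero]; exact Submodule.zero_mem _
    | add x y _ _ hx hy => rw [map_add]; exact Submodule.add_mem _ hx hy
    | smul c x _ hx => rw [map_smul]; exact Submodule.smul_mem _ c hx
  have htfL : TF L := fun n hn m h => Subtype.ext (htf n hn m.1 (congrArg Subtype.val h))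
  have hsep : Sep L := sep_of_fg htfL
  have hspan : Submodule.span ℤ (Set.range v) ≤ L := by
    refine Submodule.span_le.2 ?_
    rintro _ ⟨i, rfl⟩
    exact Submodule.subset_span ⟨(1, i), by simp⟩
  have : Fact (Nat.Prime 3) := ⟨Nat.prime_three⟩
  let R := LinearMap.range ((3 : ℤ) • (1 : Module.End ℤ L))
  have hmemR : ∀ a : L, a ∈ R ↔ ∃ b, (3 : ℤ) • b = a := fun a => by
    rw [LinearMap.mem_range]; rfl
  let _ : Module (ZMod 3) (L ⧸ R) := AddCommGroup.zmodModule (by
    intro x
    obtain ⟨a, rfl⟩ := Submodule.Quotient.mk_surjective R x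
    rw [← natCast_zsmul, ← Submodule.Quotient.mk_smul, Submodule.Quotient.mk_eq_zero, hmemR]
    exact ⟨a, rfl⟩)
  have hLrk : Module.rank ℤ L < ℵ₀ := lt_of_le_of_lt (Submodule.rank_le L) hA
  obtain ⟨hfin, hcard⟩ := finite_of_lift hLrk htfL 3 R.mkQ.toAddMonoidHom
    (Submodule.mkQ_surjective R)
  set n := Cardinal.toNat (Module.rank ℤ A) with hn
  have hcard' : Nat.card (L ⧸ R) ≤ 3 ^ n :=
    hcard.trans (Nat.pow_le_pow_right (by norm_num)
      (Cardinal.toNat_le_toNat (Submodule.rank_le L) hA))
  have hpos : 0 < Nat.card (L ⧸ R) := Nat.card_pos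
  -- restricted endomorphisms
  let T : H → Module.End ℤ L := fun h => (ρ h).restrict (hLinv h)
  have hT : ∀ h (x : L), ((T h x : L) : A) = ρ h x.1 := fun _ _ => rfl
  have hTmul : ∀ g h, T (g * h) = T g * T h := by
    intro g h
    ext x
    change ρ (g * h) x.1 = ρ g (ρ h x.1)
    rw [map_mul]; rfl
  have hT1 : T 1 = 1 := by
    ext x
    change ρ 1 x.1 = x.1
    rw [map_one]; rfl
  have hTinj : ∀ h, T h = 1 → h = 1 := by
    intro h hh
    apply hρ
    rw [map_one]
    ext a
    obtain ⟨m, hm, hma⟩ := hv a
    have h1 : ρ h (m • a) = m • a := by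
      have := congrArg (fun F : Module.End ℤ L => ((F ⟨m • a, hspan hma⟩ : L) : A)) hh
      exact this
    have h2 : m • (ρ h a - a) = 0 := by rw [smul_sub, ← map_smul, h1, sub_self]
    exact sub_eq_zero.1 (htf m hm _ h2)
  let F : H → ((L ⧸ R) → (L ⧸ R)) := fun h => R.mapQ R (T h) (by
    intro x hx
    obtain ⟨b, rfl⟩ := (hmemR x).1 hx
    exact (hmemR _).2 ⟨T h b, by rw [map_smul]⟩)
  have hF : ∀ h (x : L), F h (Submodule.Quotient.mk x) = Submodule.Quotient.mk (T h x) :=
    fun _ _ => rfl
  have hFinj : Function.Injective F := by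
    intro g h hgh
    have h1 : T (g⁻¹ * h) = 1 := by
      refine eq_one_of_cong htfL hsep (Nat.card H) Nat.card_pos _ ?_ ?_
      · have hpow : ∀ (x : H) (k : ℕ), T x ^ k = T (x ^ k) := by
          intro x k
          induction k with
          | zero => simp [hT1]
          | succ k ih => rw [pow_succ, pow_succ, ih, hTmul]
        rw [hpow, pow_card_eq_one', hT1]
      · intro x
        have h2 := congrFun hgh (Submodule.Quotient.mk x)
        rw [hF, hF, Submodule.Quotient.eq, hmemR] at h2
        obtain ⟨y, hy⟩ := h2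
        -- `T g x - T h x = 3 y`, apply `T g⁻¹`
        refine ⟨-(T g⁻¹ y), ?_⟩
        have h3 : T g⁻¹ (T g x) = x := by
          rw [← Module.End.mul_apply, ← hTmul, inv_mul_cancel, hT1]; rfl
        have h4 : T (g⁻¹ * h) x = T g⁻¹ (T h x) := by rw [hTmul]; rfl
        have h5 : T h x = T g x - (3 : ℤ) • y := by rw [hy]; abel
        rw [h4, h5, map_sub, h3, map_smul, smul_neg]
        abel
    have := hTinj _ h1
    rwa [inv_mul_eq_one] at this
  calc Nat.card H ≤ Nat.card ((L ⧸ R) → (L ⧸ R)) := Nat.card_le_card_of_injective F hFinj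
    _ = Nat.card (L ⧸ R) ^ Nat.card (L ⧸ R) := Nat.card_fun
    _ ≤ (3 ^ n) ^ Nat.card (L ⧸ R) := Nat.pow_le_pow_left hcard' _
    _ ≤ (3 ^ n) ^ (3 ^ n) := Nat.pow_le_pow_right (by positivity) hcard'

/-- A torsion soluble group acting faithfully on a torsion-free group of finite rank is
finite. -/
theorem finite_of_torsion {A H : Type} [AddCommGroup A] (hA : Module.rank ℤ A < ℵ₀)
    (htf : TF A) [Group H] [Group.IsSolvable H] (htor : ∀ h : H, ∃ k : ℕ, 0 < k ∧ h ^ k = 1)
    (ρ : H →* Module.End ℤ A) (hρ : Function.Injective ρ) : Finite H := by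
  classical
  by_contra hinf
  rw [not_finite_iff_infinite] at hinf
  set B := (3 ^ Cardinal.toNat (Module.rank ℤ A)) ^
      (3 ^ Cardinal.toNat (Module.rank ℤ A)) with hB
  obtain ⟨s, hs⟩ := Infinite.exists_subset_card_eq H (B + 1)
  let K : Subgroup H := Subgroup.closure (s : Set H)
  have hKfg : Group.FG K := (Group.fg_iff_subgroup_fg K).2 ⟨s, rfl⟩
  obtain ⟨m, hm⟩ := (Group.isSolvable_def K).1 inferInstance
  have hKfin : Finite K := finite_of_fg_torsion_solvable m K hm hKfg (fun g => by
    obtain ⟨k, hk, hg⟩ := htor g.1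
    exact ⟨k, hk, Subtype.ext hg⟩)
  have h1 := card_le_of_faithful hA htf (ρ.comp K.subtype)
    (hρ.comp K.subtype_injective)
  have h2 : B + 1 ≤ Nat.card K := by
    have h3 : (s : Set H) ⊆ K := Subgroup.subset_closure
    have h4 : Nat.card (s : Set H) ≤ Nat.card K :=
      Nat.card_le_card_of_injective (fun x : (s : Set H) => (⟨x.1, h3 x.2⟩ : K))
        (fun x y h => Subtype.ext (congrArg (fun t : K => (t : H)) h))
    rw [Nat.card_coe_set_eq, Set.ncard_coe_finset, hs] at h4
    exact h4
  omega

end Pool.TFR
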