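import Mathlib
import Pool.Agent.TFR.TFree
import Pool.Agent.TFR.Reduce

/-!
# Reduction of the product formula, element-wise version
-/

set_option autoImplicit false

namespace Pool.TFR

open Cardinal
open scoped commutatorElement

theorem reduce2 {G : Type} [Group G] [Group.IsSolvable G] (hr : r0 G < ℵ₀) (N : Subgroup G)
    [hN : N.Normal] (hc : ∀ x y : N, x * y = y * x) (A B : Subgroup G)
    (hstar : ∀ z ∈ A ⊓ (N ⊔ B),
      (∀ n ∈ N, (∃ k : ℕ, 0 < k ∧ n ^ k ∈ B) →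
        ∃ d : ℕ, 0 < d ∧ (z ^ d * n * (z ^ d)⁻¹)⁻¹ * n ∈ B) ∨
      (∃ m : ℕ, 0 < m ∧ ∃ L : Subgroup G, L.FiniteIndex ∧ ∀ y ∈ L, ∀ n ∈ N,
        ⁅z ^ m, y⁆ * n = n * ⁅z ^ m, y⁆))
    (hAB : ∀ g : G, ∃ a ∈ A, ∃ b ∈ B, g = a * b) :
    r0 ↥(A ⊓ (N ⊔ B)) + r0 ↥(B.subgroupOf N) = r0 ↥(A ⊓ B) + r0 N := by
  let _ : CommGroup ↥N := cg ↥N hc
  let B' : Subgroup ↥N := B.subgroupOf N
  let Q : Subgroup G := A ⊓ (N ⊔ B)
  let ρ₁ : ↥Q → (↥N ⧸ B' →* ↥N ⧸ B') := fun q =>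
    QuotientGroup.map B' B' (MulAut.conjNormal q.1 : MulAut ↥N).toMonoidHom
      (fun x hx => conj_mem_inf N B hc q.2.2 x hx)
  have hρ₁ : ∀ (q : ↥Q) (x : ↥N), ρ₁ q (x : ↥N ⧸ B') =
      ((MulAut.conjNormal q.1 x : N) : ↥N ⧸ B') := fun q x => rfl
  let D : Der ↥Q (Additive (↥N ⧸ B')) :=
    { ρ :=
        { toFun := fun q => (MonoidHom.toAdditive (ρ₁ q)).toIntLinearMap
          map_one' := by
            ext x
            obtain ⟨n, hn⟩ := QuotientGroup.mk_surjective (Additive.toMul x)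
            have : x = Additive.ofMul ((n : ↥N ⧸ B')) := hn.symm
            rw [this]
            change Additive.ofMul (ρ₁ 1 (n : ↥N ⧸ B')) = Additive.ofMul ((n : ↥N ⧸ B'))
            rw [hρ₁]
            simp
          map_mul' := by
            intro a b
            ext x
            obtain ⟨n, hn⟩ := QuotientGroup.mk_surjective (Additive.toMul x)
            have : x = Additive.ofMul ((n : ↥N ⧸ B')) := hn.symm
            rw [this]
            change Additive.ofMul (ρ₁ (a * b) (n : ↥N ⧸ B')) =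
              Additive.ofMul (ρ₁ a (ρ₁ b (n : ↥N ⧸ B')))
            rw [hρ₁, hρ₁, hρ₁]
            simp }
      π := fun q => Additive.ofMul ((nPart N A B q : N) : ↥N ⧸ B')
      map_mul := by
        intro a b
        obtain ⟨c, hc1, hc2⟩ := nPart_spec N A B a
        obtain ⟨d, hd1, hd2⟩ := nPart_spec N A B b
        change Additive.ofMul ((nPart N A B (a * b) : N) : ↥N ⧸ B') =
          Additive.ofMul (((nPart N A B a : N) : ↥N ⧸ B') *
            ρ₁ a ((nPart N A B b : N) : ↥N ⧸ B'))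
        congr 1
        rw [hρ₁, ← QuotientGroup.mk_mul]
        refine nPart_eq N A B (a * b) _ (c * d) (B.mul_mem hc1 hd1) ?_
        rw [Subgroup.coe_mul, MulAut.conjNormal_apply]
        change _ = a.1 * b.1
        have h1 : a.1 * (nPart N A B b : G) * a.1⁻¹ ∈ N := hN.conj_mem _ (nPart N A B b).2 a.1
        have h2 : (nPart N A B a : G) * (a.1 * (nPart N A B b : G) * a.1⁻¹) =
            (a.1 * (nPart N A B b : G) * a.1⁻¹) * (nPart N A B a : G) :=
          congrArg Subtype.val (hc (nPart N A B a) ⟨_, h1⟩)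
        rw [h2]
        have h3 : a.1⁻¹ * (nPart N A B a : G) * c = 1 := by
          rw [mul_assoc, hc2]; group
        have h4 : (a.1 * (nPart N A B b : G) * a.1⁻¹) * (nPart N A B a : G) * (c * d) =
            a.1 * (nPart N A B b : G) * (a.1⁻¹ * (nPart N A B a : G) * c) * d := by group
        rw [h4, h3, mul_one, mul_assoc, hd2] }
  have hDπ : ∀ q : ↥Q, D.π q = Additive.ofMul ((nPart N A B q : N) : ↥N ⧸ B') := fun _ => rfl
  have hs : Function.Surjective D.π := by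
    intro m
    obtain ⟨n, hn⟩ := QuotientGroup.mk_surjective (Additive.toMul m)
    obtain ⟨a, ha, b, hb, hab⟩ := hAB n.1
    have hq : a ∈ Q := by
      refine ⟨ha, Subgroup.mem_sup_of_normal_left.2 ⟨n.1, n.2, b⁻¹, B.inv_mem hb, ?_⟩⟩
      rw [hab]; group
    refine ⟨⟨a, hq⟩, ?_⟩
    rw [hDπ]
    have := nPart_eq N A B ⟨a, hq⟩ n b⁻¹ (B.inv_mem hb) (by rw [hab]; group)
    rw [this]
    exact hn
  have hQr : r0 ↥Q < ℵ₀ := lt_of_le_of_lt (r0_subgroup_le Q) hr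
  have hNr : r0 ↥N < ℵ₀ := lt_of_le_of_lt (r0_subgroup_le N) hr
  have hN1 : r0 ↥N = r0 ↥B' + Module.rank ℤ (Additive (↥N ⧸ B')) := by
    have := r0_add (QuotientGroup.mk' B') (QuotientGroup.mk'_surjective B')
    rw [QuotientGroup.ker_mk', r0_comm (↥N ⧸ B')] at this
    exact this
  have hMr : Module.rank ℤ (Additive (↥N ⧸ B')) < ℵ₀ := by
    refine lt_of_le_of_lt ?_ hNr
    rw [hN1]
    exact self_le_add_left _ _
  have hform := D.formula_star hQr hMr hs ?_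
  · have hst : r0 (D.stab D.inv_bot) = r0 ↥(A ⊓ B) := by
      refine r0_congr ?_
      have hk : ∀ q : ↥Q, q ∈ D.stab D.inv_bot ↔ q.1 ∈ B := by
        intro q
        rw [D.mem_stab, Submodule.mem_bot, hDπ]
        obtain ⟨b, hb, hb'⟩ := nPart_spec N A B q
        constructor
        · intro h
          have h1 : nPart N A B q ∈ B' := (QuotientGroup.eq_one_iff _).1 h
          rw [← hb']
          exact B.mul_mem h1 hb
        · intro h
          have := nPart_eq N A B q 1 q.1 h (by simp)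
          rw [this]; rfl
      exact
        { toFun := fun x => ⟨x.1.1, x.1.2.1, (hk _).1 x.2⟩
          invFun := fun x => ⟨⟨x.1, x.2.1, Subgroup.mem_sup_right x.2.2⟩, (hk _).2 x.2.2⟩
          left_inv := fun x => rfl
          right_inv := fun x => rfl
          map_mul' := fun x y => rfl }
    rw [hst] at hform
    change r0 ↥Q + r0 ↥B' = _
    rw [hform, hN1]
    ring
  · rintro z
    rcases hstar z.1 z.2 with hlf | ⟨m, hm, L, hL, hfc⟩
    · left
      intro v hv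
      obtain ⟨k, hk, hkv⟩ := hv
      obtain ⟨n, hn⟩ := QuotientGroup.mk_surjective (Additive.toMul v)
      have hvn : v = Additive.ofMul ((n : ↥N ⧸ B')) := hn.symm
      have hnk : n.1 ^ k ∈ B := by
        have h1 : (((n ^ k : ↥N)) : ↥N ⧸ B') = 1 := by
          rw [hvn, natCast_zsmul] at hkv
          exact hkv
        have h2 := (QuotientGroup.eq_one_iff _).1 h1
        exact h2
      obtain ⟨d, hd, hdn⟩ := hlf n.1 n.2 ⟨k, hk, hnk⟩
      refine ⟨d, hd, ?_⟩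
      rw [hvn]
      change Additive.ofMul (ρ₁ (z ^ d) (n : ↥N ⧸ B')) = Additive.ofMul ((n : ↥N ⧸ B'))
      rw [hρ₁]
      congr 1
      rw [QuotientGroup.eq]
      change ((MulAut.conjNormal ((z ^ d : ↥Q) : G) n : ↥N)⁻¹ * n : ↥N).1 ∈ B
      rw [Subgroup.coe_mul, Subgroup.coe_inv, MulAut.conjNormal_apply]
      exact hdn
    · right
      refine ⟨m, hm, L.subgroupOf Q, inferInstance, fun y hy v _ => ?_⟩
      obtain ⟨n, hn⟩ := QuotientGroup.mk_surjective (Additive.toMul v)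
      have hvn : v = Additive.ofMul ((n : ↥N ⧸ B')) := hn.symm
      rw [hvn]
      change Additive.ofMul (ρ₁ ⁅z ^ m, y⁆ (n : ↥N ⧸ B')) = Additive.ofMul ((n : ↥N ⧸ B'))
      rw [hρ₁]
      have h5 : MulAut.conjNormal ((⁅z ^ m, y⁆ : ↥Q) : G) n = n := by
        refine Subtype.ext ?_
        rw [MulAut.conjNormal_apply]
        have h6 := hfc y.1 hy n.1 n.2
        have h7 : ((⁅z ^ m, y⁆ : ↥Q) : G) = ⁅z.1 ^ m, y.1⁆ := rfl
        rw [h7, h6]; group
      rw [h5]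

theorem step2 {G : Type} [Group G] [Group.IsSolvable G] (hr : r0 G < ℵ₀) (N : Subgroup G)
    [hN : N.Normal] (hc : ∀ x y : N, x * y = y * x)
    (hstar : ∀ A B : Subgroup G, ∀ z ∈ A ⊓ (N ⊔ B),
      (∀ n ∈ N, (∃ k : ℕ, 0 < k ∧ n ^ k ∈ B) →
        ∃ d : ℕ, 0 < d ∧ (z ^ d * n * (z ^ d)⁻¹)⁻¹ * n ∈ B) ∨
      (∃ m : ℕ, 0 < m ∧ ∃ L : Subgroup G, L.FiniteIndex ∧ ∀ y ∈ L, ∀ n ∈ N,
        ⁅z ^ m, y⁆ * n = n * ⁅z ^ m, y⁆)) (hF : ProdFormula (G ⧸ N)) :
    ProdFormula G := by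
  intro A B hAB
  have h1 := reduce2 hr N hc A B (hstar A B) hAB
  let f : G →* G ⧸ N := QuotientGroup.mk' N
  have hker : f.ker = N := QuotientGroup.ker_mk' N
  have h2 := hF (A.map f) (B.map f) (by
    intro y
    obtain ⟨g, rfl⟩ := QuotientGroup.mk'_surjective N y
    obtain ⟨a, ha, b, hb, rfl⟩ := hAB g
    exact ⟨f a, ⟨a, ha, rfl⟩, f b, ⟨b, hb, rfl⟩, by rw [map_mul]⟩)
  have hA := r0_map_add f A
  have hB := r0_map_add f B
  have hQ := r0_map_add f (A ⊓ (N ⊔ B))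
  have hG := r0_add_quotient N
  rw [hker] at hA hB hQ
  have e1 : (A ⊓ (N ⊔ B)) ⊓ N = A ⊓ N := by
    rw [inf_assoc]
    congr 1
    exact inf_eq_right.2 le_sup_left
  have e2 : (A ⊓ (N ⊔ B)).map f = A.map f ⊓ B.map f := by
    ext y
    constructor
    · rintro ⟨q, ⟨hqA, hqB⟩, rfl⟩
      refine ⟨⟨q, hqA, rfl⟩, ?_⟩
      obtain ⟨n, hn, b, hb, rfl⟩ := Subgroup.mem_sup_of_normal_left.1 hqB
      refine ⟨b, hb, ?_⟩
      rw [map_mul]
      have : f n = 1 := (QuotientGroup.eq_one_iff _).2 hn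
      rw [this, one_mul]
    · rintro ⟨⟨a, ha, rfl⟩, ⟨b, hb, hab⟩⟩
      refine ⟨a, ⟨ha, Subgroup.mem_sup_of_normal_left.2 ⟨a * b⁻¹, ?_, b, hb, by group⟩⟩, rfl⟩
      rw [← hker, MonoidHom.mem_ker, map_mul, map_inv, hab, mul_inv_cancel]
  rw [e1, e2] at hQ
  have e3 : r0 ↥(B.subgroupOf N) = r0 ↥(B ⊓ N) := by
    refine r0_congr ?_
    exact
      { toFun := fun x => ⟨x.1.1, x.2, x.1.2⟩
        invFun := fun x => ⟨⟨x.1, x.2.2⟩, x.2.1⟩
        left_inv := fun x => rfl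
        right_inv := fun x => rfl
        map_mul' := fun x y => rfl }
  rw [hA, hB, hG]
  calc r0 ↥N + r0 (G ⧸ N) + r0 ↥(A ⊓ B) = (r0 ↥(A ⊓ B) + r0 ↥N) + r0 (G ⧸ N) := by ring
    _ = r0 ↥(A ⊓ (N ⊔ B)) + r0 ↥(B.subgroupOf N) + r0 (G ⧸ N) := by rw [h1]
    _ = r0 ↥(A ⊓ N) + r0 ↥(B ⊓ N) + (r0 (G ⧸ N) + r0 ↥(A.map f ⊓ B.map f)) := by
        rw [hQ, e3]; ring
    _ = r0 ↥(A ⊓ N) + r0 ↥(B ⊓ N) + (r0 ↥(A.map f) + r0 ↥(B.map f)) := by rw [h2]
    _ = _ := by ring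

end Pool.TFR
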