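import Mathlib
import Pool.Agent.TFR.Reduce2
import Pool.Agent.TFR.MK

/-!
# Extension steps for the product formula
-/

set_option autoImplicit false

namespace Pool.TFR

open Cardinal
open scoped commutatorElement

/-- conjugation by `z` as an additive endomorphism of a commutative normal subgroup -/
theorem conj_period {G : Type} [Group G] [Group.IsSolvable G] (hr : r0 G < ℵ₀)
    (C : Subgroup G) [hC : C.Normal] (hc : ∀ x y : C, x * y = y * x)
    (htf : ∀ x ∈ C, ∀ k : ℕ, 0 < k → x ^ k = 1 → x = 1) (B : Subgroup C) (z : G)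
    (hz : ∀ x ∈ B, MulAut.conjNormal z x ∈ B) (hz' : ∀ x ∈ B, MulAut.conjNormal z⁻¹ x ∈ B)
    (n : C) (k : ℕ) (hk : 0 < k) (hn : n ^ k ∈ B) :
    ∃ d : ℕ, 0 < d ∧ (MulAut.conjNormal (z ^ d) n)⁻¹ * n ∈ B := by
  let _ : CommGroup ↥C := cg ↥C hc
  let A := Additive ↥C
  have hA : Module.rank ℤ A < ℵ₀ := by
    have h1 : r0 ↥C = ra ↥C := r0_comm ↥C
    have h2 : r0 ↥C < ℵ₀ := lt_of_le_of_lt (r0_subgroup_le C) hr
    rw [h1] at h2
    exact h2
  have htfA : TF A := by
    intro m hm a ha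
    have h1 : (Additive.toMul a) ^ m = 1 := ha
    have h2 : (Additive.toMul a) ^ m.natAbs = 1 := by
      rcases Int.natAbs_eq m with h | h
      · rw [← zpow_natCast, ← h]; exact h1
      · rw [← zpow_natCast]
        have : ((m.natAbs : ℕ) : ℤ) = -m := by omega
        rw [this, zpow_neg, h1, inv_one]
    have h3 := htf (Additive.toMul a).1 (Additive.toMul a).2 m.natAbs (Int.natAbs_pos.2 hm)
      (congrArg Subtype.val h2)
    exact Subtype.ext h3
  let W : Submodule ℤ A := AddSubgroup.toIntSubmodule (Subgroup.toAddSubgroup B)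
  have hWmem : ∀ x : C, (Additive.ofMul x : A) ∈ W ↔ x ∈ B := fun x => Iff.rfl
  let conj : G → Module.End ℤ A := fun g =>
    (MonoidHom.toAdditive (MulAut.conjNormal g : MulAut ↥C).toMonoidHom).toIntLinearMap
  have hconj : ∀ (g : G) (x : C), conj g (Additive.ofMul x) =
      Additive.ofMul (MulAut.conjNormal g x) := fun _ _ => rfl
  let T : Module.End ℤ (A ⧸ W) := W.mapQ W (conj z) (fun x hx => hz _ hx)
  let T' : Module.End ℤ (A ⧸ W) := W.mapQ W (conj z⁻¹) (fun x hx => hz' _ hx)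
  have hTT' : ∀ x, T' (T x) = x := by
    intro x
    obtain ⟨a, rfl⟩ := Submodule.Quotient.mk_surjective W x
    change Submodule.Quotient.mk (conj z⁻¹ (conj z a)) = Submodule.Quotient.mk a
    congr 1
    change Additive.ofMul (MulAut.conjNormal z⁻¹ (MulAut.conjNormal z (Additive.toMul a))) = a
    rw [← MulAut.mul_apply, ← map_mul, inv_mul_cancel, map_one]
    rfl
  have hTinj : Function.Injective T := fun x y h => by rw [← hTT' x, h, hTT']
  have hTpow : ∀ (d : ℕ) (x : C), (T ^ d) (Submodule.Quotient.mk (Additive.ofMul x)) =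
      Submodule.Quotient.mk (Additive.ofMul (MulAut.conjNormal (z ^ d) x)) := by
    intro d x
    induction d generalizing x with
    | zero => simp
    | succ d ih =>
      rw [pow_succ, Module.End.mul_apply]
      change (T ^ d) (Submodule.Quotient.mk (Additive.ofMul (MulAut.conjNormal z x))) = _
      rw [ih, ← MulAut.mul_apply, ← map_mul, ← pow_succ]
  obtain ⟨d, hd, hdn⟩ := thin_period hA htfA W T hTinj hk
    (Submodule.Quotient.mk (Additive.ofMul n)) (by
      rw [← Submodule.Quotient.mk_smul, Submodule.Quotient.mk_eq_zero, natCast_zsmul]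
      exact hn)
  refine ⟨d, hd, ?_⟩
  rw [hTpow, Submodule.Quotient.eq] at hdn
  have h1 : (MulAut.conjNormal (z ^ d) n) * n⁻¹ ∈ B := by
    have : (Additive.ofMul (MulAut.conjNormal (z ^ d) n) - Additive.ofMul n : A) =
        Additive.ofMul ((MulAut.conjNormal (z ^ d) n) * n⁻¹) := by
      rw [ofMul_mul, ofMul_inv, sub_eq_add_neg]
    rw [this] at hdn
    exact hdn
  have h2 := B.inv_mem h1
  rw [mul_inv_rev, inv_inv] at h2
  rw [hc]
  exact h2

/-- torsion-free abelian normal subgroups -/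
theorem step_tf {G : Type} [Group G] [Group.IsSolvable G] (hr : r0 G < ℵ₀) (N : Subgroup G)
    [hN : N.Normal] (hc : ∀ x y : N, x * y = y * x)
    (htf : ∀ x ∈ N, ∀ k : ℕ, 0 < k → x ^ k = 1 → x = 1)
    (hF : ProdFormula (G ⧸ N)) : ProdFormula G := by
  refine step2 hr N hc (fun A B z hz => Or.inl (fun n hn hk => ?_)) hF
  obtain ⟨k, hk, hnk⟩ := hk
  obtain ⟨d, hd, h⟩ := conj_period hr N hc htf (B.subgroupOf N) z
    (fun x hx => conj_mem_inf N B hc hz.2 x hx)
    (fun x hx => conj_mem_inf N B hc ((N ⊔ B).inv_mem hz.2) x hx) ⟨n, hn⟩ k hk hnk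
  refine ⟨d, hd, ?_⟩
  rw [Subgroup.mem_subgroupOf, Subgroup.coe_mul, Subgroup.coe_inv, MulAut.conjNormal_apply] at h
  exact h

/-- torsion abelian normal subgroups with the element-wise condition -/
theorem step_tor {G : Type} [Group G] [Group.IsSolvable G] (hr : r0 G < ℵ₀) (N : Subgroup G)
    [hN : N.Normal] (hc : ∀ x y : N, x * y = y * x)
    (hstar : ∀ g : G, (∀ n ∈ N, ∃ d : ℕ, 0 < d ∧ g ^ d * n = n * g ^ d) ∨
      (∃ m : ℕ, 0 < m ∧ ∃ L : Subgroup G, L.FiniteIndex ∧ ∀ y ∈ L, ∀ n ∈ N,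
        ⁅g ^ m, y⁆ * n = n * ⁅g ^ m, y⁆))
    (hF : ProdFormula (G ⧸ N)) : ProdFormula G := by
  refine step2 hr N hc (fun A B z hz => ?_) hF
  rcases hstar z with h | h
  · left
    intro n hn _
    obtain ⟨d, hd, hdn⟩ := h n hn
    refine ⟨d, hd, ?_⟩
    rw [hdn, mul_inv_cancel_right, inv_mul_cancel]
    exact B.one_mem
  · exact Or.inr h

/-- finite normal subgroups -/
theorem step_fin {G : Type} [Group G] [Group.IsSolvable G] (N : Subgroup G)
    [hN : N.Normal] [Finite N] (hF : ProdFormula (G ⧸ N)) : ProdFormula G := by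
  intro A B hAB
  let f : G →* G ⧸ N := QuotientGroup.mk' N
  have hker : f.ker = N := QuotientGroup.ker_mk' N
  have h2 := hF (A.map f) (B.map f) (by
    intro y
    obtain ⟨g, rfl⟩ := QuotientGroup.mk'_surjective N y
    obtain ⟨a, ha, b, hb, rfl⟩ := hAB g
    exact ⟨f a, ⟨a, ha, rfl⟩, f b, ⟨b, hb, rfl⟩, by rw [map_mul]⟩)
  have hz : ∀ X : Subgroup G, r0 ↥X = r0 ↥(X.map f) := by
    intro X
    have h3 := r0_map_add f X
    have : Finite ↥(X ⊓ f.ker) := by
      rw [hker]
      exact Finite.of_injective (fun x : ↥(X ⊓ N) => (⟨x.1, x.2.2⟩ : N))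
        (fun x y h => Subtype.ext (congrArg (fun t : N => (t : G)) h))
    rw [r0_of_finite ↥(X ⊓ f.ker), zero_add] at h3
    exact h3
  have hG : r0 G = r0 (G ⧸ N) := by
    have h3 := r0_add_quotient N
    rw [r0_of_finite ↥N, zero_add] at h3
    exact h3
  have hI : r0 ↥((A ⊓ B).map f) = r0 ↥(A.map f ⊓ B.map f) := by
    refine r0_eq_of_powers' (le_inf (Subgroup.map_mono inf_le_left)
      (Subgroup.map_mono inf_le_right)) ?_
    rintro _ ⟨⟨a, ha, rfl⟩, ⟨b, hb, hab⟩⟩
    have hmem : ∀ i : ℕ, (b ^ i)⁻¹ * a ^ i ∈ N := by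
      intro i
      rw [← hker, MonoidHom.mem_ker, map_mul, map_inv, map_pow, map_pow, hab, inv_mul_cancel]
    obtain ⟨i, j, hij, heq⟩ := Finite.exists_ne_map_eq_of_infinite
      (fun i : ℕ => (⟨(b ^ i)⁻¹ * a ^ i, hmem i⟩ : N))
    wlog hlt : i < j generalizing i j
    · exact this j i hij.symm heq.symm (lt_of_le_of_ne (not_lt.1 hlt) hij.symm)
    have heq' : (b ^ i)⁻¹ * a ^ i = (b ^ j)⁻¹ * a ^ j := congrArg Subtype.val heq
    have hkey : b ^ (j - i) = a ^ (j - i) := by
      have hb' : b ^ j = b ^ (j - i) * b ^ i := by rw [← pow_add]; congr 1; omega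
      have ha' : a ^ j = a ^ (j - i) * a ^ i := by rw [← pow_add]; congr 1; omega
      have h4 : a ^ i = b ^ i * ((b ^ j)⁻¹ * a ^ j) := by rw [← heq']; group
      rw [hb', ha'] at h4
      have h5 : a ^ i = (b ^ (j - i))⁻¹ * a ^ (j - i) * a ^ i := by
        conv_lhs => rw [h4]
        group
      have h6 : (b ^ (j - i))⁻¹ * a ^ (j - i) = 1 := by
        have := mul_right_cancel (b := a ^ i) (by rw [one_mul]; exact h5 :
          1 * a ^ i = (b ^ (j - i))⁻¹ * a ^ (j - i) * a ^ i)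
        exact this.symm
      exact (inv_mul_eq_one.1 h6)
    refine ⟨j - i, by omega, ?_⟩
    refine ⟨a ^ (j - i), ⟨A.pow_mem ha _, hkey ▸ B.pow_mem hb _⟩, ?_⟩
    rw [map_pow]
  rw [hG, hz A, hz B, hz (A ⊓ B), hI]
  exact h2

end Pool.TFR
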