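import Mathlib
import Pool.Agent.TFR.Steps

/-!
# Groups without normal torsion subgroups
-/

set_option autoImplicit false

namespace Pool.TFR

open Cardinal
open scoped commutatorElement

/-- torsion subgroup predicate -/
def IsTor {G : Type} [Group G] (S : Subgroup G) : Prop := ∀ x ∈ S, ∃ k : ℕ, 0 < k ∧ x ^ k = 1

/-- no non-trivial torsion normal subgroups -/
def NoTor (G : Type) [Group G] : Prop := ∀ S : Subgroup G, S.Normal → IsTor S → S = ⊥

theorem isTor_of_map {G H : Type} [Group G] [Group H] (f : G →* H) (S : Subgroup G)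
    (h1 : IsTor (S.map f)) (h2 : IsTor (S ⊓ f.ker)) : IsTor S := by
  intro x hx
  obtain ⟨k, hk, hk'⟩ := h1 (f x) ⟨x, hx, rfl⟩
  obtain ⟨l, hl, hl'⟩ := h2 (x ^ k) ⟨S.pow_mem hx k,
    MonoidHom.mem_ker.2 (by rw [map_pow, hk'])⟩
  exact ⟨k * l, Nat.mul_pos hk hl, by rw [pow_mul, hl']⟩

/-- the torsion radical -/
def torRad (G : Type) [Group G] : Subgroup G where
  carrier := {x | ∃ S : Subgroup G, S.Normal ∧ IsTor S ∧ x ∈ S}
  one_mem' := ⟨⊥, inferInstance, by
    intro x hx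
    rw [Subgroup.mem_bot] at hx
    exact ⟨1, one_pos, by rw [hx, one_pow]⟩, Subgroup.mem_bot.2 rfl⟩
  mul_mem' := by
    rintro x y ⟨S, hS, hSt, hx⟩ ⟨S', hS', hSt', hy⟩
    refine ⟨S ⊔ S', inferInstance, ?_, Subgroup.mul_mem_sup hx hy⟩
    refine isTor_of_map (QuotientGroup.mk' S) _ ?_ ?_
    · rintro _ ⟨z, hz, rfl⟩
      obtain ⟨s, hs, s', hs', rfl⟩ := Subgroup.mem_sup_of_normal_left.1 hz
      obtain ⟨k, hk, hk'⟩ := hSt' s' hs'
      refine ⟨k, hk, ?_⟩
      have h1 : QuotientGroup.mk' S s = 1 := (QuotientGroup.eq_one_iff _).2 hs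
      rw [map_mul, h1, one_mul, ← map_pow, hk', map_one]
    · rintro z ⟨-, hz⟩
      rw [QuotientGroup.ker_mk'] at hz
      exact hSt z hz
  inv_mem' := by
    rintro x ⟨S, hS, hSt, hx⟩
    exact ⟨S, hS, hSt, S.inv_mem hx⟩

theorem torRad_normal (G : Type) [Group G] : (torRad G).Normal := by
  refine ⟨?_⟩
  rintro x ⟨S, hS, hSt, hx⟩ g
  exact ⟨S, hS, hSt, hS.conj_mem x hx g⟩

theorem torRad_isTor (G : Type) [Group G] : IsTor (torRad G) := by
  rintro x ⟨S, hS, hSt, hx⟩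
  exact hSt x hx

theorem noTor_of_surj {G H : Type} [Group G] [Group H] (f : G →* H)
    (hf : Function.Surjective f) (h1 : IsTor f.ker) (h2 : torRad G ≤ f.ker) : NoTor H := by
  intro S hS hSt
  rw [eq_bot_iff]
  intro y hy
  obtain ⟨x, rfl⟩ := hf y
  have h3 : IsTor (S.comap f) := by
    refine isTor_of_map f _ ?_ ?_
    · rintro _ ⟨z, hz, rfl⟩
      exact hSt _ hz
    · rintro z ⟨-, hz⟩
      exact h1 z hz
  have h4 : x ∈ torRad G := ⟨S.comap f, inferInstance, h3, hy⟩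
  exact Subgroup.mem_bot.2 (h2 h4)

/-- abelian normal subgroups are torsion-free -/
theorem noTor_abelian {G : Type} [Group G] (hno : NoTor G) (X : Subgroup G) [hX : X.Normal]
    (hc : ∀ x ∈ X, ∀ y ∈ X, x * y = y * x) (x : G) (hx : x ∈ X) (k : ℕ) (hk : 0 < k)
    (hxk : x ^ k = 1) : x = 1 := by
  let S : Subgroup G :=
    { carrier := {x | x ∈ X ∧ ∃ k : ℕ, 0 < k ∧ x ^ k = 1}
      one_mem' := ⟨X.one_mem, 1, one_pos, one_pow _⟩
      mul_mem' := by
        rintro a b ⟨ha, k, hk, hk'⟩ ⟨hb, l, hl, hl'⟩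
        refine ⟨X.mul_mem ha hb, k * l, Nat.mul_pos hk hl, ?_⟩
        have hcomm : Commute a b := hc a ha b hb
        rw [hcomm.mul_pow, pow_mul, hk', one_pow, one_mul, mul_comm k l, pow_mul, hl', one_pow]
      inv_mem' := by
        rintro a ⟨ha, k, hk, hk'⟩
        exact ⟨X.inv_mem ha, k, hk, by rw [inv_pow, hk', inv_one]⟩ }
  have hS : S.Normal := by
    refine ⟨?_⟩
    rintro a ⟨ha, k, hk, hk'⟩ g
    exact ⟨hX.conj_mem a ha g, k, hk, by rw [conj_pow, hk']; group⟩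
  have h := hno S hS (fun a ha => ha.2)
  have hxS : x ∈ S := ⟨hx, k, hk, hxk⟩
  rw [h, Subgroup.mem_bot] at hxS
  exact hxS

theorem comm_pow_of_central {G : Type} [Group G] {a b c : G} (h : a * b = c * (b * a))
    (hc : c * a = a * c) (hcb : c * b = b * c) (k : ℕ) : a ^ k * b = c ^ k * (b * a ^ k) := by
  induction k with
  | zero => simp
  | succ k ih =>
    have h1 : Commute c a := hc
    have h2 : Commute c b := hcb
    calc a ^ (k + 1) * b = a ^ k * (a * b) := by rw [pow_succ, mul_assoc]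
      _ = a ^ k * (c * (b * a)) := by rw [h]
      _ = c * (a ^ k * b) * a := by
          rw [← mul_assoc, ← (h1.pow_right k).eq]; group
      _ = c * (c ^ k * (b * a ^ k)) * a := by rw [ih]
      _ = c ^ (k + 1) * (b * a ^ (k + 1)) := by rw [pow_succ', pow_succ]; group

/-- A soluble normal subgroup which is torsion over a central normal subgroup is abelian. -/
theorem central_abelian {G : Type} [Group G] (hno : NoTor G) (N C : Subgroup G) [C.Normal]
    [Group.IsSolvable ↥C] (hcent : ∀ n ∈ N, ∀ c ∈ C, n * c = c * n)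
    (hpow : ∀ c ∈ C, ∃ k : ℕ, 0 < k ∧ c ^ k ∈ N) : ∀ x ∈ C, ∀ y ∈ C, x * y = y * x := by
  classical
  have hC : C.Normal := inferInstance
  let D : ℕ → Subgroup G := fun i => (derivedSeries ↥C i).map C.subtype
  have hDn : ∀ i, (D i).Normal := fun i => by
    change ((derivedSeries ↥C i).map C.subtype).Normal
    infer_instance
  have hDC : ∀ i, D i ≤ C := by
    rintro i _ ⟨x, -, rfl⟩
    exact x.2
  let P : ℕ → Prop := fun i => ∀ x ∈ D i, ∀ c ∈ C, x * c = c * x
  have hex : ∃ i, P i := by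
    obtain ⟨m, hm⟩ := (Group.isSolvable_def ↥C).1 inferInstance
    refine ⟨m, ?_⟩
    rintro x ⟨y, hy, rfl⟩ c _
    rw [hm] at hy
    have : y = 1 := Subgroup.mem_bot.1 hy
    rw [this]; simp
  by_cases h0 : Nat.find hex = 0
  · have h1 := Nat.find_spec hex
    rw [h0] at h1
    intro x hx y hy
    refine h1 x ⟨⟨x, hx⟩, ?_, rfl⟩ y hy
    rw [derivedSeries_zero]; exact Subgroup.mem_top _
  exfalso
  obtain ⟨i, hi⟩ := Nat.exists_eq_succ_of_ne_zero h0
  have hspec := Nat.find_spec hex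
  rw [hi] at hspec
  have hnot : ¬ P i := Nat.find_min hex (by omega)
  apply hnot
  have hDn' := hDn i
  -- the centre of `C`
  let X : Subgroup G := D (i + 1)
  have hXn : X.Normal := hDn (i + 1)
  have hXab : ∀ x ∈ X, ∀ y ∈ X, x * y = y * x := fun x hx y hy => hspec x hx y (hDC _ hy)
  have hDab : ∀ x ∈ D i, ∀ y ∈ D i, x * y = y * x := by
    rintro x hx y hy
    have hc : ⁅x, y⁆ ∈ X := by
      obtain ⟨x', hx', rfl⟩ := hx
      obtain ⟨y', hy', rfl⟩ := hy
      exact ⟨⁅x', y'⁆, Subgroup.commutator_mem_commutator hx' hy', rfl⟩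
    obtain ⟨k, hk, hxk⟩ := hpow x (hDC i hx)
    have h1 : x * y = ⁅x, y⁆ * (y * x) := by rw [commutatorElement_def]; group
    have h2 := comm_pow_of_central h1 (hspec _ hc x (hDC i hx)) (hspec _ hc y (hDC i hy)) k
    have h3 : x ^ k * y = y * x ^ k := hcent _ hxk y (hDC i hy)
    rw [h3] at h2
    have h4 : ⁅x, y⁆ ^ k = 1 := by
      have : 1 * (y * x ^ k) = ⁅x, y⁆ ^ k * (y * x ^ k) := by rw [one_mul]; exact h2
      exact (mul_right_cancel this).symm
    have h5 := noTor_abelian hno X hXab _ hc k hk h4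
    rw [h1, h5, one_mul]
  intro y hy c hc
  obtain ⟨k, hk, hyk⟩ := hpow y (hDC i hy)
  have hy' : c * y * c⁻¹ ∈ D i := hDn'.conj_mem y hy c
  have h1 : (c * y * c⁻¹) ^ k = y ^ k := by
    rw [conj_pow, ← hcent _ hyk c hc, mul_inv_cancel_right]
  have h2 : ((c * y * c⁻¹) * y⁻¹) ^ k = 1 := by
    have hcomm : Commute (c * y * c⁻¹) y⁻¹ := Commute.inv_right (hDab _ hy' _ hy)
    rw [hcomm.mul_pow, h1, inv_pow, mul_inv_cancel]
  have h3 := noTor_abelian hno (D i) hDab _ ((D i).mul_mem hy' ((D i).inv_mem hy)) k hk h2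
  have h4 : c * y * c⁻¹ = y := mul_inv_eq_one.1 h3
  have h5 : c * y = y * c := mul_inv_eq_iff_eq_mul.1 h4
  exact h5.symm

theorem prodFormula_of_finite (G : Type) [Group G] [Group.IsSolvable G] [Finite G] :
    ProdFormula G := by
  intro A B _
  rw [r0_of_finite G, r0_of_finite ↥(A ⊓ B), r0_of_finite A, r0_of_finite B]

end Pool.TFR
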