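import Mathlib
import Pool.Agent.TFR.Radical

/-!
# The product formula for groups without normal torsion subgroups
-/

set_option autoImplicit false

namespace Pool.TFR

open Cardinal
open scoped commutatorElement

theorem derivedSeries_of_surj {G H : Type} [Group G] [Group H] (f : G →* H)
    (hf : Function.Surjective f) {n : ℕ} (h : ∀ x ∈ derivedSeries G n, f x = 1) :
    derivedSeries H n = ⊥ := by
  rw [← map_derivedSeries_eq hf n, Subgroup.map_eq_bot_iff]
  intro x hx
  exact MonoidHom.mem_ker.2 (h x hx)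

/-- finiteness of the induced torsion group of automorphisms -/
theorem finite_conj_range {G : Type} [Group G] [Group.IsSolvable G] (hr : r0 G < ℵ₀)
    (N T : Subgroup G) [hN : N.Normal] (hc : ∀ x y : N, x * y = y * x)
    (htf : ∀ x ∈ N, ∀ k : ℕ, 0 < k → x ^ k = 1 → x = 1)
    (hpow : ∀ t ∈ T, ∃ k : ℕ, 0 < k ∧ t ^ k ∈ N) :
    Finite ((MulAut.conjNormal : G →* MulAut N).comp T.subtype).range := by
  let _ : CommGroup ↥N := cg ↥N hc
  let A := Additive ↥N
  have hA : Module.rank ℤ A < ℵ₀ := by
    have h1 : r0 ↥N = ra ↥N := r0_comm ↥N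
    have h2 : r0 ↥N < ℵ₀ := lt_of_le_of_lt (r0_subgroup_le N) hr
    rw [h1] at h2
    exact h2
  have htfA : TF A := by
    intro m hm a ha
    have h1 : (Additive.toMul a) ^ m = 1 := ha
    have h2 : (Additive.toMul a) ^ m.natAbs = 1 := by
      rcases Int.natAbs_eq m with h | h
      · rw [← zpow_natCast, ← h]; exact h1
      · rw [← zpow_natCast]
        have : ((m.natAbs : ℕ) : ℤ) = -m := by omega
        rw [this, zpow_neg, h1, inv_one]
    have h3 := htf (Additive.toMul a).1 (Additive.toMul a).2 m.natAbs (Int.natAbs_pos.2 hm)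
      (congrArg Subtype.val h2)
    exact Subtype.ext h3
  set κ : ↥T →* MulAut ↥N := (MulAut.conjNormal : G →* MulAut N).comp T.subtype with hκ
  let e : MulAut ↥N →* Module.End ℤ A :=
    { toFun := fun φ => (MonoidHom.toAdditive φ.toMonoidHom).toIntLinearMap
      map_one' := rfl
      map_mul' := fun _ _ => rfl }
  have he : Function.Injective e := by
    intro φ φ' h
    ext x
    have := congrArg (fun F : Module.End ℤ A => Additive.toMul (F (Additive.ofMul x))) h
    exact congrArg Subtype.val this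
  have hsol : Group.IsSolvable ↥κ.range :=
    Group.isSolvable_of_surjective κ.rangeRestrict_surjective
  refine finite_of_torsion hA htfA (H := κ.range) ?_ (e.comp κ.range.subtype)
    (he.comp κ.range.subtype_injective)
  rintro ⟨_, t, rfl⟩
  obtain ⟨k, hk, htk⟩ := hpow t.1 t.2
  refine ⟨k, hk, Subtype.ext ?_⟩
  change κ t ^ k = 1
  rw [← map_pow]
  ext x
  rw [hκ]
  change (MulAut.conjNormal ((t ^ k : ↥T) : G) x : N).1 = x.1
  rw [MulAut.conjNormal_apply, Subgroup.coe_pow]
  have : t.1 ^ k * x.1 = x.1 * t.1 ^ k := congrArg Subtype.val (hc ⟨_, htk⟩ x)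
  rw [this, mul_inv_cancel_right]

theorem formula_noTor (n : ℕ) : ∀ (G : Type) [Group G] [Group.IsSolvable G],
    derivedSeries G n = ⊥ → r0 G < ℵ₀ → NoTor G → ProdFormula G := by
  induction n with
  | zero =>
    intro G _ _ h _ _
    have := subsingleton_of_derivedSeries_zero h
    exact prodFormula_of_finite G
  | succ n ih =>
    intro G _ _ h hr hno
    set N := derivedSeries G n with hNdef
    have hN : N.Normal := derivedSeries_normal G n
    have hcN : ∀ x ∈ N, ∀ y ∈ N, x * y = y * x := by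
      intro x hx y hy
      have h1 : ⁅x, y⁆ ∈ derivedSeries G (n + 1) := Subgroup.commutator_mem_commutator hx hy
      rw [h, Subgroup.mem_bot, commutatorElement_eq_one_iff_mul_comm] at h1
      exact h1
    have hc : ∀ x y : N, x * y = y * x := fun x y => Subtype.ext (hcN x.1 x.2 y.1 y.2)
    have htfN : ∀ x ∈ N, ∀ k : ℕ, 0 < k → x ^ k = 1 → x = 1 :=
      fun x hx k hk hxk => noTor_abelian hno N hcN x hx k hk hxk
    refine step_tf hr N hc htfN ?_
    -- the quotient `G₁ = G / N`
    let f : G →* G ⧸ N := QuotientGroup.mk' N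
    have hf : Function.Surjective f := QuotientGroup.mk'_surjective N
    have hker : ∀ x, f x = 1 ↔ x ∈ N := fun x => QuotientGroup.eq_one_iff x
    have hr1 : r0 (G ⧸ N) < ℵ₀ := lt_of_le_of_lt (r0_le_of_surjective f hf) hr
    let T1 : Subgroup (G ⧸ N) := torRad (G ⧸ N)
    have hT1n : T1.Normal := torRad_normal _
    let T : Subgroup G := T1.comap f
    have hTn : T.Normal := inferInstance
    have hNT : N ≤ T := fun x hx => by
      change f x ∈ T1
      rw [(hker x).2 hx]; exact T1.one_mem
    have hTpow : ∀ t ∈ T, ∃ k : ℕ, 0 < k ∧ t ^ k ∈ N := by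
      intro t ht
      obtain ⟨k, hk, hk'⟩ := torRad_isTor (G ⧸ N) (f t) ht
      exact ⟨k, hk, (hker _).1 (by rw [map_pow, hk'])⟩
    let C : Subgroup G := Subgroup.centralizer (N : Set G) ⊓ T
    have hCn : C.Normal := inferInstance
    have hNC : N ≤ C := le_inf (fun x hx => by
      rw [Subgroup.mem_centralizer_iff]
      exact fun y hy => hcN y hy x hx) hNT
    have hCc : ∀ x ∈ C, ∀ y ∈ C, x * y = y * x := by
      refine central_abelian hno N C (fun m hm c hc' => ?_) (fun c hc' => hTpow c hc'.2)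
      exact (Subgroup.mem_centralizer_iff.1 hc'.1) m hm
    have hCc' : ∀ x y : C, x * y = y * x := fun x y => Subtype.ext (hCc x.1 x.2 y.1 y.2)
    have htfC : ∀ x ∈ C, ∀ k : ℕ, 0 < k → x ^ k = 1 → x = 1 :=
      fun x hx k hk hxk => noTor_abelian hno C hCc x hx k hk hxk
    let C1 : Subgroup (G ⧸ N) := C.map f
    have hC1n : C1.Normal := hCn.map f hf
    have hC1T : C1 ≤ T1 := by
      rintro _ ⟨c, hc', rfl⟩
      exact hc'.2
    refine step_tor hr1 C1 ?_ ?_ ?_
    · rintro ⟨_, x, hx, rfl⟩ ⟨_, y, hy, rfl⟩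
      refine Subtype.ext ?_
      change f x * f y = f y * f x
      rw [← map_mul, ← map_mul, hCc x hx y hy]
    · intro g
      left
      rintro _ ⟨c, hc', rfl⟩
      obtain ⟨g, rfl⟩ := hf g
      obtain ⟨k, hk, hck⟩ := hTpow c hc'.2
      have hmem : ∀ g : G, ∀ x ∈ N.subgroupOf C, MulAut.conjNormal g x ∈ N.subgroupOf C := by
        intro g x hx
        rw [Subgroup.mem_subgroupOf] at hx ⊢
        rw [MulAut.conjNormal_apply]
        exact hN.conj_mem _ hx g
      obtain ⟨d, hd, hdc⟩ := conj_period hr C hCc' htfC (N.subgroupOf C) g (hmem g) (hmem g⁻¹)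
        ⟨c, hc'⟩ k hk hck
      refine ⟨d, hd, ?_⟩
      rw [Subgroup.mem_subgroupOf, Subgroup.coe_mul, Subgroup.coe_inv,
        MulAut.conjNormal_apply] at hdc
      have h1 := (hker _).2 hdc
      rw [map_mul, map_inv, inv_mul_eq_one, map_mul, map_mul, map_inv, map_pow] at h1
      exact mul_inv_eq_iff_eq_mul.1 h1
    · -- the quotient `G₂ = G₁ / C₁`
      let f1 : G ⧸ N →* (G ⧸ N) ⧸ C1 := QuotientGroup.mk' C1
      have hf1 : Function.Surjective f1 := QuotientGroup.mk'_surjective C1
      have hker1 : ∀ x, f1 x = 1 ↔ x ∈ C1 := fun x => QuotientGroup.eq_one_iff x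
      let T2 : Subgroup ((G ⧸ N) ⧸ C1) := T1.map f1
      have hT2n : T2.Normal := hT1n.map f1 hf1
      have hT2fin : Finite T2 := by
        have hfin := finite_conj_range hr N T hc htfN hTpow
        let κ : ↥T →* MulAut ↥N := (MulAut.conjNormal : G →* MulAut N).comp T.subtype
        let j : ↥T →* (G ⧸ N) ⧸ C1 := (f1.comp f).comp T.subtype
        have hle : κ.ker ≤ j.ker := by
          intro t ht
          rw [MonoidHom.mem_ker] at ht ⊢
          change f1 (f t.1) = 1
          rw [hker1]
          refine ⟨t.1, ⟨Subgroup.mem_centralizer_iff.2 ?_, t.2⟩, rfl⟩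
          intro m hm
          have h1 := congrArg (fun φ : MulAut ↥N => (φ ⟨m, hm⟩ : N).1) ht
          change (MulAut.conjNormal t.1 (⟨m, hm⟩ : N) : N).1 = m at h1
          rw [MulAut.conjNormal_apply] at h1
          exact (mul_inv_eq_iff_eq_mul.1 h1).symm
        have hfq : Finite (↥T ⧸ κ.ker) :=
          Finite.of_equiv _ (QuotientGroup.quotientKerEquivRange κ).symm.toEquiv
        let j' : ↥T ⧸ κ.ker →* (G ⧸ N) ⧸ C1 := QuotientGroup.lift κ.ker j hle
        have hr' : Set.Finite (Set.range j') := Set.finite_range j'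
        refine Set.Finite.subset hr' ?_
        rintro _ ⟨x, hx, rfl⟩
        obtain ⟨g, rfl⟩ := hf x
        exact ⟨((⟨g, hx⟩ : ↥T) : ↥T ⧸ κ.ker), rfl⟩
      refine step_fin T2 ?_
      -- the quotient `G₃ = G₂ / T₂`
      let f2 : (G ⧸ N) ⧸ C1 →* ((G ⧸ N) ⧸ C1) ⧸ T2 := QuotientGroup.mk' T2
      have hf2 : Function.Surjective f2 := QuotientGroup.mk'_surjective T2
      have hker2 : ∀ x, f2 x = 1 ↔ x ∈ T2 := fun x => QuotientGroup.eq_one_iff x
      have hr3 : r0 (((G ⧸ N) ⧸ C1) ⧸ T2) < ℵ₀ :=
        lt_of_le_of_lt (r0_le_of_surjective ((f2.comp f1).comp f)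
          ((hf2.comp hf1).comp hf)) hr
      refine ih _ (derivedSeries_of_surj ((f2.comp f1).comp f) ((hf2.comp hf1).comp hf) ?_)
        hr3 ?_
      · intro x hx
        change f2 (f1 (f x)) = 1
        rw [(hker x).2 hx, map_one, map_one]
      · have hkerT : ∀ x, (f2.comp f1) x = 1 ↔ x ∈ T1 := by
          intro x
          change f2 (f1 x) = 1 ↔ _
          rw [hker2]
          constructor
          · rintro ⟨t, ht, htx⟩
            have h1 : f1 (t⁻¹ * x) = 1 := by
              rw [map_mul, map_inv, htx, inv_mul_cancel]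
            have h2 := hC1T ((hker1 _).1 h1)
            have h3 := T1.mul_mem ht h2
            rwa [mul_inv_cancel_left] at h3
          · intro hx
            exact ⟨x, hx, rfl⟩
        refine noTor_of_surj (f2.comp f1) (hf2.comp hf1) ?_ ?_
        · intro x hx
          exact torRad_isTor _ x ((hkerT x).1 hx)
        · intro x hx
          exact (hkerT x).2 hx

end Pool.TFR
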