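import Mathlib
import Pool.Agent.TFR.Base

/-!
# The product formula: hyper-version for the torsion radical
-/

set_option autoImplicit false

namespace Pool.TFR

open Cardinal
open scoped commutatorElement

/-- A finite set witnessing the rank. -/
theorem exists_witness (n : ℕ) : ∀ (G : Type) [Group G], derivedSeries G n = ⊥ → r0 G < ℵ₀ →
    ∃ S : Finset G, ∀ H : Subgroup G, (∀ s ∈ S, s ∈ H) → r0 H = r0 G := by
  induction n with
  | zero =>
    intro G _ h _
    have := subsingleton_of_derivedSeries_zero h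
    exact ⟨∅, fun H _ => by rw [r0_of_subsingleton, r0_of_subsingleton]⟩
  | succ n ih =>
    intro G _ h hr
    classical
    have hsol : Group.IsSolvable G := (Group.isSolvable_def G).2 ⟨_, h⟩
    have hG' : derivedSeries ↥(commutator G) n = ⊥ := derivedSeries_commutator_eq_bot h
    obtain ⟨S', hS'⟩ := ih ↥(commutator G) hG' (lt_of_le_of_lt (r0_subgroup_le _) hr)
    have hab : Module.rank ℤ (Additive (Abelianization G)) < ℵ₀ := by
      refine lt_of_le_of_lt ?_ hr
      rw [r0_eq_rab_add G]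
      exact self_le_add_right _ _
    obtain ⟨ι, hι, v, hv⟩ := exists_family hab
    choose w hw using fun i => QuotientGroup.mk_surjective (s := commutator G)
      (Additive.toMul (v i))
    refine ⟨S'.image Subtype.val ∪ Finset.univ.image w, fun H hH => ?_⟩
    let φ : H →* Abelianization G := Abelianization.of.comp H.subtype
    have e1 : r0 H = r0 φ.ker + r0 φ.range := r0_add_range φ
    have e2 : r0 φ.ker = r0 ↥(H.subgroupOf (commutator G)) := by
      refine r0_congr ?_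
      refine
        { toFun := fun x => ⟨⟨x.1.1, (QuotientGroup.eq_one_iff _).1 x.2⟩, x.1.2⟩
          invFun := fun x => ⟨⟨x.1.1, x.2⟩, (QuotientGroup.eq_one_iff _).2 x.1.2⟩
          left_inv := fun x => rfl
          right_inv := fun x => rfl
          map_mul' := fun x y => rfl }
    have e3 : r0 ↥(H.subgroupOf (commutator G)) = r0 ↥(commutator G) := by
      refine hS' _ (fun s hs => ?_)
      rw [Subgroup.mem_subgroupOf]
      refine hH _ ?_
      rw [Finset.mem_union]
      exact Or.inl (Finset.mem_image_of_mem _ hs)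
    have e4 : r0 φ.range = rab G := by
      rw [r0_comm]
      refine ra_eq_of_powers φ.range.subtype Subtype.val_injective (fun b => ?_)
      obtain ⟨m, hm, hmb⟩ := hv (Additive.ofMul b)
      rw [Subgroup.range_subtype]
      -- the span of the `v i` lies in the range
      have hspan : ∀ x ∈ Submodule.span ℤ (Set.range v), Additive.toMul x ∈ φ.range := by
        intro x hx
        induction hx using Submodule.span_induction with
        | mem x hx =>
          obtain ⟨i, rfl⟩ := hx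
          refine ⟨⟨w i, hH _ ?_⟩, hw i⟩
          rw [Finset.mem_union]
          exact Or.inr (Finset.mem_image_of_mem _ (Finset.mem_univ i))
        | zero => exact φ.range.one_mem
        | add x y _ _ hx hy => exact φ.range.mul_mem hx hy
        | smul c x _ hx => exact φ.range.zpow_mem hx c
      have h1 : b ^ m ∈ φ.range := hspan _ hmb
      refine ⟨m.natAbs, Int.natAbs_pos.2 hm, ?_⟩
      rcases Int.natAbs_eq m with h2 | h2
      · rw [← zpow_natCast, ← h2]; exact h1
      · rw [← zpow_natCast]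
        have : ((m.natAbs : ℕ) : ℤ) = -m := by omega
        rw [this, zpow_neg]
        exact φ.range.inv_mem h1
    rw [e1, e2, e3, e4, r0_eq_rab_add G, add_comm]

theorem r0_of_isTor {G : Type} [Group G] [Group.IsSolvable G] (S : Subgroup G) (h : IsTor S) :
    r0 S = 0 := by
  have h1 := r0_eq_of_powers (⊥ : Subgroup S) (fun g => by
    obtain ⟨k, hk, hk'⟩ := h g.1 g.2
    exact ⟨k, hk, by rw [Subgroup.mem_bot]; exact Subtype.ext hk'⟩)
  rw [← h1, r0_of_subsingleton]

theorem r0_map_tor {G H : Type} [Group G] [Group H] [Group.IsSolvable G] (f : G →* H)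
    (hf : IsTor f.ker) (A : Subgroup G) : r0 ↥A = r0 ↥(A.map f) := by
  rw [r0_map_add f A, r0_of_isTor (A ⊓ f.ker) (fun x hx => hf x hx.2), zero_add]

theorem map_inf_sup {G H : Type} [Group G] [Group H] (f : G →* H) (N' A B : Subgroup G)
    [N'.Normal] [(N'.map f).Normal] (hker : f.ker ≤ N') :
    (A ⊓ (N' ⊔ B)).map f = A.map f ⊓ (N'.map f ⊔ B.map f) := by
  ext y
  constructor
  · rintro ⟨q, ⟨hqA, hqB⟩, rfl⟩
    refine ⟨⟨q, hqA, rfl⟩, ?_⟩
    have : f q ∈ (N' ⊔ B).map f := ⟨q, hqB, rfl⟩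
    rw [Subgroup.map_sup] at this
    exact this
  · rintro ⟨⟨a, ha, rfl⟩, hab⟩
    refine ⟨a, ⟨ha, ?_⟩, rfl⟩
    rw [← Subgroup.map_sup] at hab
    obtain ⟨c, hc, hca⟩ := hab
    have h1 : a * c⁻¹ ∈ N' := hker (by
      rw [MonoidHom.mem_ker, map_mul, map_inv, hca, mul_inv_cancel])
    have h2 : a = (a * c⁻¹) * c := by group
    rw [h2]
    exact (N' ⊔ B).mul_mem (Subgroup.mem_sup_left h1) hc

theorem map_inf_ker {G H : Type} [Group G] [Group H] (f : G →* H) (A B : Subgroup G)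
    (N : Subgroup G) [N.Normal] (hker : f.ker = N) :
    (A ⊓ (N ⊔ B)).map f = A.map f ⊓ B.map f := by
  ext y
  constructor
  · rintro ⟨q, ⟨hqA, hqB⟩, rfl⟩
    refine ⟨⟨q, hqA, rfl⟩, ?_⟩
    obtain ⟨n, hn, b, hb, rfl⟩ := Subgroup.mem_sup_of_normal_left.1 hqB
    refine ⟨b, hb, ?_⟩
    rw [map_mul]
    have : f n = 1 := by rw [← MonoidHom.mem_ker, hker]; exact hn
    rw [this, one_mul]
  · rintro ⟨⟨a, ha, rfl⟩, ⟨b, hb, hab⟩⟩
    refine ⟨a, ⟨ha, Subgroup.mem_sup_of_normal_left.2 ⟨a * b⁻¹, ?_, b, hb, by group⟩⟩, rfl⟩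
    rw [← hker, MonoidHom.mem_ker, map_mul, map_inv, hab, mul_inv_cancel]

/-- the torsion radical can be factored out step by step -/
theorem radical_step {G : Type} [Group G] [Group.IsSolvable G] (hr : r0 G < ℵ₀)
    (T : Subgroup G) (hTt : IsTor T)
    (hstar : ∀ N : Subgroup G, N.Normal → N < T → ∃ N' : Subgroup G, N'.Normal ∧ N < N' ∧
      N' ≤ T ∧ (∀ x ∈ N', ∀ y ∈ N', ⁅x, y⁆ ∈ N) ∧
      ∀ g : G, (∀ x ∈ N', ∃ d : ℕ, 0 < d ∧ ⁅g ^ d, x⁆ ∈ N) ∨
        (∃ m : ℕ, 0 < m ∧ ∃ L : Subgroup G, L.FiniteIndex ∧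
          ∀ y ∈ L, ∀ x ∈ N', ⁅⁅g ^ m, y⁆, x⁆ ∈ N))
    (A B : Subgroup G) (hAB : ∀ g : G, ∃ a ∈ A, ∃ b ∈ B, g = a * b) :
    r0 ↥(A ⊓ (T ⊔ B)) = r0 ↥(A ⊓ B) := by
  classical
  let P : Subgroup G → Prop := fun N => N.Normal ∧ N ≤ T ∧ r0 ↥(A ⊓ (N ⊔ B)) = r0 ↥(A ⊓ B)
  have hzorn : ∃ N, Maximal P N := by
    refine zorn_le₀ {N | P N} (fun c hc hchain => ?_)
    by_cases hne : c.Nonempty
    · -- union of a chain
      have hdir : DirectedOn (· ≤ ·) c := hchain.directedOn
      let U : Subgroup G := sSup c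
      have hmemU : ∀ x, x ∈ U ↔ ∃ N ∈ c, x ∈ N := fun x =>
        Subgroup.mem_sSup_of_directedOn hne hdir
      have hUn : U.Normal := by
        refine ⟨fun x hx g => ?_⟩
        obtain ⟨N, hN, hxN⟩ := (hmemU x).1 hx
        exact (hmemU _).2 ⟨N, hN, (hc hN).1.conj_mem x hxN g⟩
      refine ⟨U, ⟨hUn, fun x hx => ?_, ?_⟩, fun N hN => le_sSup hN⟩
      · obtain ⟨N, hN, hxN⟩ := (hmemU x).1 hx
        exact (hc hN).2.1 hxN
      · -- continuity of the rank
        let X : Subgroup G := A ⊓ (U ⊔ B)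
        obtain ⟨m, hm⟩ := (Group.isSolvable_def ↥X).1 inferInstance
        obtain ⟨S, hS⟩ := exists_witness m ↥X hm (lt_of_le_of_lt (r0_subgroup_le X) hr)
        -- a member of the chain containing all witnesses
        have hfind : ∃ N ∈ c, ∀ s ∈ S, (s : G) ∈ A ⊓ (N ⊔ B) := by
          clear hS
          induction S using Finset.induction_on with
          | empty =>
            obtain ⟨N, hN⟩ := hne
            exact ⟨N, hN, fun s hs => absurd hs (Finset.notMem_empty s)⟩
          | insert a S _ ihS =>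
            obtain ⟨N, hN, hNS⟩ := ihS
            obtain ⟨n, hn, b, hb, hab⟩ := Subgroup.mem_sup_of_normal_left.1 a.2.2
            obtain ⟨N2, hN2, hnN2⟩ := (hmemU n).1 hn
            obtain ⟨N3, hN3, h1, h2⟩ := hdir N hN N2 hN2
            refine ⟨N3, hN3, fun s hs => ?_⟩
            rcases Finset.mem_insert.1 hs with rfl | hs
            · refine ⟨s.2.1, ?_⟩
              rw [← hab]
              exact (N3 ⊔ B).mul_mem (Subgroup.mem_sup_left (h2 hnN2))
                (Subgroup.mem_sup_right hb)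
            · exact ⟨(hNS s hs).1, sup_le_sup_right h1 B (hNS s hs).2⟩
        obtain ⟨N, hN, hNS⟩ := hfind
        have h1 := hS ((A ⊓ (N ⊔ B)).subgroupOf X) (fun s hs => by
          rw [Subgroup.mem_subgroupOf]; exact hNS s hs)
        have h2 : A ⊓ (N ⊔ B) ≤ X := inf_le_inf_left A (sup_le_sup_right (le_sSup hN) B)
        have h3 : r0 ↥((A ⊓ (N ⊔ B)).subgroupOf X) = r0 ↥(A ⊓ (N ⊔ B)) :=
          r0_congr (Subgroup.subgroupOfEquivOfLe h2)
        change r0 ↥X = _
        rw [← h1, h3]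
        exact (hc hN).2.2
    · rw [Set.not_nonempty_iff_eq_empty] at hne
      subst hne
      refine ⟨⊥, ⟨inferInstance, bot_le, ?_⟩, fun N hN => absurd hN (Set.notMem_empty N)⟩
      rw [bot_sup_eq]
  obtain ⟨N, ⟨hNn, hNT, hNr⟩, hmax⟩ := hzorn
  by_cases hNeq : N = T
  · rw [← hNeq]; exact hNr
  exfalso
  obtain ⟨N', hN'n, hlt, hN'T, hab, hst⟩ := hstar N hNn (lt_of_le_of_ne hNT hNeq)
  have hP : P N' := by
    refine ⟨hN'n, hN'T, ?_⟩
    let f : G →* G ⧸ N := QuotientGroup.mk' N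
    have hf : Function.Surjective f := QuotientGroup.mk'_surjective N
    have hker : f.ker = N := QuotientGroup.ker_mk' N
    have hkt : IsTor f.ker := fun x hx => hTt x (hNT (hker ▸ hx))
    have hmem : ∀ x, f x = 1 ↔ x ∈ N := fun x => QuotientGroup.eq_one_iff x
    let F : Subgroup (G ⧸ N) := N'.map f
    have hFn : F.Normal := hN'n.map f hf
    have hFt : IsTor F := by
      rintro _ ⟨x, hx, rfl⟩
      obtain ⟨k, hk, hk'⟩ := hTt x (hN'T hx)
      exact ⟨k, hk, by rw [← map_pow, hk', map_one]⟩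
    have hcomm : ∀ u v : G, ⁅u, v⁆ ∈ N → f u * f v = f v * f u := by
      intro u v huv
      rw [← hmem, map_commutatorElement, commutatorElement_eq_one_iff_mul_comm] at huv
      exact huv
    have hred := reduce2 (lt_of_le_of_lt (r0_le_of_surjective f hf) hr) F
      (by
        rintro ⟨_, x, hx, rfl⟩ ⟨_, y, hy, rfl⟩
        exact Subtype.ext (hcomm x y (hab x hx y hy)))
      (A.map f) (B.map f) (by
        intro z _
        obtain ⟨g, rfl⟩ := hf z
        rcases hst g with h | ⟨m, hm, L, hL, h⟩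
        · left
          rintro _ ⟨x, hx, rfl⟩ _
          obtain ⟨d, hd, hdx⟩ := h x hx
          refine ⟨d, hd, ?_⟩
          rw [← map_pow, hcomm _ _ hdx, mul_inv_cancel_right, inv_mul_cancel]
          exact Subgroup.one_mem _
        · right
          refine ⟨m, hm, L.map f, ⟨fun h0 => hL.index_ne_zero (Nat.eq_zero_of_zero_dvd
            (h0 ▸ L.index_map_dvd hf))⟩, ?_⟩
          rintro _ ⟨y, hy, rfl⟩ _ ⟨x, hx, rfl⟩
          rw [← map_pow, ← map_commutatorElement]
          exact hcomm _ _ (h y hy x hx)) (by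
        intro y
        obtain ⟨g, rfl⟩ := hf y
        obtain ⟨a, ha, b, hb, rfl⟩ := hAB g
        exact ⟨f a, ⟨a, ha, rfl⟩, f b, ⟨b, hb, rfl⟩, by rw [map_mul]⟩)
    have hF0 : r0 F = 0 := r0_of_isTor F hFt
    have hF1 : r0 ↥((B.map f).subgroupOf F) = 0 := by
      have : r0 ↥((B.map f).subgroupOf F) ≤ r0 ↥F := r0_subgroup_le _
      rw [hF0] at this
      exact le_antisymm this zero_le
    rw [hF0, hF1, add_zero, add_zero] at hred
    rw [r0_map_tor f hkt (A ⊓ (N' ⊔ B)), map_inf_sup f N' A B (by rw [hker]; exact hlt.le),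
      hred, ← map_inf_ker f A B N hker, ← r0_map_tor f hkt, hNr]
  exact absurd (hmax hP hlt.le) (not_le_of_gt hlt)

/-- **Main theorem.** -/
theorem main3 (G : Type) [Group G] [Group.IsSolvable G] (hr : r0 G < ℵ₀)
    (T : Subgroup G) (hTn : T.Normal) (hTt : IsTor T)
    (hTmax : ∀ S : Subgroup G, S.Normal → IsTor S → S ≤ T)
    (hstar : ∀ N : Subgroup G, N.Normal → N < T → ∃ N' : Subgroup G, N'.Normal ∧ N < N' ∧
      N' ≤ T ∧ (∀ x ∈ N', ∀ y ∈ N', ⁅x, y⁆ ∈ N) ∧
      ∀ g : G, (∀ x ∈ N', ∃ d : ℕ, 0 < d ∧ ⁅g ^ d, x⁆ ∈ N) ∨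
        (∃ m : ℕ, 0 < m ∧ ∃ L : Subgroup G, L.FiniteIndex ∧
          ∀ y ∈ L, ∀ x ∈ N', ⁅⁅g ^ m, y⁆, x⁆ ∈ N)) :
    ProdFormula G := by
  intro A B hAB
  have h1 := radical_step hr T hTt hstar A B hAB
  let f : G →* G ⧸ T := QuotientGroup.mk' T
  have hf : Function.Surjective f := QuotientGroup.mk'_surjective T
  have hker : f.ker = T := QuotientGroup.ker_mk' T
  have hkt : IsTor f.ker := fun x hx => hTt x (hker ▸ hx)
  have hno : NoTor (G ⧸ T) := by
    refine noTor_of_surj f hf hkt ?_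
    rintro x ⟨S, hS, hSt, hx⟩
    rw [hker]
    exact hTmax S hS hSt hx
  obtain ⟨m, hm⟩ := (Group.isSolvable_def (G ⧸ T)).1 inferInstance
  have h2 := formula_noTor m (G ⧸ T) hm (lt_of_le_of_lt (r0_le_of_surjective f hf) hr) hno
    (A.map f) (B.map f) (by
      intro y
      obtain ⟨g, rfl⟩ := hf y
      obtain ⟨a, ha, b, hb, rfl⟩ := hAB g
      exact ⟨f a, ⟨a, ha, rfl⟩, f b, ⟨b, hb, rfl⟩, by rw [map_mul]⟩)
  have hG : r0 G = r0 (G ⧸ T) := by
    rw [r0_add_quotient T, r0_of_isTor T hTt, zero_add]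
  rw [hG, r0_map_tor f hkt A, r0_map_tor f hkt B, ← h1, r0_map_tor f hkt (A ⊓ (T ⊔ B)),
    map_inf_ker f A B T hker]
  exact h2

end Pool.TFR
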