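import Mathlib
import Pool.Agent.TFR.Reduce

/-!
# The product formula for nilpotent-by-abelian-by-finite groups
-/

set_option autoImplicit false

namespace Pool.TFR

open Cardinal
open scoped commutatorElement

/-- `G` has a finite chain of normal subgroups, up to a subgroup of finite index, with abelian
factors on which the commutator subgroup of a finite index subgroup `L` acts trivially. -/
def HasChain (k : ℕ) (G : Type) [Group G] : Prop :=
  ∃ (N : ℕ → Subgroup G) (L : Subgroup G), L.FiniteIndex ∧ L.Normal ∧ (∀ i, (N i).Normal) ∧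
    N 0 = ⊥ ∧ (N k).FiniteIndex ∧
    (∀ i < k, ∀ x ∈ N (i + 1), ∀ y ∈ N (i + 1), ⁅x, y⁆ ∈ N i) ∧
    (∀ i < k, ∀ x ∈ ⁅L, L⁆, ∀ y ∈ N (i + 1), ⁅x, y⁆ ∈ N i)

theorem formula_of_chain (k : ℕ) : ∀ (G : Type) [Group G] [Group.IsSolvable G], r0 G < ℵ₀ →
    HasChain k G → ProdFormula G := by
  induction k with
  | zero =>
    rintro G _ _ hr ⟨N, L, -, -, -, h0, hf, -, -⟩ A B -
    rw [h0] at hf
    have : Finite G := by
      have := hf.index_ne_zero
      rw [Subgroup.index_bot] at this
      exact Nat.finite_of_card_ne_zero this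
    rw [r0_of_finite G, r0_of_finite ↥(A ⊓ B), r0_of_finite A, r0_of_finite B]
  | succ k ih =>
    rintro G _ _ hr ⟨N, L, hL, hLn, hN, h0, hf, hab, hact⟩
    have hN1 := hN 1
    let f : G →* G ⧸ N 1 := QuotientGroup.mk' (N 1)
    have hfs : Function.Surjective f := QuotientGroup.mk'_surjective _
    refine step hr (N 1) ?_ L ?_ ?_
    · intro x y
      have h := hab 0 (Nat.succ_pos k) x.1 x.2 y.1 y.2
      rw [h0, Subgroup.mem_bot, commutatorElement_eq_one_iff_mul_comm] at h
      exact Subtype.ext h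
    · intro x hx n hn
      have h := hact 0 (Nat.succ_pos k) x hx n hn
      rw [h0, Subgroup.mem_bot, commutatorElement_eq_one_iff_mul_comm] at h
      exact h
    · refine ih (G ⧸ N 1) (lt_of_le_of_lt (r0_le_of_surjective f hfs) hr)
        ⟨fun i => (N (i + 1)).map f, L.map f, ?_, ?_, ?_, ?_, ?_, ?_, ?_⟩
      · exact ⟨fun h => hL.index_ne_zero (Nat.eq_zero_of_zero_dvd
          (h ▸ L.index_map_dvd hfs))⟩
      · exact hLn.map f hfs
      · exact fun i => (hN (i + 1)).map f hfs
      · rw [Subgroup.map_eq_bot_iff, QuotientGroup.ker_mk']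
      · exact ⟨fun h => hf.index_ne_zero (Nat.eq_zero_of_zero_dvd
          (h ▸ (N (k + 1)).index_map_dvd hfs))⟩
      · rintro i hi _ ⟨x, hx, rfl⟩ _ ⟨y, hy, rfl⟩
        rw [← map_commutatorElement]
        exact ⟨_, hab (i + 1) (by omega) x hx y hy, rfl⟩
      · rintro i hi z hz _ ⟨y, hy, rfl⟩
        rw [← Subgroup.map_commutator] at hz
        obtain ⟨x, hx, rfl⟩ := hz
        rw [← map_commutatorElement]
        exact ⟨_, hact (i + 1) (by omega) x hx y hy, rfl⟩

theorem main1 (G : Type) [Group G] [Group.IsSolvable G] (hr : r0 G < ℵ₀)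
    (L : Subgroup G) [L.FiniteIndex] (hL : Group.IsNilpotent ↥(⁅L, L⁆ : Subgroup G)) :
    ProdFormula G := by
  let L0 := L.normalCore
  let P : Subgroup G := ⁅L0, L0⁆
  have hPle : P ≤ ⁅L, L⁆ := Subgroup.commutator_mono L.normalCore_le L.normalCore_le
  have hP : Group.IsNilpotent ↥P :=
    (Group.isNilpotent_congr (Subgroup.subgroupOfEquivOfLe hPle)).1 inferInstance
  have hPn : P.Normal := Subgroup.commutator_normal L0 L0
  obtain ⟨c, hc⟩ := hP.nilpotent
  let N : ℕ → Subgroup G := fun i =>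
    if i ≤ c then (Subgroup.upperCentralSeries ↥P i).map P.subtype else L0
  have hNle : ∀ i, i ≤ c → N i = (Subgroup.upperCentralSeries ↥P i).map P.subtype :=
    fun i hi => if_pos hi
  have hNgt : ∀ i, ¬ i ≤ c → N i = L0 := fun i hi => if_neg hi
  have hNc : N c = P := by
    rw [hNle c le_rfl, hc, ← MonoidHom.range_eq_map, Subgroup.range_subtype]
  refine formula_of_chain (c + 1) G hr ⟨N, L0, inferInstance, L.normalCore_normal, ?_, ?_, ?_,
    ?_, ?_⟩
  · intro i
    by_cases hi : i ≤ c
    · rw [hNle i hi]; infer_instance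
    · rw [hNgt i hi]; exact L.normalCore_normal
  · rw [hNle 0 (Nat.zero_le c), Subgroup.upperCentralSeries_zero, Subgroup.map_bot]
  · rw [hNgt (c + 1) (by omega)]; infer_instance
  · intro i hi x hx y hy
    by_cases hi' : i + 1 ≤ c
    · rw [hNle _ hi'] at hx hy
      rw [hNle i (by omega)]
      obtain ⟨x, hx, rfl⟩ := hx
      obtain ⟨y, hy, rfl⟩ := hy
      rw [← map_commutatorElement]
      exact ⟨_, Subgroup.mem_upperCentralSeries_succ_iff.1 hx y, rfl⟩
    · have hic : i = c := by omega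
      rw [hNgt _ hi'] at hx hy
      rw [hic, hNc]
      exact Subgroup.commutator_mem_commutator hx hy
  · intro i hi x hx y hy
    by_cases hi' : i + 1 ≤ c
    · rw [hNle _ hi'] at hy
      rw [hNle i (by omega)]
      obtain ⟨y, hy, rfl⟩ := hy
      have h1 := Subgroup.mem_upperCentralSeries_succ_iff.1 hy ⟨x, hx⟩
      have h2 : (⁅(⟨x, hx⟩ : ↥P), y⁆ : ↥P) ∈ Subgroup.upperCentralSeries ↥P i := by
        rw [← commutatorElement_inv]
        exact Subgroup.inv_mem _ h1
      exact ⟨_, h2, rfl⟩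
    · have hic : i = c := by omega
      rw [hNgt _ hi'] at hy
      rw [hic, hNc]
      exact Subgroup.commutator_mem_commutator (Subgroup.commutator_le_right L0 L0 hx |> fun h => h) hy

end Pool.TFR
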