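import Mathlib
import Pool.Agent.TFR.Base

/-!
# The product formula: the torsion radical decides
-/

set_option autoImplicit false

namespace Pool.TFR

open Cardinal
open scoped commutatorElement

/-- A finite normal series of the torsion radical with the element-wise condition. -/
def TorChain (k : ℕ) (G : Type) [Group G] : Prop :=
  ∃ N : ℕ → Subgroup G, Monotone N ∧ (∀ i, (N i).Normal) ∧ N 0 = ⊥ ∧ IsTor (N k) ∧
    torRad G ≤ N k ∧
    (∀ i < k, ∀ x ∈ N (i + 1), ∀ y ∈ N (i + 1), ⁅x, y⁆ ∈ N i) ∧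
    (∀ i < k, ∀ g : G, (∀ x ∈ N (i + 1), ∃ d : ℕ, 0 < d ∧ ⁅g ^ d, x⁆ ∈ N i) ∨
      (∃ m : ℕ, 0 < m ∧ ∃ L : Subgroup G, L.FiniteIndex ∧
        ∀ y ∈ L, ∀ x ∈ N (i + 1), ⁅⁅g ^ m, y⁆, x⁆ ∈ N i))

theorem formula_of_torChain (k : ℕ) : ∀ (G : Type) [Group G] [Group.IsSolvable G],
    r0 G < ℵ₀ → TorChain k G → ProdFormula G := by
  induction k with
  | zero =>
    rintro G _ _ hr ⟨N, -, -, h0, -, hle, -, -⟩
    obtain ⟨m, hm⟩ := (Group.isSolvable_def G).1 inferInstance
    refine formula_noTor m G hm hr (fun S hS hSt => ?_)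
    rw [h0] at hle
    rw [eq_bot_iff]
    exact fun x hx => hle ⟨S, hS, hSt, hx⟩
  | succ k ih =>
    rintro G _ _ hr ⟨N, hmono, hN, h0, htor, hle, hab, hstar⟩
    have hN1 := hN 1
    let f : G →* G ⧸ N 1 := QuotientGroup.mk' (N 1)
    have hfs : Function.Surjective f := QuotientGroup.mk'_surjective _
    refine step_tor hr (N 1) ?_ ?_ ?_
    · intro x y
      have h := hab 0 (Nat.succ_pos k) x.1 x.2 y.1 y.2
      rw [h0, Subgroup.mem_bot, commutatorElement_eq_one_iff_mul_comm] at h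
      exact Subtype.ext h
    · intro g
      rcases hstar 0 (Nat.succ_pos k) g with h | ⟨m, hm, L, hL, h⟩
      · left
        intro n hn
        obtain ⟨d, hd, hdn⟩ := h n hn
        rw [h0, Subgroup.mem_bot, commutatorElement_eq_one_iff_mul_comm] at hdn
        exact ⟨d, hd, hdn⟩
      · right
        refine ⟨m, hm, L, hL, fun y hy n hn => ?_⟩
        have h1 := h y hy n hn
        rw [h0, Subgroup.mem_bot, commutatorElement_eq_one_iff_mul_comm] at h1
        exact h1
    · refine ih (G ⧸ N 1) (lt_of_le_of_lt (r0_le_of_surjective f hfs) hr)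
        ⟨fun i => (N (i + 1)).map f, ?_, ?_, ?_, ?_, ?_, ?_, ?_⟩
      · exact fun i j hij => Subgroup.map_mono (hmono (Nat.succ_le_succ hij))
      · exact fun i => (hN (i + 1)).map f hfs
      · rw [Subgroup.map_eq_bot_iff, QuotientGroup.ker_mk']
      · rintro _ ⟨x, hx, rfl⟩
        obtain ⟨k, hk, hk'⟩ := htor x hx
        exact ⟨k, hk, by rw [← map_pow, hk', map_one]⟩
      · rintro y ⟨S, hS, hSt, hy⟩
        obtain ⟨x, rfl⟩ := hfs y
        refine ⟨x, hle ⟨S.comap f, inferInstance, ?_, hy⟩, rfl⟩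
        refine isTor_of_map f _ ?_ ?_
        · rintro _ ⟨z, hz, rfl⟩
          exact hSt _ hz
        · rintro z ⟨-, hz⟩
          rw [QuotientGroup.ker_mk'] at hz
          exact htor z (hmono (by omega) hz)
      · rintro i hi _ ⟨x, hx, rfl⟩ _ ⟨y, hy, rfl⟩
        rw [← map_commutatorElement]
        exact ⟨_, hab (i + 1) (by omega) x hx y hy, rfl⟩
      · intro i hi g
        obtain ⟨g, rfl⟩ := hfs g
        rcases hstar (i + 1) (by omega) g with h | ⟨m, hm, L, hL, h⟩
        · left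
          rintro _ ⟨x, hx, rfl⟩
          obtain ⟨d, hd, hdx⟩ := h x hx
          refine ⟨d, hd, ?_⟩
          rw [← map_pow, ← map_commutatorElement]
          exact ⟨_, hdx, rfl⟩
        · right
          refine ⟨m, hm, L.map f, ?_, ?_⟩
          · exact ⟨fun h => hL.index_ne_zero (Nat.eq_zero_of_zero_dvd
              (h ▸ L.index_map_dvd hfs))⟩
          · rintro _ ⟨y, hy, rfl⟩ _ ⟨x, hx, rfl⟩
            rw [← map_pow, ← map_commutatorElement, ← map_commutatorElement]
            exact ⟨_, h y hy x hx, rfl⟩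

end Pool.TFR
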